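import Mathlib
import Pool.Agent.H71.TD.Ifc

/-!
Definitions for the block GA of the total colouring project (colours and holes of the vertices): natural number versions of
the facts of `Str`, `Spl`, `FcOut`, and the interfaces of the two stages.
-/

set_option autoImplicit false

namespace Pool.Agent.H46.GA

open Finset Classical
open Pool.Agent.H71.DN Pool.Agent.H71.DX Pool.Agent.H71.DR Pool.Agent.H71.HL Pool.Agent.H71.DC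
open Pool.Agent.H71.TD

/-- The number of vertices of the piece `j` that are covered by `φ`. -/
noncomputable def cv {V : Type} [Fintype V] (nd : V → ℕ) (φ : V → V) (j : ℕ) : ℕ :=
  ((pt nd j).filter fun v => φ v ≠ v).card

/-- The number of vertices of the piece `j` with the label `ℓ`. -/
noncomputable def ow {V : Type} [Fintype V] (nd : V → ℕ) (cc : V → ℕ) (j ℓ : ℕ) : ℕ :=
  ((pt nd j).filter fun v => cc v = ℓ).card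

/-- The number of vertices of `W` in the piece `j` with the label `ℓ`. -/
noncomputable def wn {V : Type} [Fintype V] (nd : V → ℕ) (W : Finset V) (lam : V → ℕ)
    (j ℓ : ℕ) : ℕ :=
  (W.filter fun v => nd v = j ∧ lam v = ℓ).card

/-- The difference between the numbers of holes in the pieces `2 i` and `2 i + 1` that is needed at the label `ℓ`. -/
noncomputable def gg {V : Type} [Fintype V] (nd : V → ℕ) (φ : ℕ → V → V) (cc : V → ℕ)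
    (i ℓ : ℕ) : ℤ :=
  (ow nd cc (2 * i + 1) ℓ : ℤ) - ow nd cc (2 * i) ℓ - uu nd (φ ℓ) i

/-- The facts about the graph, the pieces, the quarters and the colouring `φ` of the defect edges. -/
structure Fx {V : Type} [Fintype V] (G : SimpleGraph V) (Δ k : ℕ) (ty : ℕ → Prop)
    (nd qt : V → ℕ) (sf : ℕ → Finset V) (t : ℕ) (φ : ℕ → V → V) (c0 : V → ℕ)
    (d D r z e : ℕ) : Prop where
  le : ∀ v, nd v ≤ 2 * k
  odd : ∀ i < k, ty i → pt nd (2 * i + 1) = ∅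
  even : ∀ i < k, ty i → Even (pt nd (2 * i)).card
  bal : ∀ i < k, ¬ ty i → (pt nd (2 * i)).card = (pt nd (2 * i + 1)).card
  big : ∀ i < k, 9 * Δ ≤ 10 * (pt nd (2 * i)).card
  half : ∀ v, nd v < 2 * k → Δ ≤ 4 * (univ.filter fun u => nd u = nd v ∧ qt u < 2).card ∧
    Δ ≤ 4 * (univ.filter fun u => nd u = nd v ∧ ¬ qt u < 2).card
  dF : ∀ v, nd v < 2 * k → dg (Fg G k ty nd) v ≤ d
  hi : (univ.filter fun v => nd v < 2 * k ∧ e < dg (Fg G k ty nd) v).card ≤ e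
  lo : (pt nd (2 * k)).card ≤ r
  cod : ∀ i < k, ty i → ∀ v ∈ pt nd (2 * i),
    ((pt nd (2 * i)).filter fun u => u ≠ v ∧ ¬ G.Adj v u).card + (Δ + 1) =
      (pt nd (2 * i)).card + dg (Fg G k ty nd) v
  sf1 : ∀ i < k, ty i → (sf i).card ≤ 1
  nn : ∀ i < k, ∀ w ∈ pt nd (2 * k), w ∉ sf i →
    z ≤ ((pt nd (2 * i)).filter fun v => ¬ G.Adj w v).card ∧
    (¬ ty i → z ≤ ((pt nd (2 * i + 1)).filter fun v => ¬ G.Adj w v).card)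
  ns : ∀ i < k, ¬ ty i →
    (∀ w ∈ sf i, z ≤ ((pt nd (2 * i)).filter fun v => ¬ G.Adj w v).card) ∨
    (∀ w ∈ sf i, z ≤ ((pt nd (2 * i + 1)).filter fun v => ¬ G.Adj w v).card)
  cnt : ∀ v, ((range (Δ + 2)).filter fun ℓ => φ ℓ v ≠ v).card = dg (Fg G k ty nd) v
  adj : ∀ ℓ < Δ + 2, ∀ v, φ ℓ v ≠ v → (Fg G k ty nd).Adj v (φ ℓ v)
  t1 : ∀ ℓ < t, ∀ v, nd v < 2 * k → qt v < 2 → φ ℓ v = v
  t2 : ∀ ℓ, t ≤ ℓ → ℓ < 2 * t → ∀ v, nd v < 2 * k → 2 ≤ qt v → φ ℓ v = v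
  c1 : ∀ w ∈ pt nd (2 * k), 2 * t ≤ c0 w ∧ c0 w < Δ + 2 ∧ φ (c0 w) w = w
  c2 : ∀ w ∈ pt nd (2 * k), ∀ w' ∈ pt nd (2 * k), c0 w = c0 w' → w = w'
  dlo : ∀ w ∈ pt nd (2 * k), dg (Fg G k ty nd) w = Δ
  sm : ∀ ℓ < Δ + 2, (univ.filter fun v => nd v < 2 * k ∧ φ ℓ v ≠ v).card ≤ D
  ub : ∀ i < k, ¬ ty i → ∀ ℓ < Δ + 2, |uu nd (φ ℓ) i| ≤ 3
  us : ∀ i < k, ¬ ty i → 5 * ∑ ℓ ∈ range (Δ + 2), max 0 (-uu nd (φ ℓ) i) ≤ 4 * Δ
  sE : ∀ i < k, ty i → Even (∑ ℓ ∈ range (Δ + 2), cv nd (φ ℓ) (2 * i))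
  sB : ∀ i < k, ¬ ty i → ∑ ℓ ∈ range (Δ + 2), uu nd (φ ℓ) i = 0

/-- A proper colouring of `G` on `C` with `m` classes of size at most `s`. -/
structure Grp {V : Type} [Fintype V] (G : SimpleGraph V) (C : Finset V) (m s : ℕ)
    (γ : V → ℕ) : Prop where
  lt : ∀ v ∈ C, γ v < m
  pr : ∀ a ∈ C, ∀ b ∈ C, G.Adj a b → γ a ≠ γ b
  sz : ∀ j, (C.filter fun v => γ v = j).card ≤ s

/-- The vertices of `W` (in expanding parts) are coloured by `lam`. For an expanding part either all vertices are in `W` and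
the part has at least `Δ + 2` vertices, or the labels of the set `Λ` of `#C - (Δ + 1)` labels are used exactly twice. -/
structure WOut {V : Type} [Fintype V] (G : SimpleGraph V) (Δ k : ℕ) (ty : ℕ → Prop)
    (nd : V → ℕ) (t : ℕ) (φ : ℕ → V → V) (c0 : V → ℕ) (zi : ℕ → ℕ) (s z : ℕ)
    (W : Finset V) (lam : V → ℕ) : Prop where
  sub : ∀ v ∈ W, nd v < 2 * k ∧ ty (nd v / 2)
  rg : ∀ v ∈ W, 2 * t ≤ lam v ∧ lam v < Δ + 2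
  sp : ∀ v ∈ W, ∀ w ∈ pt nd (2 * k), lam v ≠ c0 w
  fr : ∀ v ∈ W, φ (lam v) v = v
  pr : ∀ a ∈ W, ∀ b ∈ W, G.Adj a b → lam a ≠ lam b
  sz : ∀ j ℓ, wn nd W lam j ℓ ≤ s
  alt : ∀ i < k, ty i → (pt nd (2 * i) ⊆ W ∧ Δ + 2 ≤ (pt nd (2 * i)).card) ∨
    (8 * (W.filter fun v => nd v = 2 * i).card ≤ z ∧
      ∃ Λ : Finset ℕ, Λ ⊆ range (Δ + 2) ∧ zi i ∉ Λ ∧
        Λ.card = (pt nd (2 * i)).card - (Δ + 1) ∧
        (∀ v ∈ W, nd v = 2 * i → lam v ∈ Λ) ∧ ∀ ℓ ∈ Λ, wn nd W lam (2 * i) ℓ = 2)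

/-- Numbers `a j ℓ` of vertices of the piece `j` outside `W` that shall get the label `ℓ`. -/
structure Dem {V : Type} [Fintype V] (G : SimpleGraph V) (Δ k : ℕ) (ty : ℕ → Prop)
    (nd : V → ℕ) (t : ℕ) (c0 : V → ℕ) (z K : ℕ) (W : Finset V) (lam : V → ℕ)
    (a : ℕ → ℕ → ℕ) : Prop where
  sum : ∀ j < 2 * k, ∑ ℓ ∈ range (Δ + 2), a j ℓ = ((pt nd j).filter fun v => v ∉ W).card
  le : ∀ j ℓ, a j ℓ ≤ K
  e1 : ∀ i < k, ty i → ∀ ℓ, a (2 * i) ℓ ≤ 1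
  e2 : ∀ i < k, ty i → ∀ v ∈ W, nd v = 2 * i → a (2 * i) (lam v) = 0
  b1 : ∀ i < k, ¬ ty i → ∀ ℓ, a (2 * i) ℓ = 0 ∨ a (2 * i + 1) ℓ = 0
  wl : ∀ j < 2 * k, (∃ v, nd v = j ∧ v ∉ W) → 8 * (W.filter fun v => nd v = j).card ≤ Δ
  cd : ∀ w ∈ pt nd (2 * k), ∀ j < 2 * k, 0 < a j (c0 w) →
    z ≤ 2 * ((pt nd j).filter fun v => v ∉ W ∧ ¬ G.Adj w v).card
  s3 : ∀ w ∈ pt nd (2 * k), ∀ j < 2 * k, a j (c0 w) ≤ 3
  t1 : ∀ j < 2 * k, ∑ ℓ ∈ range t, a j ℓ ≤ 3 * t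
  t2 : ∀ j < 2 * k, ∑ ℓ ∈ Ico t (2 * t), a j ℓ ≤ 3 * t

/-- Colours `cc` of the vertices that fit to `φ`, such that holes can be found. -/
structure ColOut {V : Type} [Fintype V] (G : SimpleGraph V) (Δ k : ℕ) (ty : ℕ → Prop)
    (nd qt : V → ℕ) (t K : ℕ) (φ : ℕ → V → V) (cc : V → ℕ) : Prop where
  lt : ∀ v, cc v < Δ + 2
  fr : ∀ v, φ (cc v) v = v
  pr : ∀ a b, G.Adj a b → cc a ≠ cc b
  t1 : ∀ v, nd v < 2 * k → qt v < 2 → t ≤ cc v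
  t2 : ∀ v, nd v < 2 * k → 2 ≤ qt v → cc v < t ∨ 2 * t ≤ cc v
  ct : ∀ j < 2 * k, ∀ ℓ < Δ + 2, ow nd cc j ℓ ≤ K
  ev : ∀ i < k, ty i → ((range (Δ + 2)).filter fun ℓ =>
    ¬ Even ((pt nd (2 * i)).card + cv nd (φ ℓ) (2 * i) + ow nd cc (2 * i) ℓ)).card ≤
      (pt nd (2 * i)).card
  ba : ∀ i < k, ¬ ty i →
    ∑ ℓ ∈ range (Δ + 2), max 0 (gg nd φ cc i ℓ) ≤ ((pt nd (2 * i)).card : ℤ)
  bt : ∀ i < k, ¬ ty i → ∀ ℓ < 2 * t, gg nd φ cc i ℓ = 0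

end Pool.Agent.H46.GA
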