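import Mathlib
import Pool.Agent.H46.GA.Defs

/-!
SPC: splitting the classes of a proper colouring into pieces of size at most `s`.

Proof.  Let `em : V ≃ Fin (card V)` (`Fintype.equivFin V`), for `v ∈ C` let `rk v := #{u ∈ C : γ0 u = γ0 v, em u < em v}`: on a class `rk` is injective (if `em v < em v'` then the set for `v` is a proper subset of the one for `v'`), and `rk v < #(class of v)`. The pieces are given by the pair `P v := (γ0 v, rk v / s)`.
`I := C.image P`, `m := #I`, `γ v := ` the number of `P v` in an enumeration of `I` (`I.equivFin`, or an injection `ℕ × ℕ → ℕ` onto `range m` on `I`).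
 * size: for a pair `(j, p)` the map `v ↦ rk v` is injective from `{v ∈ C : P v = (j, p)}` to `Ico (p s) ((p + 1) s)`, so the piece has at most `s` elements. For `γ v = j'` with `v ∈ C` all such `v` have the same `P v`.
 * `m ≤ ∑_{j < k} (a_j / s + 1)`, `a_j := #{v ∈ C : γ0 v = j}`: the pairs of `I` with first entry `j` have second entry `≤ (a_j - 1) / s`. And `∑_{j < k} (a_j / s) ≤ (∑ a_j) / s = #C / s`.
 * proper: adjacent vertices of `C` have different `γ0`, so different `P`, so different `γ`.
-/

set_option autoImplicit false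

namespace Pool.Agent.H46.GA

open Finset Classical
open Pool.Agent.H71.DN Pool.Agent.H71.DX Pool.Agent.H71.DR Pool.Agent.H71.HL Pool.Agent.H71.DC
open Pool.Agent.H71.TD

theorem spc {V : Type} [Fintype V] (G : SimpleGraph V) (C : Finset V) (k s : ℕ) (hs : 0 < s)
    (γ0 : V → ℕ) (h1 : ∀ v ∈ C, γ0 v < k) (h2 : ∀ a ∈ C, ∀ b ∈ C, G.Adj a b → γ0 a ≠ γ0 b) :
    ∃ (m : ℕ) (γ : V → ℕ), Grp G C m s γ ∧ m ≤ k + C.card / s := by
  set em := Fintype.equivFin V with hem
  set rk : V → ℕ := fun v => (C.filter fun u => γ0 u = γ0 v ∧ em u < em v).card with hrk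
  set a : ℕ → ℕ := fun j => (C.filter fun v => γ0 v = j).card with ha
  set off : ℕ → ℕ := fun j => ∑ i ∈ range j, (a i / s + 1) with hoff
  have hoffs : ∀ j, off (j + 1) = off j + (a j / s + 1) := fun j => by
    simp only [hoff, Finset.sum_range_succ]
  have hoffm : Monotone off := monotone_nat_of_le_succ fun j => by
    rw [hoffs]
    exact Nat.le_add_right _ _
  have hrklt : ∀ v ∈ C, rk v < a (γ0 v) := by
    intro v hv
    apply Finset.card_lt_card
    rw [Finset.ssubset_iff_of_subset]
    · refine ⟨v, Finset.mem_filter.mpr ⟨hv, rfl⟩, ?_⟩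
      intro hcon
      exact lt_irrefl _ (Finset.mem_filter.mp hcon).2.2
    · intro u hu
      rw [Finset.mem_filter] at hu ⊢
      exact ⟨hu.1, hu.2.1⟩
  have hrkinj : ∀ v ∈ C, ∀ v' ∈ C, γ0 v = γ0 v' → rk v = rk v' → v = v' := by
    have key : ∀ v ∈ C, ∀ v' ∈ C, γ0 v = γ0 v' → em v < em v' → rk v < rk v' := by
      intro v hv v' hv' h3 h4
      apply Finset.card_lt_card
      rw [Finset.ssubset_iff_of_subset]
      · refine ⟨v, Finset.mem_filter.mpr ⟨hv, h3, h4⟩, ?_⟩
        intro hcon
        exact lt_irrefl _ (Finset.mem_filter.mp hcon).2.2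
      · intro u hu
        rw [Finset.mem_filter] at hu ⊢
        exact ⟨hu.1, hu.2.1.trans h3, hu.2.2.trans h4⟩
    intro v hv v' hv' h3 h4
    rcases lt_trichotomy (em v) (em v') with h5 | h5 | h5
    · exact absurd h4 (key v hv v' hv' h3 h5).ne
    · exact em.injective h5
    · exact absurd h4.symm (key v' hv' v hv h3.symm h5).ne
  set γ : V → ℕ := fun v => off (γ0 v) + rk v / s with hγ
  have hlt : ∀ v ∈ C, γ v < off (γ0 v + 1) := by
    intro v hv
    rw [hoffs]
    have := Nat.div_le_div_right (c := s) (hrklt v hv).le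
    show off (γ0 v) + rk v / s < _
    omega
  have hle : ∀ v, off (γ0 v) ≤ γ v := fun v => Nat.le_add_right _ _
  have hγinj : ∀ v ∈ C, ∀ v' ∈ C, γ v = γ v' → γ0 v = γ0 v' ∧ rk v / s = rk v' / s := by
    intro v hv v' hv' h3
    have h4 : γ0 v = γ0 v' := by
      rcases lt_trichotomy (γ0 v) (γ0 v') with h5 | h5 | h5
      · have := hoffm (Nat.succ_le_of_lt h5)
        have := hlt v hv
        have := hle v'
        simp only [Nat.succ_eq_add_one] at *
        omega
      · exact h5
      · have := hoffm (Nat.succ_le_of_lt h5)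
        have := hlt v' hv'
        have := hle v
        simp only [Nat.succ_eq_add_one] at *
        omega
    refine ⟨h4, ?_⟩
    have h5 : off (γ0 v) + rk v / s = off (γ0 v') + rk v' / s := h3
    rw [h4] at h5
    omega
  refine ⟨off k, γ, ⟨?_, ?_, ?_⟩, ?_⟩
  · intro v hv
    exact lt_of_lt_of_le (hlt v hv) (hoffm (h1 v hv))
  · intro x hx y hy hxy h3
    exact h2 x hx y hy hxy (hγinj x hx y hy h3).1
  · intro j
    by_cases hne : (C.filter fun v => γ v = j).Nonempty
    · obtain ⟨v₀, hv₀⟩ := hne
      rw [Finset.mem_filter] at hv₀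
      have h3 : (C.filter fun v => γ v = j).card ≤
          (Finset.Ico (rk v₀ / s * s) (rk v₀ / s * s + s)).card := by
        apply Finset.card_le_card_of_injOn rk
        · intro v hv
          have hv' := Finset.mem_filter.mp (Finset.mem_coe.mp hv)
          have h4 := (hγinj v hv'.1 v₀ hv₀.1 (hv'.2.trans hv₀.2.symm)).2
          rw [Finset.coe_Ico, Set.mem_Ico, ← h4]
          have h5 := Nat.div_add_mod (rk v) s
          have h6 := Nat.mod_lt (rk v) hs
          rw [Nat.mul_comm] at h5
          omega
        · intro v hv v' hv' h4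
          have hv1 := Finset.mem_filter.mp (Finset.mem_coe.mp hv)
          have hv2 := Finset.mem_filter.mp (Finset.mem_coe.mp hv')
          exact hrkinj v hv1.1 v' hv2.1 (hγinj v hv1.1 v' hv2.1 (hv1.2.trans hv2.2.symm)).1 h4
      rw [Nat.card_Ico] at h3
      omega
    · rw [Finset.not_nonempty_iff_eq_empty] at hne
      rw [hne]
      simp
  · have h3 : off k = k + ∑ i ∈ range k, a i / s := by
      simp only [hoff, Finset.sum_add_distrib, Finset.sum_const, Finset.card_range, smul_eq_mul,
        mul_one]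
      omega
    have h4 : ∑ i ∈ range k, a i / s ≤ (∑ i ∈ range k, a i) / s := by
      rw [Nat.le_div_iff_mul_le hs, Finset.sum_mul]
      exact Finset.sum_le_sum fun i _ => Nat.div_mul_le_self _ _
    have h5 : ∑ i ∈ range k, a i = C.card := by
      rw [ha]
      exact (Finset.card_eq_sum_card_fiberwise fun v hv => by
        simpa using h1 v hv).symm
    rw [h3, ← h5]
    omega

end Pool.Agent.H46.GA
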