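import Mathlib
import Pool.Agent.H46.GA.Spc
import Pool.Agent.H71.DC.ChN

/-!
CHG: a large expanding part has a proper colouring with fewer than `Δ` classes of bounded size. Use the STATEMENTS of `spc` (`GA/Spc.lean`) and of `chN` (`Pool/Agent/H71/DC/ChN.lean`).

Proof.  `γ := min (x / 2) (1 / 20)`. `chN c γ` gives `η1` and `n1`. `s := ⌈2 / (η1 c)⌉₊ + 2`, `η := η1 / 2`, `n0 := ⌈n1 / c⌉₊ + 1`. Let `G' := G.induce C` resp. `G.comap (Subtype.val)` on the subtype `↥C`; `Fintype.card ↥C = #C`, `#C ≥ (11/10) Δ > Δ ≥ c n ≥ n1`, `dg G' v ≤ dg G v ≤ Δ`, `c * #C ≤ c n ≤ Δ`.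
 `NCq G' Δ γ`: let `S'` be a finset of `↥C` with `#S' ≤ (1 + γ) Δ`, let `S ⊆ C` be its image in `V`; `ee G' S' S' = ee G S S`. Suppose `ee G S S > (1 - γ) Δ²`. Then `#S * Δ ≥ ee G S S > (1 - γ) Δ²`, so `#S ≥ (1 - γ) Δ ≥ Δ / 2 ≥ (c/128) #C` (`Δ ≥ c n`; `Δ > 0` here), and `#S ≤ (1 + γ) Δ ≤ (21/20) (10/11) #C ≤ (1 - c/128) #C`.
 `ee G S (C \ S) ≤ ∑_{v ∈ S} (dg G v - dgi G S v) ≤ #S Δ - ee G S S ≤ 2 γ Δ² ≤ x (#C)²` (`Δ ≤ #C`). By `XPc` with `A = S`, `Y = C \ S`: `#S + #(C \ S) + x #C ≤ #C`, a contradiction to `0 < #C`.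
 So `G'.Colorable k'` with `k' ≤ (1 - η1) Δ`. With the colours `< k'` on `C` (`γ0 v := ` the colour for `v ∈ C`, `0` otherwise) `spc` gives `m ≤ k' + #C / s ≤ (1 - η1) Δ + n / s ≤ (1 - η1) Δ + (Δ / c) (η1 c / 2) = (1 - η1 / 2) Δ`.
-/

set_option autoImplicit false

namespace Pool.Agent.H46.GA

open Finset Classical
open Pool.Agent.H71.DN Pool.Agent.H71.DX Pool.Agent.H71.DR Pool.Agent.H71.HL Pool.Agent.H71.DC
open Pool.Agent.H71.TD

private theorem chg_dg {V : Type} [Fintype V] (G : SimpleGraph V) (S : Finset V)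
    (v : {v : V // v ∈ S}) :
    dg (G.comap (fun v : {v : V // v ∈ S} => v.1)) v = dgi G S v.1 := by
  unfold dg dgi
  refine Finset.card_bij (fun u _ => u.1) ?_ ?_ ?_
  · intro u hu
    rw [mem_filter] at hu ⊢
    exact ⟨u.2, hu.2⟩
  · intro a _ b _ h
    exact Subtype.ext h
  · intro b hb
    rw [mem_filter] at hb
    refine ⟨⟨b, hb.1⟩, ?_, rfl⟩
    rw [mem_filter]
    exact ⟨mem_univ _, hb.2⟩

private theorem chg_ee {V : Type} [Fintype V] (G : SimpleGraph V) (S : Finset V)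
    (A B : Finset {v : V // v ∈ S}) :
    ee (G.comap (fun v : {v : V // v ∈ S} => v.1)) A B =
      ee G (A.map (Function.Embedding.subtype _)) (B.map (Function.Embedding.subtype _)) := by
  unfold ee
  refine Finset.card_bij (fun x _ => (x.1.1, x.2.1)) ?_ ?_ ?_
  · intro x hx
    rw [mem_filter, mem_product] at hx ⊢
    exact ⟨⟨mem_map_of_mem _ hx.1.1, mem_map_of_mem _ hx.1.2⟩, hx.2⟩
  · intro a _ b _ h
    rw [Prod.ext_iff] at h
    exact Prod.ext (Subtype.ext h.1) (Subtype.ext h.2)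
  · intro b hb
    rw [mem_filter, mem_product, mem_map, mem_map] at hb
    obtain ⟨⟨⟨x, hx, hx1⟩, ⟨y, hy, hy1⟩⟩, hadj⟩ := hb
    refine ⟨(x, y), ?_, Prod.ext hx1 hy1⟩
    rw [mem_filter, mem_product]
    refine ⟨⟨hx, hy⟩, ?_⟩
    rw [← hx1, ← hy1] at hadj
    exact hadj

private theorem chg_sub {V : Type} (S : Finset V) (A : Finset {v : V // v ∈ S}) :
    A.map (Function.Embedding.subtype _) ⊆ S := by
  intro x hx
  rw [mem_map] at hx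
  obtain ⟨y, -, rfl⟩ := hx
  exact y.2

private theorem chg_le {V : Type} [Fintype V] (G : SimpleGraph V) (S : Finset V) (v : V) :
    dgi G S v ≤ dg G v := by
  unfold dgi dg
  exact Finset.card_le_card (Finset.filter_subset_filter _ (Finset.subset_univ _))

private theorem chg_sum {V : Type} [Fintype V] (G : SimpleGraph V) (A B : Finset V) :
    ee G A B = ∑ a ∈ A, dgi G B a := by
  unfold ee dgi
  rw [Finset.card_filter, Finset.sum_product]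
  refine Finset.sum_congr rfl fun a _ => ?_
  rw [Finset.card_filter]

private theorem chg_split {V : Type} [Fintype V] (G : SimpleGraph V) (S T : Finset V) (Δ : ℕ)
    (hd : Disjoint S T) (hΔ : ∀ v, dg G v ≤ Δ) : ee G S S + ee G S T ≤ S.card * Δ := by
  rw [chg_sum, chg_sum, ← Finset.sum_add_distrib]
  have h : ∀ a ∈ S, dgi G S a + dgi G T a ≤ Δ := by
    intro a _
    refine le_trans ?_ (hΔ a)
    unfold dgi dg
    rw [← Finset.card_union_of_disjoint (Finset.disjoint_filter_filter hd)]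
    refine Finset.card_le_card ?_
    intro u hu
    rw [mem_union, mem_filter, mem_filter] at hu
    rw [mem_filter]
    rcases hu with h | h
    · exact ⟨mem_univ _, h.2⟩
    · exact ⟨mem_univ _, h.2⟩
  have h3 := Finset.sum_le_card_nsmul S _ Δ h
  rwa [smul_eq_mul] at h3

private theorem chg_nc {V : Type} [Fintype V] (G : SimpleGraph V) (Δ : ℕ) (C : Finset V)
    (c x γ : ℝ) (hc : 0 < c) (hc1 : c ≤ 1) (hx : 0 < x) (hγ1 : γ ≤ x / 2)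
    (hγ2 : γ ≤ 1 / 20) (hΔ : ∀ v, dg G v ≤ Δ) (hcn : c * Fintype.card V ≤ Δ)
    (hC : 11 * Δ < 10 * C.card) (hX : XPc G C (c / 128) x x) (hD : 0 < Δ) :
    NCq (G.comap (fun v : {v : V // v ∈ C} => v.1)) Δ γ := by
  intro S' hS'
  rw [chg_ee]
  have hSC := chg_sub C S'
  obtain ⟨S, hS⟩ : ∃ S : Finset V, S = S'.map (Function.Embedding.subtype _) := ⟨_, rfl⟩
  have hcd : S.card = S'.card := by rw [hS, card_map]
  rw [← hS] at hSC ⊢
  rw [← hcd] at hS'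
  by_contra hcon
  rw [not_le] at hcon
  have hD' : (0 : ℝ) < Δ := by exact_mod_cast hD
  have hC' : 11 * (Δ : ℝ) < 10 * (C.card : ℝ) := by exact_mod_cast hC
  have hCn : (C.card : ℝ) ≤ (Fintype.card V : ℝ) := by exact_mod_cast Finset.card_le_univ C
  have hsp := chg_split G S (C \ S) Δ Finset.disjoint_sdiff hΔ
  have hsp' : (ee G S S : ℝ) + ee G S (C \ S) ≤ S.card * Δ := by exact_mod_cast hsp
  have hee : (0 : ℝ) ≤ ee G S (C \ S) := Nat.cast_nonneg _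
  have h1 : (1 - γ) * (Δ : ℝ) ^ 2 < S.card * Δ := by linarith
  have h2 : (1 - γ) * (Δ : ℝ) < S.card := by
    have e : (1 - γ) * (Δ : ℝ) * Δ < S.card * Δ := by
      calc (1 - γ) * (Δ : ℝ) * Δ = (1 - γ) * (Δ : ℝ) ^ 2 := by ring
        _ < _ := h1
    exact lt_of_mul_lt_mul_right e hD'.le
  have hcC : c * (C.card : ℝ) ≤ Δ := (mul_le_mul_of_nonneg_left hCn hc.le).trans hcn
  have hC0 : (0 : ℝ) < C.card := by linarith
  have h3 := hX S (C \ S) hSC Finset.sdiff_subset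
    (by
      have e1 : γ * (Δ : ℝ) ≤ 1 / 20 * Δ := mul_le_mul_of_nonneg_right hγ2 hD'.le
      linarith)
    (by
      have e1 : γ * (Δ : ℝ) ≤ 1 / 20 * Δ := mul_le_mul_of_nonneg_right hγ2 hD'.le
      have e2 : c * (C.card : ℝ) ≤ 1 * C.card := mul_le_mul_of_nonneg_right hc1 hC0.le
      linarith)
    (by
      have e1 : (S.card : ℝ) * Δ ≤ (1 + γ) * Δ * Δ := mul_le_mul_of_nonneg_right hS' hD'.le
      have e2 : (ee G S (C \ S) : ℝ) ≤ 2 * γ * (Δ : ℝ) ^ 2 := by nlinarith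
      have e3 : 2 * γ * (Δ : ℝ) ^ 2 ≤ x * (Δ : ℝ) ^ 2 :=
        mul_le_mul_of_nonneg_right (by linarith) (sq_nonneg _)
      have e4 : (Δ : ℝ) ^ 2 ≤ (C.card : ℝ) ^ 2 :=
        pow_le_pow_left₀ hD'.le (by linarith) 2
      exact e2.trans (e3.trans (mul_le_mul_of_nonneg_left e4 hx.le)))
  have h4 : (C \ S).card + S.card = C.card := Finset.card_sdiff_add_card_eq_card hSC
  have h4' : ((C \ S).card : ℝ) + S.card = C.card := by exact_mod_cast h4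
  have h5 : 0 < x * (C.card : ℝ) := mul_pos hx hC0
  linarith

theorem chg (c x : ℝ) (hc : 0 < c) (hc1 : c ≤ 1) (hx : 0 < x) (hx1 : x ≤ 1) :
    ∃ (η : ℝ) (s n0 : ℕ), 0 < η ∧ η ≤ 1 / 4 ∧ 2 ≤ s ∧
      ∀ (V : Type) [Fintype V] (G : SimpleGraph V) (Δ : ℕ) (C : Finset V), n0 ≤ Fintype.card V →
        (∀ v, dg G v ≤ Δ) → c * Fintype.card V ≤ Δ → 11 * Δ < 10 * C.card →
        XPc G C (c / 128) x x →
        ∃ (m : ℕ) (γ : V → ℕ), Grp G C m s γ ∧ (m : ℝ) ≤ (1 - η) * Δ := by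
  obtain ⟨γ, hγ0, hγ1, hγ2⟩ : ∃ γ : ℝ, 0 < γ ∧ γ ≤ x / 2 ∧ γ ≤ 1 / 20 :=
    ⟨min (x / 2) (1 / 20), lt_min (by linarith) (by norm_num), min_le_left _ _,
      min_le_right _ _⟩
  obtain ⟨η1, n1, hη1, hη2, H⟩ := chN c γ hc hc1 hγ0 (by linarith)
  refine ⟨η1 / 2, ⌈2 / (η1 * c)⌉₊ + 2, ⌈(n1 : ℝ) / c⌉₊ + 1, by linarith, by linarith, by omega, ?_⟩
  intro V _ G Δ C hn hΔ hcn hC hX
  have hn' : (n1 : ℝ) / c ≤ (Fintype.card V : ℝ) - 1 := by
    have e1 : (n1 : ℝ) / c ≤ (⌈(n1 : ℝ) / c⌉₊ : ℝ) := Nat.le_ceil _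
    have e2 : ((⌈(n1 : ℝ) / c⌉₊ + 1 : ℕ) : ℝ) ≤ (Fintype.card V : ℝ) := by exact_mod_cast hn
    push_cast at e2
    linarith
  have hn2 : (n1 : ℝ) ≤ ((Fintype.card V : ℝ) - 1) * c := (div_le_iff₀ hc).1 hn'
  have hn3 : (0 : ℝ) ≤ n1 := Nat.cast_nonneg _
  have hD' : (0 : ℝ) < Δ := by nlinarith
  have hD : 0 < Δ := by exact_mod_cast hD'
  have hn4 : (n1 : ℝ) ≤ Δ := by nlinarith
  have hn5 : n1 ≤ Δ := by exact_mod_cast hn4
  have hCn : (C.card : ℝ) ≤ (Fintype.card V : ℝ) := by exact_mod_cast Finset.card_le_univ C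
  have hcC : c * (C.card : ℝ) ≤ Δ := (mul_le_mul_of_nonneg_left hCn hc.le).trans hcn
  have hcard : Fintype.card {v : V // v ∈ C} = C.card := Fintype.card_coe C
  obtain ⟨k, hk, hk2⟩ := H {v : V // v ∈ C} (G.comap (fun v : {v : V // v ∈ C} => v.1)) Δ
    (by
      rw [hcard]
      omega)
    (by
      intro v
      rw [chg_dg]
      exact (chg_le G C v.1).trans (hΔ v.1))
    (by
      rw [hcard]
      exact hcC)
    (by
      rw [hcard]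
      omega)
    (chg_nc G Δ C c x γ hc hc1 hx hγ1 hγ2 hΔ hcn hC hX hD)
  obtain ⟨col⟩ := hk
  obtain ⟨m, γc, hG, hm⟩ := spc G C k (⌈2 / (η1 * c)⌉₊ + 2) (by omega)
    (fun v => if h : v ∈ C then ((col ⟨v, h⟩ : Fin k) : ℕ) else 0)
    (by
      intro v hv
      rw [dif_pos hv]
      exact (col ⟨v, hv⟩).2)
    (by
      intro a ha b hb hab
      rw [dif_pos ha, dif_pos hb]
      intro h
      exact col.valid (v := (⟨a, ha⟩ : {v : V // v ∈ C})) (w := ⟨b, hb⟩) hab (Fin.ext h))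
  refine ⟨m, γc, hG, ?_⟩
  have hm' : (m : ℝ) ≤ k + ((C.card / (⌈2 / (η1 * c)⌉₊ + 2) : ℕ) : ℝ) := by exact_mod_cast hm
  have hs : (2 : ℝ) / (η1 * c) ≤ ((⌈2 / (η1 * c)⌉₊ + 2 : ℕ) : ℝ) := by
    have e1 : (2 : ℝ) / (η1 * c) ≤ (⌈(2 : ℝ) / (η1 * c)⌉₊ : ℝ) := Nat.le_ceil _
    push_cast
    linarith
  have hec : 0 < η1 * c := mul_pos hη1 hc
  have hs0 : (0 : ℝ) < ((⌈2 / (η1 * c)⌉₊ + 2 : ℕ) : ℝ) := lt_of_lt_of_le (by positivity) hs
  have hdiv : ((C.card / (⌈2 / (η1 * c)⌉₊ + 2) : ℕ) : ℝ) ≤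
      (C.card : ℝ) / ((⌈2 / (η1 * c)⌉₊ + 2 : ℕ) : ℝ) := Nat.cast_div_le
  have hdiv2 : (C.card : ℝ) / ((⌈2 / (η1 * c)⌉₊ + 2 : ℕ) : ℝ) ≤ η1 / 2 * Δ := by
    rw [div_le_iff₀ hs0]
    have e1 : (2 : ℝ) ≤ ((⌈2 / (η1 * c)⌉₊ + 2 : ℕ) : ℝ) * (η1 * c) := (div_le_iff₀ hec).1 hs
    have hC0 : (0 : ℝ) ≤ C.card := Nat.cast_nonneg _
    obtain ⟨s, hs'⟩ : ∃ s : ℝ, s = ((⌈2 / (η1 * c)⌉₊ + 2 : ℕ) : ℝ) := ⟨_, rfl⟩
    rw [← hs'] at e1 hs0 ⊢
    have e2 : (C.card : ℝ) * 2 ≤ C.card * (s * (η1 * c)) := mul_le_mul_of_nonneg_left e1 hC0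
    have e3 : c * (C.card : ℝ) * (s * η1) ≤ Δ * (s * η1) :=
      mul_le_mul_of_nonneg_right hcC (mul_nonneg hs0.le hη1.le)
    nlinarith
  linarith

end Pool.Agent.H46.GA
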