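import Mathlib
import Pool.Agent.H71.DN.Defs

/-!
GRD: greedy choice of vertices for slots. The slots are the elements of `S`; the slot `s` has a label `lab s` and a set `Cd s` of candidates.

Proof.  Induction on the finite set `S` (`Finset.induction_on`; the hypotheses are inherited by subsets: `#{s' ∈ S' : lab s' = lab s} ≤ K0` and `#S' ≤ #S`; so prove the claim for all `S' ⊆ S` by induction). For a new slot `s ∉ S'` choose `v ∈ Cd s` different from the `#S'` vertices `ch s'`, `s' ∈ S'`, and not `F`-adjacent to the
vertices `ch s'`, `s' ∈ S'`, `lab s' = lab s` (at most `K0` of them, each with at most `d0` neighbours since `ch s' ∈ Cd s'`): `#S' + K0 d0 < #(Cd s)`. Put `ch' := Function.update ch s v`. Adjacency is symmetric, `F` has no loops.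
-/

set_option autoImplicit false

namespace Pool.Agent.H46.GA

open Finset Classical
open Pool.Agent.H71.DN

theorem grd {V : Type} [Fintype V] (F : SimpleGraph V) {σ : Type} (S : Finset σ) (lab : σ → ℕ)
    (Cd : σ → Finset V) (K0 d0 : ℕ)
    (hK : ∀ s ∈ S, (S.filter fun s' => lab s' = lab s).card ≤ K0)
    (hd : ∀ s ∈ S, ∀ v ∈ Cd s, dg F v ≤ d0)
    (hM : ∀ s ∈ S, S.card + K0 * d0 < (Cd s).card) (hV : Nonempty V) :
    ∃ ch : σ → V, (∀ s ∈ S, ch s ∈ Cd s) ∧ (∀ s ∈ S, ∀ s' ∈ S, ch s = ch s' → s = s') ∧
      ∀ s ∈ S, ∀ s' ∈ S, lab s = lab s' → ¬ F.Adj (ch s) (ch s') := by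
  classical
  -- prove the claim for all subsets
  have key : ∀ S' : Finset σ, S' ⊆ S → ∃ ch : σ → V, (∀ s ∈ S', ch s ∈ Cd s) ∧
      (∀ s ∈ S', ∀ s' ∈ S', ch s = ch s' → s = s') ∧
      ∀ s ∈ S', ∀ s' ∈ S', lab s = lab s' → ¬ F.Adj (ch s) (ch s') := by
    intro S'
    induction S' using Finset.induction_on with
    | empty =>
      intro _
      obtain ⟨v0⟩ := hV
      exact ⟨fun _ => v0, by simp, by simp, by simp⟩
    | insert s T hs ih =>
      intro hsub
      have hsS : s ∈ S := hsub (Finset.mem_insert_self _ _)
      have hTS : T ⊆ S := fun x hx => hsub (Finset.mem_insert_of_mem hx)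
      obtain ⟨ch, h1, h2, h3⟩ := ih hTS
      -- the forbidden vertices
      set B1 : Finset V := T.image ch with hB1
      set B2 : Finset V := (T.filter fun s' => lab s' = lab s).biUnion
        (fun s' => Finset.univ.filter fun w => F.Adj (ch s') w) with hB2
      have c1 : B1.card ≤ T.card := Finset.card_image_le
      have c2 : B2.card ≤ K0 * d0 := by
        refine le_trans (Finset.card_biUnion_le_card_mul _ _ d0 ?_) ?_
        · intro s' hs'
          have hs'T := (Finset.mem_filter.mp hs').1
          have := hd s' (hTS hs'T) (ch s') (h1 s' hs'T)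
          exact le_trans (le_of_eq (by simp only [dg])) this
        · refine Nat.mul_le_mul_right _ ?_
          refine le_trans (Finset.card_le_card ?_) (hK s hsS)
          exact Finset.filter_subset_filter _ hTS
      have c3 : T.card ≤ S.card := Finset.card_le_card hTS
      have c4 : ((B1 ∪ B2)).card < (Cd s).card := by
        refine lt_of_le_of_lt (Finset.card_union_le _ _) ?_
        have := hM s hsS
        omega
      obtain ⟨v, hv, hvn⟩ := Finset.exists_mem_notMem_of_card_lt_card c4
      have hv1 : ∀ s' ∈ T, ch s' ≠ v := by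
        intro s' hs' he
        apply hvn
        exact Finset.mem_union_left _ (Finset.mem_image.mpr ⟨s', hs', he⟩)
      have hv2 : ∀ s' ∈ T, lab s' = lab s → ¬ F.Adj (ch s') v := by
        intro s' hs' hl ha
        apply hvn
        exact Finset.mem_union_right _ (Finset.mem_biUnion.mpr
          ⟨s', Finset.mem_filter.mpr ⟨hs', hl⟩, Finset.mem_filter.mpr ⟨Finset.mem_univ _, ha⟩⟩)
      have hne : ∀ s' ∈ T, s' ≠ s := fun s' hs' he => hs (he ▸ hs')
      have u1 : Function.update ch s v s = v := Function.update_self _ _ _
      have u2 : ∀ s' ∈ T, Function.update ch s v s' = ch s' := fun s' hs' =>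
        Function.update_of_ne (hne s' hs') _ _
      refine ⟨Function.update ch s v, ?_, ?_, ?_⟩
      · intro a ha
        rcases Finset.mem_insert.mp ha with rfl | ha1
        · rw [u1]; exact hv
        · rw [u2 a ha1]; exact h1 a ha1
      · intro a ha b hb hab
        rcases Finset.mem_insert.mp ha with rfl | ha1
        · rcases Finset.mem_insert.mp hb with rfl | hb1
          · rfl
          · rw [u1, u2 b hb1] at hab
            exact absurd hab.symm (hv1 b hb1)
        · rcases Finset.mem_insert.mp hb with rfl | hb1
          · rw [u1, u2 a ha1] at hab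
            exact absurd hab (hv1 a ha1)
          · rw [u2 a ha1, u2 b hb1] at hab
            exact h2 a ha1 b hb1 hab
      · intro a ha b hb hab
        rcases Finset.mem_insert.mp ha with rfl | ha1
        · rcases Finset.mem_insert.mp hb with rfl | hb1
          · exact F.irrefl
          · rw [u1, u2 b hb1]
            intro hadj
            exact hv2 b hb1 hab.symm hadj.symm
        · rcases Finset.mem_insert.mp hb with rfl | hb1
          · rw [u1, u2 a ha1]
            exact hv2 a ha1 hab
          · rw [u2 a ha1, u2 b hb1]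
            exact h3 a ha1 b hb1 hab
  exact key S (Finset.Subset.refl S)

end Pool.Agent.H46.GA
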