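import Mathlib
import Pool.Agent.H71.DN.Defs

/-!
GRL: greedy labels for classes of vertices. The vertices of `W` are in parts `prt v`; in a part the classes are given by `γ`. All the vertices of a class get the same label, different classes of a part get different labels.

Proof.  For a finite set `T` of pairs `(p, j)` (`T ⊆ P0 :=` the image of `W` under `v ↦ (prt v, γ v)`) the claim `C T`: there is `μ : ℕ × ℕ → ℕ` such that `lam v := μ (prt v, γ v)` has the claimed properties for the vertices `v ∈ W` with `(prt v, γ v) ∈ T`. Induction on `T` (`Finset.induction_on`, for subsets of `P0`). For a new pair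
`(p, j)` the class `K = {v ∈ W : prt v = p, γ v = j}` is nonempty and has at most `s` elements (`hsz`). The new label must be in `Rs p` and it must avoid: the labels `μ (p, j')`, `(p, j') ∈ T` (these are at most `m - 1` labels, since `j' < m`, `j' ≠ j`, `j < m`), the sets `bad v`, `v ∈ K` (at most `s f` labels), and the labels of the `F`-neighbours in `W` of the
vertices of `K` (at most `s d` labels). As `m + s (d + f) ≤ #(Rs p)` there is a free label. (Edges of `F` between different classes: symmetric.)
-/

set_option autoImplicit false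

namespace Pool.Agent.H46.GA

open Finset Classical
open Pool.Agent.H71.DN

theorem grl {V : Type} [Fintype V] (F : SimpleGraph V) (W : Finset V) (prt γ : V → ℕ)
    (s d f : ℕ) (m : ℕ → ℕ) (Rs : ℕ → Finset ℕ) (bad : V → Finset ℕ)
    (hsz : ∀ a ∈ W, (W.filter fun b => prt b = prt a ∧ γ b = γ a).card ≤ s)
    (hm : ∀ a ∈ W, γ a < m (prt a)) (hd : ∀ v ∈ W, dg F v ≤ d)
    (hbad : ∀ v ∈ W, (bad v).card ≤ f)
    (hR : ∀ a ∈ W, m (prt a) + s * (d + f) ≤ (Rs (prt a)).card) :
    ∃ lam : V → ℕ, ∀ a ∈ W, lam a ∈ Rs (prt a) ∧ lam a ∉ bad a ∧
      (∀ b ∈ W, prt b = prt a → (lam a = lam b ↔ γ a = γ b)) ∧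
      ∀ b ∈ W, F.Adj a b → prt a ≠ prt b → lam a ≠ lam b := by
  set P0 : Finset (ℕ × ℕ) := W.image fun v => (prt v, γ v) with hP0
  have key : ∀ T : Finset (ℕ × ℕ), T ⊆ P0 → ∃ μ : ℕ × ℕ → ℕ, ∀ a ∈ W, (prt a, γ a) ∈ T →
      μ (prt a, γ a) ∈ Rs (prt a) ∧ μ (prt a, γ a) ∉ bad a ∧
      (∀ b ∈ W, (prt b, γ b) ∈ T → prt b = prt a →
        (μ (prt a, γ a) = μ (prt b, γ b) ↔ γ a = γ b)) ∧
      ∀ b ∈ W, (prt b, γ b) ∈ T → F.Adj a b → prt a ≠ prt b →
        μ (prt a, γ a) ≠ μ (prt b, γ b) := by
    intro T
    induction T using Finset.induction_on with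
    | empty =>
      intro _
      exact ⟨fun _ => 0, fun a _ h => absurd h (Finset.notMem_empty _)⟩
    | insert q T hq ih =>
      intro hT
      obtain ⟨μ, hμ⟩ := ih (fun x hx => hT (Finset.mem_insert_of_mem hx))
      obtain ⟨v0, hv0, hv0q⟩ := Finset.mem_image.1 (hT (Finset.mem_insert_self q T))
      obtain ⟨p, j⟩ := q
      have hp : prt v0 = p := congrArg Prod.fst hv0q
      have hj : γ v0 = j := congrArg Prod.snd hv0q
      set K : Finset V := W.filter fun b => prt b = prt v0 ∧ γ b = γ v0 with hK
      have hKs : K.card ≤ s := hsz v0 hv0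
      set A1 : Finset ℕ := (T.filter fun q => q.1 = p).image μ with hA1
      set A2 : Finset ℕ := K.biUnion bad with hA2
      set A3 : Finset ℕ := K.biUnion fun v => (W.filter (F.Adj v)).image
        fun b => μ (prt b, γ b) with hA3
      have hmj : j < m p := by
        have := hm v0 hv0
        rw [hp, hj] at this
        exact this
      have h1 : A1.card ≤ m p - 1 := by
        refine Finset.card_image_le.trans ?_
        have h2 : (T.filter fun q => q.1 = p).card ≤ ((Finset.range (m p)).erase j).card := by
          refine Finset.card_le_card_of_injOn Prod.snd ?_ ?_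
          · intro q hq'
            have hq2 := Finset.mem_filter.1 (Finset.mem_coe.1 hq')
            obtain ⟨v, hv, hvq⟩ := Finset.mem_image.1 (hT (Finset.mem_insert_of_mem hq2.1))
            rw [Finset.mem_coe, Finset.mem_erase, Finset.mem_range]
            constructor
            · intro h
              apply hq
              have h3 : q = (p, j) := Prod.ext hq2.2 h
              rw [← h3]
              exact hq2.1
            · have h4 := hm v hv
              have h5 : prt v = q.1 := congrArg Prod.fst hvq
              have h6 : γ v = q.2 := congrArg Prod.snd hvq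
              rw [h5, h6, hq2.2] at h4
              exact h4
          · intro q hq' r hr' h
            have hq2 := Finset.mem_filter.1 (Finset.mem_coe.1 hq')
            have hr2 := Finset.mem_filter.1 (Finset.mem_coe.1 hr')
            exact Prod.ext (hq2.2.trans hr2.2.symm) h
        rw [Finset.card_erase_of_mem (Finset.mem_range.2 hmj), Finset.card_range] at h2
        exact h2
      have hKW : ∀ v ∈ K, v ∈ W := fun v hv => (Finset.mem_filter.1 hv).1
      have h2 : A2.card ≤ s * f := by
        refine (Finset.card_biUnion_le_card_mul K bad f (fun v hv => hbad v (hKW v hv))).trans ?_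
        exact Nat.mul_le_mul_right f hKs
      have h3 : A3.card ≤ s * d := by
        refine (Finset.card_biUnion_le_card_mul K _ d (fun v hv => ?_)).trans
          (Nat.mul_le_mul_right d hKs)
        refine Finset.card_image_le.trans (le_trans ?_ (hd v (hKW v hv)))
        unfold dg
        exact Finset.card_le_card (fun b hb => by
          rw [Finset.mem_filter] at hb ⊢
          exact ⟨Finset.mem_univ b, hb.2⟩)
      have hex : ∃ c ∈ Rs p, c ∉ A1 ∪ A2 ∪ A3 := by
        by_contra hcon
        push Not at hcon
        have h4 : (Rs p).card ≤ (A1 ∪ A2 ∪ A3).card := Finset.card_le_card hcon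
        have h5 : (A1 ∪ A2 ∪ A3).card ≤ A1.card + A2.card + A3.card :=
          (Finset.card_union_le _ _).trans (Nat.add_le_add_right (Finset.card_union_le _ _) _)
        have h6 := hR v0 hv0
        rw [hp] at h6
        have h7 : s * (d + f) = s * d + s * f := Nat.mul_add s d f
        omega
      obtain ⟨c, hcR, hcA⟩ := hex
      rw [Finset.mem_union, Finset.mem_union, not_or, not_or] at hcA
      obtain ⟨⟨hc1, hc2⟩, hc3⟩ := hcA
      have hKm : ∀ a ∈ W, (prt a, γ a) = (p, j) → a ∈ K := by
        intro a ha h
        have h4 : prt a = p := congrArg Prod.fst h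
        have h5 : γ a = j := congrArg Prod.snd h
        rw [hK, Finset.mem_filter]
        exact ⟨ha, by rw [h4, hp], by rw [h5, hj]⟩
      have hnew : Function.update μ (p, j) c (p, j) = c := Function.update_self _ _ _
      have hold : ∀ q : ℕ × ℕ, q ≠ (p, j) → Function.update μ (p, j) c q = μ q :=
        fun q h => Function.update_of_ne h _ _
      have hins : ∀ a : V, (prt a, γ a) ∈ insert (p, j) T → (prt a, γ a) ≠ (p, j) →
          (prt a, γ a) ∈ T := fun a h h' => (Finset.mem_insert.1 h).resolve_left h'
      have hcT : ∀ b ∈ W, (prt b, γ b) ∈ T → prt b = p → c ≠ μ (prt b, γ b) := by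
        intro b _ hbT hbp h
        apply hc1
        rw [hA1, Finset.mem_image]
        exact ⟨(prt b, γ b), Finset.mem_filter.2 ⟨hbT, hbp⟩, h.symm⟩
      have hcF : ∀ a ∈ K, ∀ b ∈ W, F.Adj a b → c ≠ μ (prt b, γ b) := by
        intro a ha b hb hab h
        apply hc3
        rw [hA3, Finset.mem_biUnion]
        exact ⟨a, ha, Finset.mem_image.2 ⟨b, Finset.mem_filter.2 ⟨hb, hab⟩, h.symm⟩⟩
      refine ⟨Function.update μ (p, j) c, fun a ha haT => ?_⟩
      by_cases ha1 : (prt a, γ a) = (p, j)
      · have haK := hKm a ha ha1
        have hpa : prt a = p := congrArg Prod.fst ha1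
        have hja : γ a = j := congrArg Prod.snd ha1
        rw [ha1, hnew]
        refine ⟨by rw [hpa]; exact hcR, ?_, ?_, ?_⟩
        · intro h
          apply hc2
          rw [hA2, Finset.mem_biUnion]
          exact ⟨a, haK, h⟩
        · intro b hb hbT hba
          by_cases hb1 : (prt b, γ b) = (p, j)
          · rw [hb1, hnew]
            have h4 : γ b = j := congrArg Prod.snd hb1
            exact ⟨fun _ => by rw [hja, h4], fun _ => rfl⟩
          · rw [hold _ hb1]
            constructor
            · intro h
              exact absurd h (hcT b hb (hins b hbT hb1) (by rw [hba, hpa]))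
            · intro h
              exact absurd (Prod.ext (hba.trans hpa) (h.symm.trans hja)) hb1
        · intro b hb hbT hab hne
          have hb1 : (prt b, γ b) ≠ (p, j) := by
            intro h
            exact hne (hpa.trans (congrArg Prod.fst h).symm)
          rw [hold _ hb1]
          exact hcF a haK b hb hab
      · have haT' := hins a haT ha1
        obtain ⟨g1, g2, g3, g4⟩ := hμ a ha haT'
        rw [hold _ ha1]
        refine ⟨g1, g2, ?_, ?_⟩
        · intro b hb hbT hba
          by_cases hb1 : (prt b, γ b) = (p, j)
          · rw [hb1, hnew]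
            have h4 : γ b = j := congrArg Prod.snd hb1
            have h5 : prt b = p := congrArg Prod.fst hb1
            constructor
            · intro h
              exact absurd h.symm (hcT a ha haT' (by rw [← hba, h5]))
            · intro h
              exact absurd (Prod.ext (hba.symm.trans h5) (h.trans h4)) ha1
          · rw [hold _ hb1]
            exact g3 b hb (hins b hbT hb1) hba
        · intro b hb hbT hab hne
          by_cases hb1 : (prt b, γ b) = (p, j)
          · rw [hb1, hnew]
            exact (hcF b (hKm b hb hb1) a ha hab.symm).symm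
          · rw [hold _ hb1]
            exact g4 b hb (hins b hbT hb1) hab hne
  obtain ⟨μ, hμ⟩ := key P0 (Finset.Subset.refl _)
  have hin : ∀ a ∈ W, (prt a, γ a) ∈ P0 := fun a ha => Finset.mem_image.2 ⟨a, ha, rfl⟩
  refine ⟨fun v => μ (prt v, γ v), fun a ha => ?_⟩
  obtain ⟨g1, g2, g3, g4⟩ := hμ a ha (hin a ha)
  exact ⟨g1, g2, fun b hb => g3 b hb (hin b hb), fun b hb => g4 b hb (hin b hb)⟩

end Pool.Agent.H46.GA
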