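import Mathlib
import Pool.Agent.H46.GA.Defs

/-!
MXP: disjoint non-adjacent pairs in a set `C`. `nb G C v := {u ∈ C : u ≠ v ∧ ¬ G.Adj v u}` below.

`mxp`, proof.  Among all involutions `π` with `∀ v, π v ≠ v → v ∈ C ∧ π v ∈ C ∧ ¬ G.Adj v (π v)` (the identity is one) take one with the largest number of moved points. If `a, b ∈ C`, `a ≠ b`, are fixed and not adjacent, then `π'` with `π' a = b`, `π' b = a`, `π' = π` otherwise moves more points, a contradiction.

`prs`, proof.  Let `π` be as in `mxp`, `M` the set of moved points (`#M` is even), `U := C \ M`. If `2 p ≤ #M`, choose `p` of the pairs `{v, π v}`; `W` := their union, `γ` := a numbering `0, ..., p - 1` of the pairs. Suppose `#M < 2 p`. Every `v ∈ U` has its at least `p` elements of `nb v` in `M` (two elements of `U` are adjacent). So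
`#U * p ≤ ∑_{v ∈ M} #(nb v) ≤ #M (p + d)` (double counting of the pairs `(v, w) ∈ U × M`, not adjacent), hence `(#C - 2 p) p ≤ 2 p (p + d)`, `#C ≤ 4 p + 2 d`, against `hC`. (`p = 0`: `W = ∅`.)

`prm`, proof.  With the same `π, M, U`: `#U * p ≤ ∑_{v ∈ M} #(nb v) ≤ #M (p + e) + e (p + d)`. If `20 #M < 9 #C` then `20 #U > 11 #C` and `11 #C p < 9 #C (p + e) + 20 e (p + d) ≤ 9 #C (p + e) + 20 e #C`, so `2 p < 29 e`, against `15 e ≤ p`, `0 < p`. So `20 #M ≥ 9 #C`. The classes are the pairs `{v, π v}` and the single points of `U`: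
`m = #C - #M / 2`, `40 m = 40 #C - 20 #M ≤ 31 #C`; `γ` := a numbering of the classes.
-/

/-!
MXP: disjoint non-adjacent pairs in a set `C`.
-/

set_option autoImplicit false

namespace Pool.Agent.H46.GA

open Finset Classical
open Pool.Agent.H71.DN Pool.Agent.H71.DX Pool.Agent.H71.DR Pool.Agent.H71.HL Pool.Agent.H71.DC
open Pool.Agent.H71.TD

theorem mxp {V : Type} [Fintype V] (G : SimpleGraph V) (C : Finset V) :
    ∃ π : V → V, Inv π ∧ (∀ v, π v ≠ v → v ∈ C ∧ π v ∈ C ∧ ¬ G.Adj v (π v)) ∧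
      ∀ a ∈ C, ∀ b ∈ C, a ≠ b → π a = a → π b = b → G.Adj a b := by
  obtain ⟨S, hS⟩ : ∃ S : Finset (V → V), S = univ.filter fun π : V → V =>
      Inv π ∧ ∀ v, π v ≠ v → v ∈ C ∧ π v ∈ C ∧ ¬ G.Adj v (π v) := ⟨_, rfl⟩
  have hne : S.Nonempty := by
    refine ⟨fun v => v, ?_⟩
    rw [hS, mem_filter]
    exact ⟨mem_univ _, fun v => rfl, fun v h => absurd rfl h⟩
  obtain ⟨π, hπ, hmax⟩ := Finset.exists_max_image S
    (fun π => (univ.filter fun v => π v ≠ v).card) hne
  rw [hS, mem_filter] at hπ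
  obtain ⟨-, hinv, hpr⟩ := hπ
  refine ⟨π, hinv, hpr, ?_⟩
  intro a ha b hb hab hfa hfb
  by_contra hadj
  obtain ⟨π', hπ'⟩ : ∃ π' : V → V, ∀ v, π' v = if v = a then b else if v = b then a else π v :=
    ⟨_, fun _ => rfl⟩
  have pa : π' a = b := by rw [hπ', if_pos rfl]
  have pb : π' b = a := by rw [hπ', if_neg (Ne.symm hab), if_pos rfl]
  have po : ∀ v, v ≠ a → v ≠ b → π' v = π v := by
    intro v h1 h2
    rw [hπ', if_neg h1, if_neg h2]
  have hmem : π' ∈ S := by
    rw [hS, mem_filter]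
    refine ⟨mem_univ _, ?_, ?_⟩
    · intro v
      by_cases h1 : v = a
      · rw [h1, pa, pb]
      · by_cases h2 : v = b
        · rw [h2, pb, pa]
        · have h3 : π v ≠ a := by
            intro h
            apply h1
            have := hinv v
            rw [h, hfa] at this
            exact this.symm
          have h4 : π v ≠ b := by
            intro h
            apply h2
            have := hinv v
            rw [h, hfb] at this
            exact this.symm
          rw [po v h1 h2, po _ h3 h4, hinv]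
    · intro v hv
      by_cases h1 : v = a
      · rw [h1, pa]
        exact ⟨ha, hb, hadj⟩
      · by_cases h2 : v = b
        · rw [h2, pb]
          exact ⟨hb, ha, fun h => hadj h.symm⟩
        · rw [po v h1 h2] at hv ⊢
          exact hpr v hv
  have h1 := hmax π' hmem
  have h2 : (univ.filter fun v => π v ≠ v).card < (univ.filter fun v => π' v ≠ v).card := by
    refine Finset.card_lt_card ?_
    rw [Finset.ssubset_iff_of_subset]
    · refine ⟨a, ?_, ?_⟩
      · rw [mem_filter, pa]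
        exact ⟨mem_univ _, Ne.symm hab⟩
      · rw [mem_filter]
        exact fun h => h.2 hfa
    · intro v hv
      rw [mem_filter] at hv ⊢
      refine ⟨mem_univ _, ?_⟩
      have h3 : v ≠ a := fun h => hv.2 (by rw [h, hfa])
      have h4 : v ≠ b := fun h => hv.2 (by rw [h, hfb])
      rw [po v h3 h4]
      exact hv.2
  exact absurd h1 (not_le.2 h2)

/-- Numbering the classes `{v, π v}`, `v ∈ R`. -/
private theorem mxp_num {V : Type} [Fintype V] (G : SimpleGraph V) (C R : Finset V) (π : V → V)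
    (hinv : Inv π) (hpr : ∀ v, π v ≠ v → v ∈ C ∧ π v ∈ C ∧ ¬ G.Adj v (π v))
    (hR : ∀ v ∈ R, π v ∈ R → π v = v) :
    ∃ γ : V → ℕ, Grp G (R ∪ R.image π) R.card 2 γ ∧
      ∀ j < R.card, ∃ v ∈ R, ((R ∪ R.image π).filter fun u => γ u = j) = {v, π v} := by
  obtain ⟨num, hnum⟩ : ∃ num : V → ℕ, ∀ (v : V) (h : v ∈ R), num v = (R.equivFin ⟨v, h⟩).1 := by
    refine ⟨fun v => if h : v ∈ R then (R.equivFin ⟨v, h⟩).1 else 0, fun v h => ?_⟩
    exact dif_pos h
  have hlt : ∀ v ∈ R, num v < R.card := by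
    intro v hv
    rw [hnum v hv]
    exact (R.equivFin ⟨v, hv⟩).2
  have hinj : ∀ v ∈ R, ∀ w ∈ R, num v = num w → v = w := by
    intro v hv w hw h
    rw [hnum v hv, hnum w hw] at h
    have h1 := R.equivFin.injective (Fin.ext h)
    exact congrArg Subtype.val h1
  have hsur : ∀ j < R.card, ∃ v ∈ R, num v = j := by
    intro j hj
    refine ⟨(R.equivFin.symm ⟨j, hj⟩).1, (R.equivFin.symm ⟨j, hj⟩).2, ?_⟩
    rw [hnum _ (R.equivFin.symm ⟨j, hj⟩).2]
    have h1 : R.equivFin ⟨(R.equivFin.symm ⟨j, hj⟩).1, (R.equivFin.symm ⟨j, hj⟩).2⟩ = ⟨j, hj⟩ :=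
      R.equivFin.apply_symm_apply ⟨j, hj⟩
    rw [h1]
  obtain ⟨rep, hrep⟩ : ∃ rep : V → V, ∀ v, rep v = if v ∈ R then v else π v := ⟨_, fun _ => rfl⟩
  have r1 : ∀ v ∈ R, rep v = v := fun v hv => by rw [hrep, if_pos hv]
  have r2 : ∀ v ∈ R, rep (π v) = v := by
    intro v hv
    by_cases h : π v ∈ R
    · rw [hR v hv h, r1 v hv]
    · rw [hrep, if_neg h, hinv]
  have hWm : ∀ v, v ∈ R ∪ R.image π → ∃ w ∈ R, rep v = w ∧ (v = w ∨ v = π w) := by
    intro v hv
    rw [mem_union, mem_image] at hv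
    rcases hv with hv | ⟨w, hw, rfl⟩
    · exact ⟨v, hv, r1 v hv, Or.inl rfl⟩
    · exact ⟨w, hw, r2 w hw, Or.inr rfl⟩
  have hfil : ∀ v ∈ R, ((R ∪ R.image π).filter fun u => num (rep u) = num v) = {v, π v} := by
    intro v hv
    ext u
    rw [mem_filter, mem_insert, mem_singleton]
    constructor
    · rintro ⟨h1, h2⟩
      obtain ⟨w, hw, h3, h4⟩ := hWm u h1
      rw [h3] at h2
      have h5 := hinj w hw v hv h2
      rw [h5] at h4
      exact h4
    · rintro (h | h)
      · rw [h]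
        exact ⟨mem_union_left _ hv, by rw [r1 v hv]⟩
      · rw [h]
        exact ⟨mem_union_right _ (mem_image_of_mem _ hv), by rw [r2 v hv]⟩
  refine ⟨fun v => num (rep v), ⟨?_, ?_, ?_⟩, ?_⟩
  · intro v hv
    obtain ⟨w, hw, h3, -⟩ := hWm v hv
    show num (rep v) < R.card
    rw [h3]
    exact hlt w hw
  · intro a ha b hb hadj h
    obtain ⟨w, hw, h3, h4⟩ := hWm a ha
    obtain ⟨z, hz, h5, h6⟩ := hWm b hb
    have h7 : num w = num z := by
      rw [← h3, ← h5]
      exact h
    have h8 := hinj w hw z hz h7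
    rw [← h8] at h6
    have h9 : ∀ x, G.Adj x (π x) → False := by
      intro x hx
      exact (hpr x (fun h => G.irrefl (by rw [h] at hx; exact hx))).2.2 hx
    rcases h4 with h4 | h4 <;> rcases h6 with h6 | h6
    · rw [h4, h6] at hadj
      exact G.irrefl hadj
    · rw [h4, h6] at hadj
      exact h9 _ hadj
    · rw [h4, h6] at hadj
      exact h9 _ hadj.symm
    · rw [h4, h6] at hadj
      exact G.irrefl hadj
  · intro j
    by_cases hj : ∃ v ∈ R, num v = j
    · obtain ⟨v, hv, rfl⟩ := hj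
      rw [hfil v hv]
      exact Finset.card_le_two
    · rw [Finset.card_eq_zero.2]
      · exact Nat.zero_le 2
      · rw [Finset.filter_eq_empty_iff]
        intro u hu h
        obtain ⟨w, hw, h3, -⟩ := hWm u hu
        apply hj
        refine ⟨w, hw, ?_⟩
        rw [← h3]
        exact h
  · intro j hj
    obtain ⟨v, hv, h1⟩ := hsur j hj
    refine ⟨v, hv, ?_⟩
    rw [← h1]
    exact hfil v hv

/-- Representatives of the classes `{v, π v}` in `C`: `R` with twice as many elements as `#C + #U`. -/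
private theorem mxp_rep {V : Type} [Fintype V] (C : Finset V) (π : V → V)
    (hinv : Inv π) (hC : ∀ v ∈ C, π v ∈ C) :
    ∃ R : Finset V, R ⊆ C ∧ (∀ v ∈ R, π v ∈ R → π v = v) ∧ R ∪ R.image π = C ∧
      (∀ v ∈ C, π v = v → v ∈ R) ∧
      2 * R.card = C.card + (C.filter fun v => π v = v).card := by
  obtain ⟨f, hf⟩ : ∃ f : V → ℕ, Function.Injective f :=
    ⟨fun v => (Fintype.equivFin V v).1, fun a b h => (Fintype.equivFin V).injective (Fin.ext h)⟩
  refine ⟨C.filter fun v => f v ≤ f (π v), filter_subset _ _, ?_, ?_, ?_, ?_⟩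
  · intro v hv h
    rw [mem_filter] at hv h
    have h1 := h.2
    rw [hinv] at h1
    exact hf (le_antisymm h1 hv.2)
  · ext v
    rw [mem_union, mem_image, mem_filter]
    constructor
    · rintro (h | ⟨w, hw, rfl⟩)
      · exact h.1
      · rw [mem_filter] at hw
        exact hC w hw.1
    · intro h
      rcases le_total (f v) (f (π v)) with h1 | h1
      · exact Or.inl ⟨h, h1⟩
      · refine Or.inr ⟨π v, ?_, hinv v⟩
        rw [mem_filter, hinv]
        exact ⟨hC v h, h1⟩
  · intro v hv h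
    rw [mem_filter, h]
    exact ⟨hv, le_refl _⟩
  · have h1 : (C.filter fun v => f v ≤ f (π v)).card = (C.filter fun v => f (π v) ≤ f v).card := by
      refine Finset.card_bij (fun v _ => π v) ?_ ?_ ?_
      · intro v hv
        rw [mem_filter] at hv ⊢
        rw [hinv]
        exact ⟨hC v hv.1, hv.2⟩
      · intro a _ b _ h
        have h2 := congrArg π h
        rw [hinv, hinv] at h2
        exact h2
      · intro b hb
        rw [mem_filter] at hb
        refine ⟨π b, ?_, hinv b⟩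
        rw [mem_filter, hinv]
        exact ⟨hC b hb.1, hb.2⟩
    have h2 := Finset.card_union_add_card_inter (C.filter fun v => f v ≤ f (π v))
      (C.filter fun v => f (π v) ≤ f v)
    have h3 : (C.filter fun v => f v ≤ f (π v)) ∪ (C.filter fun v => f (π v) ≤ f v) = C := by
      ext v
      rw [mem_union, mem_filter, mem_filter]
      constructor
      · rintro (h | h)
        · exact h.1
        · exact h.1
      · intro h
        rcases le_total (f v) (f (π v)) with h4 | h4
        · exact Or.inl ⟨h, h4⟩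
        · exact Or.inr ⟨h, h4⟩
    have h4 : (C.filter fun v => f v ≤ f (π v)) ∩ (C.filter fun v => f (π v) ≤ f v) =
        C.filter fun v => π v = v := by
      ext v
      rw [mem_inter, mem_filter, mem_filter, mem_filter]
      constructor
      · rintro ⟨h5, h6⟩
        exact ⟨h5.1, (hf (le_antisymm h5.2 h6.2)).symm⟩
      · rintro ⟨h5, h6⟩
        rw [h6]
        exact ⟨⟨h5, le_refl _⟩, ⟨h5, le_refl _⟩⟩
    rw [h3, h4] at h2
    omega

private theorem mxp_dc {V : Type} [Fintype V] (G : SimpleGraph V) (C : Finset V) (π : V → V)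
    (hmx : ∀ a ∈ C, ∀ b ∈ C, a ≠ b → π a = a → π b = b → G.Adj a b) (p : ℕ)
    (h1 : ∀ v ∈ C, p ≤ (C.filter fun u => u ≠ v ∧ ¬ G.Adj v u).card) :
    (C.filter fun v => π v = v).card * p ≤
      ∑ w ∈ C.filter (fun v => π v ≠ v), (C.filter fun u => u ≠ w ∧ ¬ G.Adj w u).card := by
  have h2 : ∀ v ∈ C.filter (fun v => π v = v), p ≤
      ((C.filter fun v => π v ≠ v).filter fun u => u ≠ v ∧ ¬ G.Adj v u).card := by
    intro v hv
    rw [mem_filter] at hv
    refine le_trans (h1 v hv.1) (Finset.card_le_card ?_)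
    intro u hu
    rw [mem_filter] at hu
    rw [mem_filter, mem_filter]
    refine ⟨⟨hu.1, ?_⟩, hu.2⟩
    intro h
    exact hu.2.2 (hmx v hv.1 u hu.1 (Ne.symm hu.2.1) hv.2 h)
  calc (C.filter fun v => π v = v).card * p
      = ∑ _v ∈ C.filter (fun v => π v = v), p := by rw [Finset.sum_const, smul_eq_mul]
    _ ≤ ∑ v ∈ C.filter (fun v => π v = v),
        ((C.filter fun v => π v ≠ v).filter fun u => u ≠ v ∧ ¬ G.Adj v u).card :=
        Finset.sum_le_sum h2
    _ = ∑ v ∈ C.filter (fun v => π v = v), ∑ u ∈ C.filter (fun v => π v ≠ v),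
        (if u ≠ v ∧ ¬ G.Adj v u then 1 else 0) := by
        refine Finset.sum_congr rfl fun v _ => ?_
        rw [Finset.card_filter]
    _ = ∑ u ∈ C.filter (fun v => π v ≠ v), ∑ v ∈ C.filter (fun v => π v = v),
        (if u ≠ v ∧ ¬ G.Adj v u then 1 else 0) := Finset.sum_comm
    _ ≤ _ := by
        refine Finset.sum_le_sum fun w _ => ?_
        rw [← Finset.card_filter]
        refine Finset.card_le_card ?_
        intro v hv
        rw [mem_filter, mem_filter] at hv
        rw [mem_filter]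
        exact ⟨hv.1.1, Ne.symm hv.2.1, fun h => hv.2.2 h.symm⟩

private theorem mxp_cc {V : Type} [Fintype V] (C : Finset V) (π : V → V) :
    (C.filter fun v => π v = v).card + (C.filter fun v => π v ≠ v).card = C.card :=
  Finset.card_filter_add_card_filter_not (s := C) (fun v => π v = v)

theorem prs {V : Type} [Fintype V] (G : SimpleGraph V) (C : Finset V) (p d : ℕ)
    (h1 : ∀ v ∈ C, p ≤ (C.filter fun u => u ≠ v ∧ ¬ G.Adj v u).card)
    (h2 : ∀ v ∈ C, (C.filter fun u => u ≠ v ∧ ¬ G.Adj v u).card ≤ p + d)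
    (hC : 4 * p + 2 * d < C.card) :
    ∃ (W : Finset V) (γ : V → ℕ), W ⊆ C ∧ Grp G W p 2 γ ∧
      ∀ j < p, (W.filter fun v => γ v = j).card = 2 := by
  obtain ⟨π, hinv, hpr, hmx⟩ := mxp G C
  have hCC : ∀ v ∈ C, π v ∈ C := by
    intro v hv
    by_cases h : π v = v
    · rw [h]
      exact hv
    · exact (hpr v h).2.1
  obtain ⟨R, hRC, hR1, hR2, hR3, hR4⟩ := mxp_rep C π hinv hCC
  have hcc := mxp_cc C π
  have hdc := mxp_dc G C π hmx p h1
  have hM : 2 * p ≤ (C.filter fun v => π v ≠ v).card := by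
    by_contra hcon
    have hcon' : (C.filter fun v => π v ≠ v).card < 2 * p := not_le.1 hcon
    have h3 : ∑ w ∈ C.filter (fun v => π v ≠ v), (C.filter fun u => u ≠ w ∧ ¬ G.Adj w u).card ≤
        (C.filter fun v => π v ≠ v).card * (p + d) := by
      rw [← smul_eq_mul, ← Finset.sum_const]
      refine Finset.sum_le_sum fun w hw => ?_
      exact h2 w (mem_filter.1 hw).1
    obtain ⟨m, hm⟩ : ∃ m, m = (C.filter fun v => π v ≠ v).card := ⟨_, rfl⟩
    obtain ⟨u, hu⟩ : ∃ u, u = (C.filter fun v => π v = v).card := ⟨_, rfl⟩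
    rw [← hm] at hcon' h3 hcc
    rw [← hu] at hcc hdc
    have h4 : u * p ≤ m * (p + d) := le_trans hdc h3
    have hp : 0 < p := by omega
    have h5 : (4 * p + 2 * d) * p < C.card * p := Nat.mul_lt_mul_of_pos_right hC hp
    have h5' : C.card * p = u * p + m * p := by rw [← hcc, add_mul]
    rw [h5'] at h5
    have h6 : m * (p + d) + m * p = m * (2 * p + d) := by ring
    have h7 : m * (2 * p + d) ≤ 2 * p * (2 * p + d) := Nat.mul_le_mul_right _ hcon'.le
    have h8 : 2 * p * (2 * p + d) = (4 * p + 2 * d) * p := by ring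
    omega
  -- the representatives of the pairs
  have hRm : p ≤ (R.filter fun v => π v ≠ v).card := by
    have h3 := mxp_cc R π
    have h4 : (R.filter fun v => π v = v) = C.filter fun v => π v = v := by
      ext v
      rw [mem_filter, mem_filter]
      exact ⟨fun h => ⟨hRC h.1, h.2⟩, fun h => ⟨hR3 v h.1 h.2, h.2⟩⟩
    rw [h4] at h3
    omega
  obtain ⟨R0, hR0, hR0c⟩ := Finset.exists_subset_card_eq hRm
  have hR0' : ∀ v ∈ R0, v ∈ R ∧ π v ≠ v := by
    intro v hv
    have h := hR0 hv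
    rw [mem_filter] at h
    exact h
  obtain ⟨γ, hγ, hj⟩ := mxp_num G C R0 π hinv hpr
    (fun v hv h => absurd (hR1 v (hR0' v hv).1 (hR0' _ h).1) (hR0' v hv).2)
  rw [hR0c] at hγ hj
  refine ⟨R0 ∪ R0.image π, γ, ?_, hγ, ?_⟩
  · intro v hv
    rw [mem_union, mem_image] at hv
    rcases hv with hv | ⟨w, hw, rfl⟩
    · exact hRC (hR0' v hv).1
    · exact hCC w (hRC (hR0' w hw).1)
  · intro j hjp
    obtain ⟨v, hv, h⟩ := hj j hjp
    rw [h]
    exact Finset.card_pair (Ne.symm (hR0' v hv).2)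

theorem prm {V : Type} [Fintype V] (G : SimpleGraph V) (C : Finset V) (p d e : ℕ)
    (h1 : ∀ v ∈ C, p ≤ (C.filter fun u => u ≠ v ∧ ¬ G.Adj v u).card)
    (h2 : ∀ v ∈ C, (C.filter fun u => u ≠ v ∧ ¬ G.Adj v u).card ≤ p + d)
    (h3 : (C.filter fun v => p + e < (C.filter fun u => u ≠ v ∧ ¬ G.Adj v u).card).card ≤ e)
    (hp : 0 < p) (he : 15 * e ≤ p) (hd : p + d ≤ C.card) :
    ∃ (m : ℕ) (γ : V → ℕ), Grp G C m 2 γ ∧ 40 * m ≤ 31 * C.card := by
  obtain ⟨π, hinv, hpr, hmx⟩ := mxp G C
  have hCC : ∀ v ∈ C, π v ∈ C := by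
    intro v hv
    by_cases h : π v = v
    · rw [h]
      exact hv
    · exact (hpr v h).2.1
  obtain ⟨R, hRC, hR1, hR2, hR3, hR4⟩ := mxp_rep C π hinv hCC
  obtain ⟨γ, hγ, -⟩ := mxp_num G C R π hinv hpr hR1
  rw [hR2] at hγ
  refine ⟨R.card, γ, hγ, ?_⟩
  have hcc := mxp_cc C π
  have hdc := mxp_dc G C π hmx p h1
  have h4 : ∑ w ∈ C.filter (fun v => π v ≠ v), (C.filter fun u => u ≠ w ∧ ¬ G.Adj w u).card ≤
      (C.filter fun v => π v ≠ v).card * (p + e) + e * (p + d) := by
    have h5 : ∀ w ∈ C.filter (fun v => π v ≠ v),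
        (C.filter fun u => u ≠ w ∧ ¬ G.Adj w u).card ≤
          (p + e) + (if p + e < (C.filter fun u => u ≠ w ∧ ¬ G.Adj w u).card then p + d else 0) := by
      intro w hw
      have h6 := h2 w (mem_filter.1 hw).1
      split_ifs with h7
      · omega
      · omega
    refine le_trans (Finset.sum_le_sum h5) ?_
    rw [Finset.sum_add_distrib, Finset.sum_const, smul_eq_mul, ← Finset.sum_filter,
      Finset.sum_const, smul_eq_mul]
    refine Nat.add_le_add_left (Nat.mul_le_mul_right _ (le_trans (Finset.card_le_card ?_) h3)) _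
    intro w hw
    rw [mem_filter, mem_filter] at hw
    rw [mem_filter]
    exact ⟨hw.1.1, hw.2⟩
  obtain ⟨m, hm⟩ : ∃ m, m = (C.filter fun v => π v ≠ v).card := ⟨_, rfl⟩
  obtain ⟨u, hu⟩ : ∃ u, u = (C.filter fun v => π v = v).card := ⟨_, rfl⟩
  rw [← hm] at h4 hcc
  rw [← hu] at hcc hdc hR4
  have h5 : 9 * C.card ≤ 20 * m := by
    by_contra hcon
    have hcon' : 20 * m < 9 * C.card := not_le.1 hcon
    obtain ⟨n, hn⟩ : ∃ n, n = C.card := ⟨_, rfl⟩
    rw [← hn] at hcc hd hcon'
    have h6 : u * p ≤ m * (p + e) + e * (p + d) := le_trans hdc h4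
    have h7 : 11 * n < 20 * u := by omega
    have h8 : 11 * n * p < 20 * u * p := Nat.mul_lt_mul_of_pos_right h7 hp
    have h9 : 20 * m * (p + e) ≤ 9 * n * (p + e) := Nat.mul_le_mul_right _ hcon'.le
    have h10 : e * (p + d) ≤ e * n := Nat.mul_le_mul_left _ hd
    have h11 : n * (15 * e) ≤ n * p := Nat.mul_le_mul_left _ he
    nlinarith
  omega

end Pool.Agent.H46.GA
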