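import Mathlib
import Pool.Agent.H46.GA.Defs

/-!
FDG: the degrees of the defect edges `F := Fg G k ty nd`. Here `G` is `Δ`-regular.

Proof.  The neighbours of `v` in `G` are split into the `Hg`-neighbours and the `Fg`-neighbours.
 `fdE`: for `v ∈ pt nd (2 i)`, `ty i`: the `Hg`-neighbours of `v` are the neighbours `u` of `v` with `nd u / 2 = i`, `nd u < 2 k`, i.e. (since `pt nd (2 i + 1) = ∅`) those in `pt nd (2 i)`.
 `fdA`, `fdB`: for `¬ ty i` the `Hg`-neighbours of `v ∈ pt nd (2 i)` are the neighbours in `pt nd (2 i + 1)` (`nd u / 2 = i`, `nd u ≠ 2 i`), and conversely.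
 `fdL`: a vertex `w` of the exceptional piece `2 k` has no `Hg`-neighbours.
 `fcn`: `ℓ ↦ φ ℓ v` is a bijection from `{ℓ < Δ + 2 : φ ℓ v ≠ v}` to the `F`-neighbours of `v` (`adj`, `dis`, `cov`; if `φ ℓ a = b` with `a ≠ b` then `φ ℓ a ≠ a`). Compare `f1_Fdeg` in `Pool/Agent/H71/TD/Fin1.lean`.
 `fcl`: `∑_{ℓ < Δ + 2} cv nd (φ ℓ) j = ∑_{v ∈ pt nd j} #{ℓ < Δ + 2 : φ ℓ v ≠ v}` (double counting, `Finset.sum_comm`).
-/

set_option autoImplicit false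

namespace Pool.Agent.H46.GA

open Finset Classical
open Pool.Agent.H71.DN Pool.Agent.H71.DX Pool.Agent.H71.DR Pool.Agent.H71.HL Pool.Agent.H71.DC
open Pool.Agent.H71.TD

private theorem fd_gen {V : Type} [Fintype V] (G : SimpleGraph V) (k : ℕ) (ty : ℕ → Prop)
    (nd : V → ℕ) (v : V) (S : Finset V)
    (h : ∀ u, (Hg G k ty nd).Adj v u ↔ (u ∈ S ∧ G.Adj v u)) :
    dg (Fg G k ty nd) v + dgi G S v = dg G v := by
  unfold dg dgi
  rw [← Finset.card_union_of_disjoint]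
  · apply congrArg Finset.card
    ext u
    rw [mem_union, mem_filter, mem_filter, mem_filter]
    constructor
    · rintro (h1 | h1)
      · exact ⟨mem_univ _, h1.2.1⟩
      · exact ⟨mem_univ _, h1.2⟩
    · rintro ⟨_, h1⟩
      by_cases h2 : u ∈ S
      · exact Or.inr ⟨h2, h1⟩
      · exact Or.inl ⟨mem_univ _, h1, fun h3 => h2 ((h u).mp h3).1⟩
  · rw [Finset.disjoint_left]
    intro u h1 h2
    rw [mem_filter] at h1 h2
    exact h1.2.2 ((h u).mpr h2)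

private theorem fd_mem {V : Type} [Fintype V] (nd : V → ℕ) (j : ℕ) (v : V) :
    v ∈ pt nd j ↔ nd v = j := by
  unfold pt
  rw [mem_filter]
  exact ⟨fun h => h.2, fun h => ⟨mem_univ _, h⟩⟩

theorem fdE {V : Type} [Fintype V] (G : SimpleGraph V) (Δ k : ℕ) (ty : ℕ → Prop) (nd : V → ℕ)
    (hreg : ∀ v, dg G v = Δ) (i : ℕ) (hi : i < k) (ht : ty i) (ho : pt nd (2 * i + 1) = ∅) :
    ∀ v ∈ pt nd (2 * i), dg (Fg G k ty nd) v + dgi G (pt nd (2 * i)) v = Δ := by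
  intro v hv
  rw [fd_mem] at hv
  rw [← hreg v]
  apply fd_gen
  intro u
  rw [fd_mem]
  change (G.Adj v u ∧ nd v < 2 * k ∧ nd u < 2 * k ∧ nd v / 2 = nd u / 2 ∧
    (ty (nd v / 2) ∨ nd v ≠ nd u)) ↔ _
  have h1 : nd u ≠ 2 * i + 1 := by
    intro h
    have h2 : u ∈ pt nd (2 * i + 1) := (fd_mem nd _ u).mpr h
    rw [ho] at h2
    exact notMem_empty u h2
  have h3 : nd v / 2 = i := by omega
  constructor
  · rintro ⟨h4, _, _, h5, _⟩
    exact ⟨by omega, h4⟩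
  · rintro ⟨h4, h5⟩
    refine ⟨h5, by omega, by omega, by omega, Or.inl ?_⟩
    rw [h3]
    exact ht

theorem fdA {V : Type} [Fintype V] (G : SimpleGraph V) (Δ k : ℕ) (ty : ℕ → Prop) (nd : V → ℕ)
    (hreg : ∀ v, dg G v = Δ) (i : ℕ) (hi : i < k) (ht : ¬ ty i) :
    ∀ v ∈ pt nd (2 * i), dg (Fg G k ty nd) v + dgi G (pt nd (2 * i + 1)) v = Δ := by
  intro v hv
  rw [fd_mem] at hv
  rw [← hreg v]
  apply fd_gen
  intro u
  rw [fd_mem]
  change (G.Adj v u ∧ nd v < 2 * k ∧ nd u < 2 * k ∧ nd v / 2 = nd u / 2 ∧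
    (ty (nd v / 2) ∨ nd v ≠ nd u)) ↔ _
  have h3 : nd v / 2 = i := by omega
  constructor
  · rintro ⟨h4, _, _, h5, h6⟩
    rcases h6 with h6 | h6
    · rw [h3] at h6
      exact absurd h6 ht
    · exact ⟨by omega, h4⟩
  · rintro ⟨h4, h5⟩
    exact ⟨h5, by omega, by omega, by omega, Or.inr (by omega)⟩

theorem fdB {V : Type} [Fintype V] (G : SimpleGraph V) (Δ k : ℕ) (ty : ℕ → Prop) (nd : V → ℕ)
    (hreg : ∀ v, dg G v = Δ) (i : ℕ) (hi : i < k) (ht : ¬ ty i) :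
    ∀ v ∈ pt nd (2 * i + 1), dg (Fg G k ty nd) v + dgi G (pt nd (2 * i)) v = Δ := by
  intro v hv
  rw [fd_mem] at hv
  rw [← hreg v]
  apply fd_gen
  intro u
  rw [fd_mem]
  change (G.Adj v u ∧ nd v < 2 * k ∧ nd u < 2 * k ∧ nd v / 2 = nd u / 2 ∧
    (ty (nd v / 2) ∨ nd v ≠ nd u)) ↔ _
  have h3 : nd v / 2 = i := by omega
  constructor
  · rintro ⟨h4, _, _, h5, h6⟩
    rcases h6 with h6 | h6
    · rw [h3] at h6
      exact absurd h6 ht
    · exact ⟨by omega, h4⟩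
  · rintro ⟨h4, h5⟩
    exact ⟨h5, by omega, by omega, by omega, Or.inr (by omega)⟩

theorem fdL {V : Type} [Fintype V] (G : SimpleGraph V) (Δ k : ℕ) (ty : ℕ → Prop) (nd : V → ℕ)
    (hreg : ∀ v, dg G v = Δ) : ∀ w ∈ pt nd (2 * k), dg (Fg G k ty nd) w = Δ := by
  intro w hw
  rw [fd_mem] at hw
  have h1 := fd_gen G k ty nd w ∅ (fun u => by
    constructor
    · intro h
      have h2 : nd w < 2 * k := h.2.1
      omega
    · rintro ⟨h, _⟩
      exact absurd h (notMem_empty u))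
  rw [hreg w] at h1
  have h2 : dgi G ∅ w = 0 := by
    unfold dgi
    rw [filter_empty, card_empty]
  rw [h2, Nat.add_zero] at h1
  exact h1

theorem fcn {V : Type} [Fintype V] (G : SimpleGraph V) (Δ k : ℕ) (ty : ℕ → Prop)
    (nd qt : V → ℕ) (t : ℕ) (δ : ℝ) (φ : ℕ → V → V) (c0 : V → ℕ)
    (hφ : FcOut G Δ k ty nd qt t δ φ c0) (v : V) :
    ((range (Δ + 2)).filter fun ℓ => φ ℓ v ≠ v).card = dg (Fg G k ty nd) v := by
  unfold dg
  refine card_bij (fun ℓ _ => φ ℓ v) ?_ ?_ ?_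
  · intro ℓ hℓ
    rw [mem_filter, mem_range] at hℓ
    rw [mem_filter]
    exact ⟨mem_univ _, hφ.adj ℓ hℓ.1 v hℓ.2⟩
  · intro ℓ hℓ ℓ' hℓ' h
    rw [mem_filter, mem_range] at hℓ hℓ'
    by_contra hne
    exact hφ.dis ℓ hℓ.1 ℓ' hℓ'.1 hne v hℓ.2 h
  · intro b hb
    rw [mem_filter] at hb
    obtain ⟨ℓ, hℓ, h⟩ := hφ.cov v b hb.2
    refine ⟨ℓ, ?_, h⟩
    rw [mem_filter, mem_range]
    refine ⟨hℓ, ?_⟩
    rw [h]
    exact hb.2.ne'

theorem fcl {V : Type} [Fintype V] (nd : V → ℕ) (L j : ℕ) (φ : ℕ → V → V) :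
    ∑ ℓ ∈ range L, cv nd (φ ℓ) j =
      ∑ v ∈ pt nd j, ((range L).filter fun ℓ => φ ℓ v ≠ v).card := by
  have h1 : ∀ ℓ, cv nd (φ ℓ) j = ∑ v ∈ pt nd j, if φ ℓ v ≠ v then 1 else 0 := by
    intro ℓ
    unfold cv
    rw [Finset.card_filter]
  have h2 : ∀ v, ((range L).filter fun ℓ => φ ℓ v ≠ v).card =
      ∑ ℓ ∈ range L, if φ ℓ v ≠ v then 1 else 0 := by
    intro v
    rw [Finset.card_filter]
  rw [Finset.sum_congr rfl fun ℓ _ => h1 ℓ, Finset.sum_congr rfl fun v _ => h2 v,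
    Finset.sum_comm]

end Pool.Agent.H46.GA
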