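import Mathlib
import Pool.Agent.H46.GA.Defs

/-!
FHF: both halves (`qt < 2`, `2 ≤ qt`) of every piece have at least `Δ / 4` vertices.

Proof.  General: if `SmPQ G P Q X x η K` and `Q` is nonempty then `|#X - x #P| ≤ η #P`: take the constant `b j = q ∈ Q` and `i = K`; the number of `j : Fin K` is at most `K`, so both filters are everything.
 `v` with `nd v < 2 k`, `i := nd v / 2 < k`.
 * `ty i`: `pt nd (2 i + 1) = ∅`, so `nd v = 2 i` (`nd v / 2 = i`), `C := pt nd (2 i) ∋ v`. By `smE` (for `j = 0, 1, 2, 3`) `#(qs nd qt i j) ≥ (1/4 - 1/100) #C`; `qs nd qt i 0` and `qs nd qt i 1` are disjoint subsets of `{u : nd u = 2 i, qt u < 2}` (an element `u` of `qs` has `nd u / 2 = i`, so `nd u = 2 i`), so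
   this set has at least `(48/100) #C ≥ (48/100) (9/10) Δ ≥ Δ / 4` elements. The same for `qs nd qt i 2`, `qs nd qt i 3` and `2 ≤ qt`.
 * `¬ ty i`: `nd v = 2 i` or `nd v = 2 i + 1`; both pieces have the same number of elements, so both are nonempty. For `nd v = 2 i`: by `bs` the elements of `qs nd qt i 0`, `qs nd qt i 2` have `nd u = 2 i` (if `nd u = 2 i + 1` then `qt u = 1` or `3`). By `smA` they have at least `(1/2 - 1/100) #(pt nd (2 i)) ≥ (49/100) (9/10) Δ ≥ Δ / 4` elements.
   For `nd v = 2 i + 1`: the same with `qs nd qt i 1`, `qs nd qt i 3`, `smB` and `#(pt nd (2 i + 1)) = #(pt nd (2 i))`.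
 (`η ≤ 1/100`; `η * #P ≤ #P / 100`.)
-/

set_option autoImplicit false

namespace Pool.Agent.H46.GA

open Finset Classical
open Pool.Agent.H71.DN Pool.Agent.H71.DX Pool.Agent.H71.DR Pool.Agent.H71.HL Pool.Agent.H71.DC
open Pool.Agent.H71.TD

private theorem fhf_const {V : Type} [Fintype V] (G : SimpleGraph V) (P Q X : Finset V)
    (x η : ℝ) (K : ℕ) (h : SmPQ G P Q X x η K) (hη : η ≤ 1 / 100) {q : V} (hq : q ∈ Q) :
    x * (P.card : ℝ) - P.card / 100 ≤ X.card := by
  have h1 := h (fun _ => q) (fun _ => hq) K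
  have h2 : ∀ Y : Finset V, Y.filter (fun a =>
      (univ.filter fun j : Fin K => G.Adj ((fun _ => q) j) a).card ≤ K) = Y := by
    intro Y
    apply filter_true_of_mem
    intro a _
    exact (card_le_univ _).trans (by simp)
  rw [h2, h2] at h1
  have h3 := (abs_le.1 h1).1
  have h4 : η * (P.card : ℝ) ≤ 1 / 100 * (P.card : ℝ) :=
    mul_le_mul_of_nonneg_right hη (by positivity)
  linarith

private theorem fhf_two {V : Type} [Fintype V] (Δ : ℕ) (P X Y H : Finset V)
    (hX : 1 / 4 * (P.card : ℝ) - P.card / 100 ≤ X.card)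
    (hY : 1 / 4 * (P.card : ℝ) - P.card / 100 ≤ Y.card)
    (hd : Disjoint X Y) (hX1 : X ⊆ H) (hY1 : Y ⊆ H) (hP : 9 * Δ ≤ 10 * P.card) :
    Δ ≤ 4 * H.card := by
  have h1 : X.card + Y.card ≤ H.card := by
    rw [← card_union_of_disjoint hd]
    exact card_le_card (union_subset hX1 hY1)
  have h2 : (X.card : ℝ) + Y.card ≤ H.card := by exact_mod_cast h1
  have h3 : 9 * (Δ : ℝ) ≤ 10 * P.card := by exact_mod_cast hP
  have h4 : (0 : ℝ) ≤ Δ := by positivity
  have h5 : (Δ : ℝ) ≤ 4 * H.card := by linarith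
  exact_mod_cast h5

private theorem fhf_one {V : Type} [Fintype V] (Δ : ℕ) (P X H : Finset V)
    (hX : 1 / 2 * (P.card : ℝ) - P.card / 100 ≤ X.card)
    (hX1 : X ⊆ H) (hP : 9 * Δ ≤ 10 * P.card) :
    Δ ≤ 4 * H.card := by
  have h1 : X.card ≤ H.card := card_le_card hX1
  have h2 : (X.card : ℝ) ≤ H.card := by exact_mod_cast h1
  have h3 : 9 * (Δ : ℝ) ≤ 10 * P.card := by exact_mod_cast hP
  have h4 : (0 : ℝ) ≤ Δ := by positivity
  have h5 : (Δ : ℝ) ≤ 4 * H.card := by linarith
  exact_mod_cast h5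

theorem fhf {V : Type} [Fintype V] (G : SimpleGraph V) (Δ k KE KB : ℕ) (ty : ℕ → Prop)
    (nd qt : V → ℕ) (η f1 : ℝ) (hP : Spl G k ty nd qt η KE KB f1) (hη : η ≤ 1 / 100)
    (hodd : ∀ i < k, ty i → pt nd (2 * i + 1) = ∅)
    (hbal : ∀ i < k, ¬ ty i → (pt nd (2 * i)).card = (pt nd (2 * i + 1)).card)
    (hbig : ∀ i < k, 9 * Δ ≤ 10 * (pt nd (2 * i)).card) :
    ∀ v, nd v < 2 * k → Δ ≤ 4 * (univ.filter fun u => nd u = nd v ∧ qt u < 2).card ∧
      Δ ≤ 4 * (univ.filter fun u => nd u = nd v ∧ ¬ qt u < 2).card := by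
  intro v hv
  obtain ⟨i, hi⟩ : ∃ i, i = nd v / 2 := ⟨_, rfl⟩
  have hik : i < k := by omega
  by_cases hty : ty i
  · have hodd' := hodd i hik hty
    have hone : ∀ u, nd u ≠ 2 * i + 1 := by
      intro u hu
      have : u ∈ pt nd (2 * i + 1) := by
        simp only [pt, mem_filter, mem_univ, true_and]
        exact hu
      rw [hodd'] at this
      exact absurd this (notMem_empty u)
    have hv2 : nd v = 2 * i := by
      have := hone v
      omega
    have hvP : v ∈ pt nd (2 * i) := by
      simp only [pt, mem_filter, mem_univ, true_and]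
      exact hv2
    have hs : ∀ j < 4, 1 / 4 * ((pt nd (2 * i)).card : ℝ) - (pt nd (2 * i)).card / 100 ≤
        (qs nd qt i j).card := fun j hj =>
      fhf_const G _ _ _ _ η KE (hP.smE i hik hty j hj) hη hvP
    have hd : ∀ a b : ℕ, a ≠ b → Disjoint (qs nd qt i a) (qs nd qt i b) := by
      intro a b hab
      rw [disjoint_left]
      intro u h1 h2
      simp only [qs, mem_filter, mem_univ, true_and] at h1 h2
      exact hab (h1.2.symm.trans h2.2)
    constructor
    · refine fhf_two Δ (pt nd (2 * i)) (qs nd qt i 0) (qs nd qt i 1) _ (hs 0 (by norm_num))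
        (hs 1 (by norm_num)) (hd 0 1 (by norm_num)) ?_ ?_ (hbig i hik)
      · intro u hu
        simp only [qs, mem_filter, mem_univ, true_and] at hu ⊢
        have := hone u
        omega
      · intro u hu
        simp only [qs, mem_filter, mem_univ, true_and] at hu ⊢
        have := hone u
        omega
    · refine fhf_two Δ (pt nd (2 * i)) (qs nd qt i 2) (qs nd qt i 3) _ (hs 2 (by norm_num))
        (hs 3 (by norm_num)) (hd 2 3 (by norm_num)) ?_ ?_ (hbig i hik)
      · intro u hu
        simp only [qs, mem_filter, mem_univ, true_and] at hu ⊢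
        have := hone u
        omega
      · intro u hu
        simp only [qs, mem_filter, mem_univ, true_and] at hu ⊢
        have := hone u
        omega
  · have hbal' := hbal i hik hty
    obtain ⟨hbs1, hbs2⟩ := hP.bs i hik hty
    have hPne : (pt nd (2 * i)).Nonempty ∧ (pt nd (2 * i + 1)).Nonempty := by
      rw [← card_pos, ← card_pos, ← hbal', and_self]
      have hv01 : nd v = 2 * i ∨ nd v = 2 * i + 1 := by omega
      rcases hv01 with h | h
      · apply card_pos.2
        exact ⟨v, by simp only [pt, mem_filter, mem_univ, true_and]; exact h⟩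
      · rw [hbal']
        apply card_pos.2
        exact ⟨v, by simp only [pt, mem_filter, mem_univ, true_and]; exact h⟩
    obtain ⟨⟨q0, hq0⟩, ⟨q1, hq1⟩⟩ := hPne
    have hsA : ∀ j, (j = 0 ∨ j = 2) → 1 / 2 * ((pt nd (2 * i)).card : ℝ) -
        (pt nd (2 * i)).card / 100 ≤ (qs nd qt i j).card := fun j hj =>
      fhf_const G _ _ _ _ η KB (hP.smA i hik hty j hj) hη hq1
    have hsB : ∀ j, (j = 1 ∨ j = 3) → 1 / 2 * ((pt nd (2 * i + 1)).card : ℝ) -
        (pt nd (2 * i + 1)).card / 100 ≤ (qs nd qt i j).card := fun j hj =>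
      fhf_const G _ _ _ _ η KB (hP.smB i hik hty j hj) hη hq0
    have hv01 : nd v = 2 * i ∨ nd v = 2 * i + 1 := by omega
    rcases hv01 with h | h
    · have hsub : ∀ j, (j = 0 ∨ j = 2) → ∀ u ∈ qs nd qt i j, nd u = 2 * i ∧ qt u = j := by
        intro j hj u hu
        simp only [qs, mem_filter, mem_univ, true_and] at hu
        refine ⟨?_, hu.2⟩
        have h2 := hbs2 u
        rcases hj with hj | hj <;> omega
      constructor
      · refine fhf_one Δ (pt nd (2 * i)) (qs nd qt i 0) _ (hsA 0 (Or.inl rfl)) ?_ (hbig i hik)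
        intro u hu
        have := hsub 0 (Or.inl rfl) u hu
        simp only [mem_filter, mem_univ, true_and]
        omega
      · refine fhf_one Δ (pt nd (2 * i)) (qs nd qt i 2) _ (hsA 2 (Or.inr rfl)) ?_ (hbig i hik)
        intro u hu
        have := hsub 2 (Or.inr rfl) u hu
        simp only [mem_filter, mem_univ, true_and]
        omega
    · have hsub : ∀ j, (j = 1 ∨ j = 3) → ∀ u ∈ qs nd qt i j, nd u = 2 * i + 1 ∧ qt u = j := by
        intro j hj u hu
        simp only [qs, mem_filter, mem_univ, true_and] at hu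
        refine ⟨?_, hu.2⟩
        have h2 := hbs1 u
        rcases hj with hj | hj <;> omega
      have hbig' : 9 * Δ ≤ 10 * (pt nd (2 * i + 1)).card := by
        rw [← hbal']
        exact hbig i hik
      constructor
      · refine fhf_one Δ (pt nd (2 * i + 1)) (qs nd qt i 1) _ (hsB 1 (Or.inl rfl)) ?_ hbig'
        intro u hu
        have := hsub 1 (Or.inl rfl) u hu
        simp only [mem_filter, mem_univ, true_and]
        omega
      · refine fhf_one Δ (pt nd (2 * i + 1)) (qs nd qt i 3) _ (hsB 3 (Or.inr rfl)) ?_ hbig'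
        intro u hu
        have := hsub 3 (Or.inr rfl) u hu
        simp only [mem_filter, mem_univ, true_and]
        omega

end Pool.Agent.H46.GA
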