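import Mathlib

/-!
NMB: the numbers of colours `oA ℓ`, `oB ℓ` at the label `ℓ` on the two sides of a nearly bipartite part (`h` vertices on each side; `u ℓ` = number of covered vertices of `A` minus that of `B`).

`dist`: distribution of `Q` units over the finite set `Λ`, at most `Q / #Λ + 1` at one label. Proof: e.g. induction on `Q`, or: let `q := Q / #Λ`, give `q + 1` to `Q % #Λ` elements of `Λ` and `q` to the others.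

`nmB`, proof.  Let `R' := Ico t2 L \ Sp`, `#R' = L - t2 - #Sp`. `ΛA := {ℓ ∈ R' : u ℓ < 0} ∪ Z1`, `ΛB := {ℓ ∈ R' : 0 < u ℓ} ∪ Z2`, where `{ℓ ∈ R' : u ℓ = 0}` is the disjoint union of `Z1` and `Z2`, whose sizes differ by at most `1`. Claim: `8 #ΛA ≥ #R'` (and the same for `ΛB`). Let `n₋, n₀, n₊` be the numbers of `ℓ ∈ R'` with `u ℓ` negative, `0`, positive.
`∑_{R'} u = - ∑_{range t2 ∪ Sp} u`, so `n₊ - 3 n₋ ≤ ∑_{R'} u ≤ 3 (t2 + #Sp)`. If `8 (n₋ + (n₀ - 1) / 2) < #R'` then `8 n₋ < #R'` and `4 n₀ < #R' + 8` or so, and `n₊ = #R' - n₋ - n₀ > (5/8) #R' - 2`, so `3 (t2 + #Sp) ≥ n₊ - 3 n₋ > #R' / 4 - 2`, against `hQ`.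
`P := ∑_{ℓ < L} max 0 (-u ℓ) = ∑_{ℓ < L} max 0 (u ℓ) ≤ h` (`hs`, `hp`), `β0 := ∑_{ℓ < L, ℓ ∉ Zs} max 0 (u ℓ) ≤ P ≤ h`. `dist` gives `ρA` on `ΛA` with sum `h - P` and `ρB` on `ΛB` with sum `h - β0`, both at most `h / #Λ + 1 ≤ 8 h / #R' + 1 ≤ K - 3` (`hK`).
`oA ℓ := (-u ℓ).toNat + ρA ℓ`, `oB ℓ := (if ℓ ∈ Zs then 0 else (u ℓ).toNat) + ρB ℓ` for `ℓ < L`, both `0` for `L ≤ ℓ`.
 * not both positive: `oA ℓ > 0` implies `u ℓ < 0` or `ℓ ∈ ΛA` (`u ℓ ≤ 0`, `ℓ ∉ ΛB`), and in both cases `oB ℓ = 0`. `oB = 0` on `Zs ⊆ Sp` since `ΛB ∩ Sp = ∅`. On `Sp` and below `t2` `ρA = ρB = 0`, so `oA, oB ≤ 3` and below `t2` `oB - oA - u = 0` (`Zs ⊆ Sp ⊆ Ico t2 L`).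
 * `∑ oA = P + (h - P)`, `∑ oB = β0 + (h - β0)`. `g := oB - oA - u`: on `ΛA` `g = - ρA ≤ 0`, on `Zs` with `0 < u` `g = - u ≤ 0`, on `ΛB` `g = ρB`, otherwise `0`. So `∑ max 0 g ≤ ∑ ρB ≤ h`.
-/

set_option autoImplicit false

namespace Pool.Agent.H46.GA

open Finset Classical

theorem dist (Λ : Finset ℕ) (hΛ : Λ.Nonempty) (Q : ℕ) :
    ∃ e : ℕ → ℕ, (∀ ℓ, ℓ ∉ Λ → e ℓ = 0) ∧ ∑ ℓ ∈ Λ, e ℓ = Q ∧ ∀ ℓ, e ℓ ≤ Q / Λ.card + 1 := by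
  have hc : 0 < Λ.card := card_pos.2 hΛ
  obtain ⟨R, hR, hRc⟩ := Finset.exists_subset_card_eq (s := Λ) (n := Q % Λ.card)
    (Nat.mod_lt _ hc).le
  refine ⟨fun ℓ => if ℓ ∈ Λ then Q / Λ.card + (if ℓ ∈ R then 1 else 0) else 0, ?_, ?_, ?_⟩
  · intro ℓ hℓ
    simp [hℓ]
  · have h1 : ∑ ℓ ∈ Λ, (if ℓ ∈ Λ then Q / Λ.card + (if ℓ ∈ R then 1 else 0) else 0) =
        ∑ ℓ ∈ Λ, (Q / Λ.card + (if ℓ ∈ R then 1 else 0)) :=
      Finset.sum_congr rfl fun ℓ hℓ => by rw [if_pos hℓ]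
    rw [h1, Finset.sum_add_distrib, Finset.sum_const, ← Finset.sum_filter, Finset.sum_const,
      smul_eq_mul, smul_eq_mul, mul_one]
    have h2 : Λ.filter (fun ℓ => ℓ ∈ R) = R := by
      ext ℓ
      rw [mem_filter]
      exact ⟨fun h => h.2, fun h => ⟨hR h, h⟩⟩
    rw [h2, hRc]
    exact Nat.div_add_mod Q Λ.card
  · intro ℓ
    dsimp only
    split_ifs
    · exact le_rfl
    · exact Nat.le_succ _
    · exact Nat.zero_le _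

theorem nmB (L t2 h K : ℕ) (u : ℕ → ℤ) (Sp Zs : Finset ℕ) (ht : t2 ≤ L)
    (hSp : Sp ⊆ Ico t2 L) (hZ : Zs ⊆ Sp) (hu : ∀ ℓ < L, |u ℓ| ≤ 3)
    (hs : ∑ ℓ ∈ range L, u ℓ = 0) (hp : ∑ ℓ ∈ range L, max 0 (-u ℓ) ≤ h)
    (hQ : 12 * (t2 + Sp.card) + 40 ≤ L - t2 - Sp.card)
    (hK : 8 * h ≤ (K - 4) * (L - t2 - Sp.card)) (hK4 : 4 ≤ K) :
    ∃ oA oB : ℕ → ℕ, (∀ ℓ, oA ℓ = 0 ∨ oB ℓ = 0) ∧ (∀ ℓ ∈ Zs, oB ℓ = 0) ∧
      (∀ ℓ ∈ Sp, oA ℓ ≤ 3 ∧ oB ℓ ≤ 3) ∧ (∀ ℓ < t2, oA ℓ ≤ 3 ∧ oB ℓ ≤ 3) ∧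
      (∀ ℓ, oA ℓ ≤ K ∧ oB ℓ ≤ K) ∧ (∀ ℓ < t2, (oB ℓ : ℤ) - oA ℓ - u ℓ = 0) ∧
      ∑ ℓ ∈ range L, oA ℓ = h ∧ ∑ ℓ ∈ range L, oB ℓ = h ∧
      ∑ ℓ ∈ range L, max 0 ((oB ℓ : ℤ) - oA ℓ - u ℓ) ≤ h := by
  have hR' : ∀ ℓ, ℓ ∈ Ico t2 L \ Sp ↔ (t2 ≤ ℓ ∧ ℓ < L) ∧ ℓ ∉ Sp := fun ℓ => by
    rw [mem_sdiff, mem_Ico]
  have hcard : (Ico t2 L \ Sp).card = L - t2 - Sp.card := by
    rw [card_sdiff_of_subset hSp, Nat.card_Ico]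
  rw [← hcard] at hQ hK
  obtain ⟨R', hR'e⟩ : ∃ R', R' = Ico t2 L \ Sp := ⟨_, rfl⟩
  rw [← hR'e] at hR' hQ hK
  -- the three parts
  obtain ⟨Nn, hNn⟩ : ∃ Nn, Nn = R'.filter fun ℓ => u ℓ < 0 := ⟨_, rfl⟩
  obtain ⟨N0, hN0⟩ : ∃ N0, N0 = R'.filter fun ℓ => u ℓ = 0 := ⟨_, rfl⟩
  obtain ⟨Np, hNp⟩ : ∃ Np, Np = R'.filter fun ℓ => 0 < u ℓ := ⟨_, rfl⟩
  have mn : ∀ ℓ, ℓ ∈ Nn ↔ ℓ ∈ R' ∧ u ℓ < 0 := fun ℓ => by rw [hNn, mem_filter]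
  have m0 : ∀ ℓ, ℓ ∈ N0 ↔ ℓ ∈ R' ∧ u ℓ = 0 := fun ℓ => by rw [hN0, mem_filter]
  have mp : ∀ ℓ, ℓ ∈ Np ↔ ℓ ∈ R' ∧ 0 < u ℓ := fun ℓ => by rw [hNp, mem_filter]
  have hsplit : ∀ f : ℕ → ℤ, ∑ ℓ ∈ R', f ℓ = ∑ ℓ ∈ Nn, f ℓ + ∑ ℓ ∈ N0, f ℓ + ∑ ℓ ∈ Np, f ℓ := by
    intro f
    rw [hNn, hN0, hNp, Finset.sum_filter, Finset.sum_filter, Finset.sum_filter,
      ← Finset.sum_add_distrib, ← Finset.sum_add_distrib]
    refine Finset.sum_congr rfl fun ℓ _ => ?_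
    rcases lt_trichotomy (u ℓ) 0 with h1 | h1 | h1
    · simp [h1, h1.ne, not_lt.2 h1.le]
    · simp [h1]
    · simp [h1, h1.ne', not_lt.2 h1.le]
  have hc3 : (R'.card : ℤ) = Nn.card + N0.card + Np.card := by
    have h1 := hsplit (fun _ => 1)
    simpa using h1
  -- the sum over the other labels
  have hrange : ∑ ℓ ∈ range L, u ℓ = ∑ ℓ ∈ R', u ℓ + ∑ ℓ ∈ (range t2 ∪ Sp), u ℓ := by
    rw [← Finset.sum_union]
    · refine Finset.sum_congr ?_ fun _ _ => rfl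
      ext ℓ
      rw [mem_union, mem_union, hR', mem_range, mem_range]
      constructor
      · intro h1
        by_cases h2 : ℓ ∈ Sp
        · exact Or.inr (Or.inr h2)
        · rcases lt_or_ge ℓ t2 with h3 | h3
          · exact Or.inr (Or.inl h3)
          · exact Or.inl ⟨⟨h3, h1⟩, h2⟩
      · rintro (h1 | h1 | h1)
        · exact h1.1.2
        · omega
        · exact (mem_Ico.1 (hSp h1)).2
    · rw [Finset.disjoint_left]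
      intro ℓ h1 h2
      rw [hR'] at h1
      rw [mem_union, mem_range] at h2
      rcases h2 with h2 | h2
      · omega
      · exact h1.2 h2
  have hother : |∑ ℓ ∈ (range t2 ∪ Sp), u ℓ| ≤ 3 * (t2 + Sp.card : ℤ) := by
    have h1 : ∀ ℓ ∈ range t2 ∪ Sp, |u ℓ| ≤ 3 := by
      intro ℓ h1
      rw [mem_union, mem_range] at h1
      rcases h1 with h1 | h1
      · exact hu ℓ (by omega)
      · exact hu ℓ (mem_Ico.1 (hSp h1)).2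
    have h2 := (Finset.abs_sum_le_sum_abs u (range t2 ∪ Sp)).trans (Finset.sum_le_sum h1)
    rw [Finset.sum_const, nsmul_eq_mul] at h2
    have h3 : ((range t2 ∪ Sp).card : ℤ) ≤ t2 + Sp.card := by
      have h4 := Finset.card_union_le (range t2) Sp
      rw [card_range] at h4
      exact_mod_cast h4
    linarith
  have hlow : (Np.card : ℤ) - 3 * Nn.card ≤ ∑ ℓ ∈ R', u ℓ := by
    rw [hsplit u]
    have h1 : ∑ ℓ ∈ Nn, (-3 : ℤ) ≤ ∑ ℓ ∈ Nn, u ℓ := Finset.sum_le_sum fun ℓ hℓ => by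
      have h2 := (mn ℓ).1 hℓ
      have h3 := abs_le.1 (hu ℓ ((hR' ℓ).1 h2.1).1.2)
      exact h3.1
    have h2 : ∑ ℓ ∈ N0, u ℓ = 0 := Finset.sum_eq_zero fun ℓ hℓ => ((m0 ℓ).1 hℓ).2
    have h3 : ∑ ℓ ∈ Np, (1 : ℤ) ≤ ∑ ℓ ∈ Np, u ℓ := Finset.sum_le_sum fun ℓ hℓ => by
      have h2 := (mp ℓ).1 hℓ
      omega
    rw [Finset.sum_const, nsmul_eq_mul] at h1 h3
    linarith
  have hupp : ∑ ℓ ∈ R', u ℓ ≤ 3 * (Np.card : ℤ) - Nn.card := by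
    rw [hsplit u]
    have h1 : ∑ ℓ ∈ Nn, u ℓ ≤ ∑ ℓ ∈ Nn, (-1 : ℤ) := Finset.sum_le_sum fun ℓ hℓ => by
      have h2 := (mn ℓ).1 hℓ
      omega
    have h2 : ∑ ℓ ∈ N0, u ℓ = 0 := Finset.sum_eq_zero fun ℓ hℓ => ((m0 ℓ).1 hℓ).2
    have h3 : ∑ ℓ ∈ Np, u ℓ ≤ ∑ ℓ ∈ Np, (3 : ℤ) := Finset.sum_le_sum fun ℓ hℓ => by
      have h2 := (mp ℓ).1 hℓ
      have h3 := abs_le.1 (hu ℓ ((hR' ℓ).1 h2.1).1.2)
      exact h3.2
    rw [Finset.sum_const, nsmul_eq_mul] at h1 h3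
    linarith
  rw [hs] at hrange
  rw [abs_le] at hother
  -- split the zeros
  obtain ⟨Z1, hZ1, hZ1c⟩ := Finset.exists_subset_card_eq (s := N0) (n := N0.card / 2)
    (Nat.div_le_self _ _)
  have hZ2c : (N0 \ Z1).card = N0.card - N0.card / 2 := by
    rw [card_sdiff_of_subset hZ1, hZ1c]
  have dA : Disjoint Nn Z1 := by
    rw [Finset.disjoint_left]
    intro ℓ h1 h2
    have h3 := (mn ℓ).1 h1
    have h4 := (m0 ℓ).1 (hZ1 h2)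
    omega
  have dB : Disjoint Np (N0 \ Z1) := by
    rw [Finset.disjoint_left]
    intro ℓ h1 h2
    have h3 := (mp ℓ).1 h1
    have h4 := (m0 ℓ).1 (mem_sdiff.1 h2).1
    omega
  have cA : (Nn ∪ Z1).card = Nn.card + N0.card / 2 := by
    rw [card_union_of_disjoint dA, hZ1c]
  have cB : (Np ∪ (N0 \ Z1)).card = Np.card + (N0.card - N0.card / 2) := by
    rw [card_union_of_disjoint dB, hZ2c]
  have bA : R'.card ≤ 8 * (Nn ∪ Z1).card := by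
    rw [cA]
    omega
  have bB : R'.card ≤ 8 * (Np ∪ (N0 \ Z1)).card := by
    rw [cB]
    omega
  have nA : (Nn ∪ Z1).Nonempty := by
    rw [← card_pos]
    omega
  have nB : (Np ∪ (N0 \ Z1)).Nonempty := by
    rw [← card_pos]
    omega
  have memA : ∀ ℓ, ℓ ∈ Nn ∪ Z1 → ℓ ∈ R' ∧ u ℓ ≤ 0 := by
    intro ℓ hℓ
    rw [mem_union] at hℓ
    rcases hℓ with h1 | h1
    · exact ⟨((mn ℓ).1 h1).1, ((mn ℓ).1 h1).2.le⟩
    · exact ⟨((m0 ℓ).1 (hZ1 h1)).1, ((m0 ℓ).1 (hZ1 h1)).2.le⟩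
  have memB : ∀ ℓ, ℓ ∈ Np ∪ (N0 \ Z1) → ℓ ∈ R' ∧ 0 ≤ u ℓ := by
    intro ℓ hℓ
    rw [mem_union] at hℓ
    rcases hℓ with h1 | h1
    · exact ⟨((mp ℓ).1 h1).1, ((mp ℓ).1 h1).2.le⟩
    · have h2 := (m0 ℓ).1 (mem_sdiff.1 h1).1
      exact ⟨h2.1, h2.2.ge⟩
  have hAB : ∀ ℓ, ℓ ∈ Nn ∪ Z1 → ℓ ∉ Np ∪ (N0 \ Z1) := by
    intro ℓ h1 h2
    rw [mem_union] at h1 h2
    rcases h1 with h1 | h1 <;> rcases h2 with h2 | h2
    · have h3 := ((mn ℓ).1 h1).2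
      have h4 := ((mp ℓ).1 h2).2
      omega
    · have h3 := ((mn ℓ).1 h1).2
      have h4 := ((m0 ℓ).1 (mem_sdiff.1 h2).1).2
      omega
    · have h3 := ((m0 ℓ).1 (hZ1 h1)).2
      have h4 := ((mp ℓ).1 h2).2
      omega
    · exact (mem_sdiff.1 h2).2 h1
  -- the totals
  obtain ⟨aB, haB⟩ : ∃ aB : ℕ → ℕ, aB = fun ℓ => if ℓ ∈ Zs then 0 else (u ℓ).toNat := ⟨_, rfl⟩
  have hPA : ∑ ℓ ∈ range L, (-u ℓ).toNat ≤ h := by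
    have h1 : ((∑ ℓ ∈ range L, (-u ℓ).toNat : ℕ) : ℤ) = ∑ ℓ ∈ range L, max 0 (-u ℓ) := by
      rw [Nat.cast_sum]
      refine Finset.sum_congr rfl fun ℓ _ => ?_
      omega
    have h2 : ((∑ ℓ ∈ range L, (-u ℓ).toNat : ℕ) : ℤ) ≤ h := by
      rw [h1]
      exact hp
    exact_mod_cast h2
  have hPP : ∑ ℓ ∈ range L, (u ℓ).toNat = ∑ ℓ ∈ range L, (-u ℓ).toNat := by
    have h1 : ((∑ ℓ ∈ range L, (u ℓ).toNat : ℕ) : ℤ) - ((∑ ℓ ∈ range L, (-u ℓ).toNat : ℕ) : ℤ) =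
        ∑ ℓ ∈ range L, u ℓ := by
      rw [Nat.cast_sum, Nat.cast_sum, ← Finset.sum_sub_distrib]
      refine Finset.sum_congr rfl fun ℓ _ => ?_
      omega
    rw [hs] at h1
    omega
  have haBle : ∀ ℓ, aB ℓ ≤ (u ℓ).toNat := by
    intro ℓ
    rw [haB]
    dsimp only
    split_ifs
    · exact Nat.zero_le _
    · exact le_rfl
  have hPB : ∑ ℓ ∈ range L, aB ℓ ≤ h :=
    (Finset.sum_le_sum fun ℓ _ => haBle ℓ).trans (hPP.le.trans hPA)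
  obtain ⟨ρA, ra0, ras, rab⟩ := dist _ nA (h - ∑ ℓ ∈ range L, (-u ℓ).toNat)
  obtain ⟨ρB, rb0, rbs, rbb⟩ := dist _ nB (h - ∑ ℓ ∈ range L, aB ℓ)
  have hdiv : ∀ (c Q : ℕ), R'.card ≤ 8 * c → Q ≤ h → Q / c ≤ K - 4 := by
    intro c Q h1 h2
    apply Nat.div_le_of_le_mul
    have h3 : (K - 4) * R'.card ≤ (K - 4) * (8 * c) := Nat.mul_le_mul_left _ h1
    have h4 : 8 * h ≤ 8 * (c * (K - 4)) := by
      calc 8 * h ≤ (K - 4) * R'.card := hK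
        _ ≤ (K - 4) * (8 * c) := h3
        _ = 8 * (c * (K - 4)) := by ring
    omega
  have rA3 : ∀ ℓ, ρA ℓ ≤ K - 3 := by
    intro ℓ
    have h1 := rab ℓ
    have h2 := hdiv _ (h - ∑ ℓ ∈ range L, (-u ℓ).toNat) bA (Nat.sub_le _ _)
    omega
  have rB3 : ∀ ℓ, ρB ℓ ≤ K - 3 := by
    intro ℓ
    have h1 := rbb ℓ
    have h2 := hdiv _ (h - ∑ ℓ ∈ range L, aB ℓ) bB (Nat.sub_le _ _)
    omega
  have sA : ∑ ℓ ∈ range L, ρA ℓ = h - ∑ ℓ ∈ range L, (-u ℓ).toNat := by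
    rw [← ras]
    symm
    refine Finset.sum_subset ?_ fun ℓ _ h1 => ra0 ℓ h1
    intro ℓ hℓ
    exact mem_range.2 ((hR' ℓ).1 (memA ℓ hℓ).1).1.2
  have sB : ∑ ℓ ∈ range L, ρB ℓ = h - ∑ ℓ ∈ range L, aB ℓ := by
    rw [← rbs]
    symm
    refine Finset.sum_subset ?_ fun ℓ _ h1 => rb0 ℓ h1
    intro ℓ hℓ
    exact mem_range.2 ((hR' ℓ).1 (memB ℓ hℓ).1).1.2
  have zA : ∀ ℓ, ℓ ∉ R' → ρA ℓ = 0 := fun ℓ h1 => ra0 ℓ fun h2 => h1 (memA ℓ h2).1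
  have zB : ∀ ℓ, ℓ ∉ R' → ρB ℓ = 0 := fun ℓ h1 => rb0 ℓ fun h2 => h1 (memB ℓ h2).1
  have a3 : ∀ ℓ < L, (-u ℓ).toNat ≤ 3 ∧ (u ℓ).toNat ≤ 3 := by
    intro ℓ hℓ
    have h1 := abs_le.1 (hu ℓ hℓ)
    omega
  refine ⟨fun ℓ => if ℓ < L then (-u ℓ).toNat + ρA ℓ else 0,
    fun ℓ => if ℓ < L then aB ℓ + ρB ℓ else 0, ?_, ?_, ?_, ?_, ?_, ?_, ?_, ?_, ?_⟩
  · intro ℓ
    dsimp only
    by_cases hL : ℓ < L
    · rw [if_pos hL, if_pos hL]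
      have h1 := haBle ℓ
      rcases lt_trichotomy (u ℓ) 0 with h2 | h2 | h2
      · right
        have h3 : ρB ℓ = 0 := rb0 ℓ fun h4 => by
          have := (memB ℓ h4).2
          omega
        omega
      · by_cases h3 : ℓ ∈ Nn ∪ Z1
        · right
          have h4 : ρB ℓ = 0 := rb0 ℓ (hAB ℓ h3)
          omega
        · left
          have h4 : ρA ℓ = 0 := ra0 ℓ h3
          omega
      · left
        have h3 : ρA ℓ = 0 := ra0 ℓ fun h4 => by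
          have := (memA ℓ h4).2
          omega
        omega
    · rw [if_neg hL]
      exact Or.inl rfl
  · intro ℓ hℓ
    dsimp only
    have h1 : ρB ℓ = 0 := zB ℓ fun h2 => ((hR' ℓ).1 h2).2 (hZ hℓ)
    have h2 : aB ℓ = 0 := by
      rw [haB]
      dsimp only
      rw [if_pos hℓ]
    rw [h1, h2]
    split_ifs <;> rfl
  · intro ℓ hℓ
    dsimp only
    have hL := (mem_Ico.1 (hSp hℓ)).2
    have h1 : ρB ℓ = 0 := zB ℓ fun h2 => ((hR' ℓ).1 h2).2 hℓ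
    have h2 : ρA ℓ = 0 := zA ℓ fun h2 => ((hR' ℓ).1 h2).2 hℓ
    have h3 := a3 ℓ hL
    have h4 := haBle ℓ
    rw [if_pos hL, if_pos hL]
    omega
  · intro ℓ hℓ
    dsimp only
    have hL : ℓ < L := by omega
    have h0 : ℓ ∉ R' := fun h2 => by
      have := ((hR' ℓ).1 h2).1.1
      omega
    have h1 : ρB ℓ = 0 := zB ℓ h0
    have h2 : ρA ℓ = 0 := zA ℓ h0
    have h3 := a3 ℓ hL
    have h4 := haBle ℓ
    rw [if_pos hL, if_pos hL]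
    omega
  · intro ℓ
    dsimp only
    by_cases hL : ℓ < L
    · rw [if_pos hL, if_pos hL]
      have h1 := rA3 ℓ
      have h2 := rB3 ℓ
      have h3 := a3 ℓ hL
      have h4 := haBle ℓ
      omega
    · rw [if_neg hL, if_neg hL]
      exact ⟨Nat.zero_le _, Nat.zero_le _⟩
  · intro ℓ hℓ
    dsimp only
    have hL : ℓ < L := by omega
    have h0 : ℓ ∉ R' := fun h2 => by
      have := ((hR' ℓ).1 h2).1.1
      omega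
    have h1 : ρB ℓ = 0 := zB ℓ h0
    have h2 : ρA ℓ = 0 := zA ℓ h0
    have h3 : aB ℓ = (u ℓ).toNat := by
      rw [haB]
      dsimp only
      rw [if_neg]
      intro h4
      have := (mem_Ico.1 (hSp (hZ h4))).1
      omega
    rw [if_pos hL, if_pos hL, h1, h2, h3]
    omega
  · rw [Finset.sum_congr rfl (fun ℓ hℓ => if_pos (mem_range.1 hℓ)), Finset.sum_add_distrib, sA]
    omega
  · rw [Finset.sum_congr rfl (fun ℓ hℓ => if_pos (mem_range.1 hℓ)), Finset.sum_add_distrib, sB]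
    omega
  · have h1 : ∑ ℓ ∈ range L, max 0 (((if ℓ < L then aB ℓ + ρB ℓ else 0 : ℕ) : ℤ) -
        ((if ℓ < L then (-u ℓ).toNat + ρA ℓ else 0 : ℕ) : ℤ) - u ℓ) ≤
        ∑ ℓ ∈ range L, ((ρB ℓ : ℕ) : ℤ) := by
      refine Finset.sum_le_sum fun ℓ hℓ => ?_
      rw [if_pos (mem_range.1 hℓ), if_pos (mem_range.1 hℓ)]
      have h2 := haBle ℓ
      push_cast
      omega
    refine h1.trans ?_
    rw [← Nat.cast_sum, sB]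
    omega

end Pool.Agent.H46.GA
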