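import Mathlib
import Pool.Agent.H46.GA.Nmb

/-!
HNM: numbers of holes. `dist` (statement in `GA/Nmb.lean`) distributes units over a set of labels.

`hnE`, proof.  `q0 ℓ := if Even (a ℓ) then 0 else 1`; `m := #{ℓ < L : ¬ Even (a ℓ)} ≤ N` is even (`hsum`: the parity of a sum is the parity of the number of odd terms), so `N - m = 2 Q`. `dist` for `Ico t0 L` and `Q` gives `e`, `e ℓ ≤ Q / (L - t0) + 1 ≤ K0 + 1` (`Q ≤ N ≤ K0 (L - t0)`). `q ℓ := (q0 ℓ if ℓ < L, else 0) + 2 e ℓ`. In fact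
`2 e ℓ ≤ 2 K0 + 2`.
`hnB`, proof.  `∑ max 0 (g ℓ) = ∑ max 0 (-g ℓ) =: P ≤ h` (`hs`). `dist` for `Ico t0 L` and `h - P` gives `e`. `qA ℓ := (g ℓ).toNat + e ℓ`, `qB ℓ := (-g ℓ).toNat + e ℓ` for `ℓ < L` (and `0` for `L ≤ ℓ`).
-/

set_option autoImplicit false

namespace Pool.Agent.H46.GA

open Finset Classical

/-- Distribution over `Ico t0 L`, in the form used in this file. -/
theorem Hnm_dist (L t0 Q K0 : ℕ) (ht : t0 < L) (hK : Q ≤ K0 * (L - t0)) :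
    ∃ e : ℕ → ℕ, (∀ ℓ < t0, e ℓ = 0) ∧ (∀ ℓ, L ≤ ℓ → e ℓ = 0) ∧ ∑ ℓ ∈ range L, e ℓ = Q ∧
      ∀ ℓ, e ℓ ≤ K0 + 1 := by
  obtain ⟨e, h1, h2, h3⟩ := dist (Ico t0 L) (nonempty_Ico.mpr ht) Q
  refine ⟨e, ?_, ?_, ?_, ?_⟩
  · intro ℓ hℓ
    apply h1
    rw [mem_Ico]
    omega
  · intro ℓ hℓ
    apply h1
    rw [mem_Ico]
    omega
  · rw [← h2]
    symm
    apply sum_subset
    · intro x hx
      rw [mem_Ico] at hx
      exact mem_range.mpr hx.2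
    · intro x _ hx
      exact h1 x hx
  · intro ℓ
    have h4 := h3 ℓ
    have h5 : Q / (Ico t0 L).card ≤ K0 := by
      rw [Nat.card_Ico]
      apply Nat.div_le_of_le_mul
      rw [mul_comm]
      exact hK
    omega

theorem hnE (L t0 N K0 : ℕ) (a : ℕ → ℕ) (hN : Even N) (hsum : Even (∑ ℓ ∈ range L, a ℓ))
    (hodd : ((range L).filter fun ℓ => ¬ Even (a ℓ)).card ≤ N) (ht : t0 < L)
    (hK : N ≤ K0 * (L - t0)) :
    ∃ q : ℕ → ℕ, (∀ ℓ < L, Even (a ℓ + q ℓ)) ∧ ∑ ℓ ∈ range L, q ℓ = N ∧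
      (∀ ℓ < t0, q ℓ ≤ 1) ∧ ∀ ℓ, q ℓ ≤ 2 * K0 + 3 := by
  have hm : Even ((range L).filter fun ℓ => ¬ Even (a ℓ)).card := by
    have h := (Finset.even_sum_iff_even_card_odd (s := range L) (f := a)).mp hsum
    have h2 : ((range L).filter fun ℓ => ¬ Even (a ℓ)) = ((range L).filter fun ℓ => Odd (a ℓ)) := by
      apply filter_congr
      intro x _
      rw [Nat.not_even_iff_odd]
    rw [h2]
    exact h
  obtain ⟨n1, hn1⟩ := hN
  obtain ⟨m1, hm1⟩ := hm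
  have hQ : n1 - m1 ≤ K0 * (L - t0) := by omega
  obtain ⟨e, e1, e2, e3, e4⟩ := Hnm_dist L t0 (n1 - m1) K0 ht hQ
  refine ⟨fun ℓ => (if Even (a ℓ) then 0 else 1) + 2 * e ℓ, ?_, ?_, ?_, ?_⟩
  · intro ℓ _
    show Even (a ℓ + ((if Even (a ℓ) then 0 else 1) + 2 * e ℓ))
    by_cases h : Even (a ℓ)
    · rw [if_pos h]
      obtain ⟨c, hc⟩ := h
      exact ⟨c + e ℓ, by omega⟩
    · rw [if_neg h]
      rw [Nat.not_even_iff_odd] at h
      obtain ⟨c, hc⟩ := h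
      exact ⟨c + 1 + e ℓ, by omega⟩
  · rw [sum_add_distrib, ← mul_sum, e3]
    have h5 : ∑ x ∈ range L, (if Even (a x) then 0 else 1) =
        ((range L).filter fun ℓ => ¬ Even (a ℓ)).card := by
      rw [card_filter]
      apply sum_congr rfl
      intro x _
      by_cases h : Even (a x)
      · rw [if_pos h, if_neg (not_not.mpr h)]
      · rw [if_neg h, if_pos h]
    rw [h5]
    omega
  · intro ℓ hℓ
    show (if Even (a ℓ) then 0 else 1) + 2 * e ℓ ≤ 1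
    rw [e1 ℓ hℓ]
    split_ifs <;> omega
  · intro ℓ
    show (if Even (a ℓ) then 0 else 1) + 2 * e ℓ ≤ 2 * K0 + 3
    have := e4 ℓ
    split_ifs <;> omega

theorem hnB (L t0 h K0 K1 : ℕ) (g : ℕ → ℤ) (hs : ∑ ℓ ∈ range L, g ℓ = 0)
    (hp : ∑ ℓ ∈ range L, max 0 (g ℓ) ≤ h) (h0 : ∀ ℓ < t0, g ℓ = 0)
    (hg : ∀ ℓ < L, |g ℓ| ≤ K1) (ht : t0 < L) (hK : h ≤ K0 * (L - t0)) :
    ∃ qA qB : ℕ → ℕ, (∀ ℓ < L, (qA ℓ : ℤ) - qB ℓ = g ℓ) ∧ ∑ ℓ ∈ range L, qA ℓ = h ∧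
      ∑ ℓ ∈ range L, qB ℓ = h ∧ (∀ ℓ < t0, qA ℓ = 0 ∧ qB ℓ = 0) ∧
      ∀ ℓ, qA ℓ ≤ K0 + K1 + 1 ∧ qB ℓ ≤ K0 + K1 + 1 := by
  have hP1 : ((∑ ℓ ∈ range L, (g ℓ).toNat : ℕ) : ℤ) = ∑ ℓ ∈ range L, max 0 (g ℓ) := by
    rw [Nat.cast_sum]
    apply sum_congr rfl
    intro x _
    rw [Int.toNat_eq_max]
    exact max_comm _ _
  have hP2 : (∑ ℓ ∈ range L, (-g ℓ).toNat) = ∑ ℓ ∈ range L, (g ℓ).toNat := by
    have h1 : ((∑ ℓ ∈ range L, (g ℓ).toNat : ℕ) : ℤ) - ((∑ ℓ ∈ range L, (-g ℓ).toNat : ℕ) : ℤ)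
        = 0 := by
      rw [Nat.cast_sum, Nat.cast_sum, ← sum_sub_distrib, ← hs]
      apply sum_congr rfl
      intro x _
      omega
    omega
  have hle : (∑ ℓ ∈ range L, (g ℓ).toNat) ≤ h := by
    have : ((∑ ℓ ∈ range L, (g ℓ).toNat : ℕ) : ℤ) ≤ h := by
      rw [hP1]
      exact hp
    exact_mod_cast this
  obtain ⟨e, e1, e2, e3, e4⟩ := Hnm_dist L t0 (h - ∑ ℓ ∈ range L, (g ℓ).toNat) K0 ht (by omega)
  refine ⟨fun ℓ => (if ℓ < L then (g ℓ).toNat else 0) + e ℓ,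
    fun ℓ => (if ℓ < L then (-g ℓ).toNat else 0) + e ℓ, ?_, ?_, ?_, ?_, ?_⟩
  · intro ℓ hℓ
    show (((if ℓ < L then (g ℓ).toNat else 0) + e ℓ : ℕ) : ℤ) -
      (((if ℓ < L then (-g ℓ).toNat else 0) + e ℓ : ℕ) : ℤ) = g ℓ
    rw [if_pos hℓ, if_pos hℓ]
    omega
  · rw [sum_add_distrib, e3]
    have h6 : ∑ x ∈ range L, (if x < L then (g x).toNat else 0) =
        ∑ ℓ ∈ range L, (g ℓ).toNat := by
      apply sum_congr rfl
      intro x hx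
      rw [if_pos (mem_range.mp hx)]
    rw [h6]
    omega
  · rw [sum_add_distrib, e3]
    have h6 : ∑ x ∈ range L, (if x < L then (-g x).toNat else 0) =
        ∑ ℓ ∈ range L, (-g ℓ).toNat := by
      apply sum_congr rfl
      intro x hx
      rw [if_pos (mem_range.mp hx)]
    rw [h6, hP2]
    omega
  · intro ℓ hℓ
    have h7 := h0 ℓ hℓ
    have h8 := e1 ℓ hℓ
    refine ⟨?_, ?_⟩
    · show (if ℓ < L then (g ℓ).toNat else 0) + e ℓ = 0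
      rw [h7, h8]
      split_ifs <;> simp
    · show (if ℓ < L then (-g ℓ).toNat else 0) + e ℓ = 0
      rw [h7, h8]
      split_ifs <;> simp
  · intro ℓ
    have h9 := e4 ℓ
    refine ⟨?_, ?_⟩
    · show (if ℓ < L then (g ℓ).toNat else 0) + e ℓ ≤ K0 + K1 + 1
      split_ifs with hℓ
      · have h10 := abs_le.mp (hg ℓ hℓ)
        omega
      · omega
    · show (if ℓ < L then (-g ℓ).toNat else 0) + e ℓ ≤ K0 + K1 + 1
      split_ifs with hℓ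
      · have h10 := abs_le.mp (hg ℓ hℓ)
        omega
      · omega

end Pool.Agent.H46.GA
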