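import Mathlib
import Pool.Agent.H46.GA.Nmb
import Pool.Agent.H46.GA.Defs

/-!
DMB: the numbers of colours in one nearly bipartite part. Use the STATEMENT of `nmB` (`GA/Nmb.lean`).

Proof.  `L := Δ + 2`, `t2 := 2 t`, `h := #(pt nd (2 i)) = #(pt nd (2 i + 1))` (`hF.bal`), `u ℓ := uu nd (φ ℓ) i`, `Sp := (pt nd (2 k)).image c0 ⊆ Ico (2 t) L` (`hF.c1`), `#Sp ≤ r`, `Zs := {c0 w : w ∈ pt nd (2 k), w ∈ sf i}`. `|u ℓ| ≤ 3` (`hF.ub`), `∑ u = 0` (`hF.sB`), `∑ max 0 (-u) ≤ h` (`hF.us`, `hF.big`).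
 `hQ` of `nmB` follows from `hQ`. `hK`: `8 h ≤ 8 M Δ` and `(K - 4) (L - 2 t - #Sp) ≥ 16 M * (L - 2 t - #Sp)`, `2 (L - 2 t - #Sp) ≥ Δ` (by `hQ`).
 If the first alternative of `hF.ns` holds: `nmB L (2 t) h K u Sp Zs` gives `oA, oB`; `bA := oA`, `bB := oB`. Otherwise (second alternative) apply `nmB` to `-u` (`∑_{ℓ<L} max 0 (-(-u ℓ)) = ∑ max 0 (u ℓ) = ∑ max 0 (-u ℓ)`, since `∑ u = 0` and `max 0 u - max 0 (-u) = u`), it gives `oA, oB`; put `bA := oB`, `bB := oA`: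
 then `bB - bA - u = - (oB - oA - (-u))`, the sum of the numbers `g' ℓ := oB ℓ - oA ℓ + u ℓ` over `ℓ < L` is `h - h + 0 = 0`, so `∑ max 0 (- g' ℓ) = ∑ max 0 (g' ℓ) ≤ h`.
 The claim on `z`: let `w ∈ pt nd (2 k)`. If `w ∉ sf i`: `hF.nn` for both sides. If `w ∈ sf i`: `c0 w ∈ Zs`, so `oB (c0 w) = 0`; so only `oA` can be positive at `c0 w`, and this is the side where `hF.ns` gives many non-neighbours (`bA` in the first case, `bB` in the second).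
-/

set_option autoImplicit false

namespace Pool.Agent.H46.GA

open Finset Classical
open Pool.Agent.H71.DN Pool.Agent.H71.DX Pool.Agent.H71.DR Pool.Agent.H71.HL Pool.Agent.H71.DC
open Pool.Agent.H71.TD

private theorem Dmb_num (M Δ K h X S t r : ℕ) (hh : h ≤ M * Δ) (hK : 16 * M + 4 ≤ K)
    (hQ : 13 * (2 * t + r) + 40 ≤ Δ) (hS : S ≤ r) (hX : X = Δ + 2 - 2 * t - S) :
    8 * h ≤ (K - 4) * X := by
  have h1 : Δ ≤ 2 * X := by omega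
  have h2 : 16 * M ≤ K - 4 := by omega
  have h3 : 16 * M * X ≤ (K - 4) * X := Nat.mul_le_mul_right _ h2
  have h4 : M * Δ ≤ M * (2 * X) := Nat.mul_le_mul_left _ h1
  have h5 : 16 * M * X = 8 * (M * (2 * X)) := by ring
  omega

theorem dmb {V : Type} [Fintype V] (G : SimpleGraph V) (Δ k : ℕ) (ty : ℕ → Prop)
    (nd qt : V → ℕ) (sf : ℕ → Finset V) (t : ℕ) (φ : ℕ → V → V) (c0 : V → ℕ) (d D r z e : ℕ)
    (hF : Fx G Δ k ty nd qt sf t φ c0 d D r z e) (M K : ℕ) (hM : Fintype.card V ≤ M * Δ)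
    (hK : 16 * M + 4 ≤ K) (hQ : 13 * (2 * t + r) + 40 ≤ Δ) (i : ℕ) (hi : i < k)
    (hty : ¬ ty i) :
    ∃ bA bB : ℕ → ℕ, (∀ ℓ, bA ℓ = 0 ∨ bB ℓ = 0) ∧ (∀ ℓ, bA ℓ ≤ K ∧ bB ℓ ≤ K) ∧
      ∑ ℓ ∈ range (Δ + 2), bA ℓ = (pt nd (2 * i)).card ∧
      ∑ ℓ ∈ range (Δ + 2), bB ℓ = (pt nd (2 * i + 1)).card ∧
      (∀ w ∈ pt nd (2 * k), bA (c0 w) ≤ 3 ∧ bB (c0 w) ≤ 3) ∧
      (∀ ℓ < 2 * t, bA ℓ ≤ 3 ∧ bB ℓ ≤ 3) ∧
      (∀ w ∈ pt nd (2 * k), 0 < bA (c0 w) →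
        z ≤ ((pt nd (2 * i)).filter fun v => ¬ G.Adj w v).card) ∧
      (∀ w ∈ pt nd (2 * k), 0 < bB (c0 w) →
        z ≤ ((pt nd (2 * i + 1)).filter fun v => ¬ G.Adj w v).card) ∧
      (∀ ℓ < 2 * t, (bB ℓ : ℤ) - bA ℓ - uu nd (φ ℓ) i = 0) ∧
      ∑ ℓ ∈ range (Δ + 2), max 0 ((bB ℓ : ℤ) - bA ℓ - uu nd (φ ℓ) i) ≤
        ((pt nd (2 * i)).card : ℤ) := by
  obtain ⟨h, hh⟩ : ∃ h : ℕ, h = (pt nd (2 * i)).card := ⟨_, rfl⟩
  have hbal := hF.bal i hi hty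
  rw [← hbal, ← hh]
  have hbig := hF.big i hi
  rw [← hh] at hbig
  have hcV : h ≤ M * Δ := by
    rw [hh]
    exact (Finset.card_le_univ _).trans hM
  obtain ⟨Sp, hSpe⟩ : ∃ Sp : Finset ℕ, Sp = (pt nd (2 * k)).image c0 := ⟨_, rfl⟩
  obtain ⟨Zs, hZse⟩ : ∃ Zs : Finset ℕ,
    Zs = ((pt nd (2 * k)).filter fun w => w ∈ sf i).image c0 := ⟨_, rfl⟩
  have hSpm : ∀ w ∈ pt nd (2 * k), c0 w ∈ Sp := fun w hw => by
    rw [hSpe]
    exact Finset.mem_image_of_mem _ hw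
  have hZsm : ∀ w ∈ pt nd (2 * k), w ∈ sf i → c0 w ∈ Zs := fun w hw hs => by
    rw [hZse]
    exact Finset.mem_image_of_mem _ (Finset.mem_filter.2 ⟨hw, hs⟩)
  have hSp : Sp ⊆ Ico (2 * t) (Δ + 2) := by
    rw [hSpe]
    intro ℓ hℓ
    obtain ⟨w, hw, rfl⟩ := Finset.mem_image.1 hℓ
    have h1 := hF.c1 w hw
    exact Finset.mem_Ico.2 ⟨h1.1, h1.2.1⟩
  have hZ : Zs ⊆ Sp := by
    rw [hSpe, hZse]
    exact Finset.image_subset_image (Finset.filter_subset _ _)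
  have hSc : Sp.card ≤ r := by
    rw [hSpe]
    exact Finset.card_image_le.trans hF.lo
  have hu := hF.ub i hi hty
  have hs := hF.sB i hi hty
  have hp : ∑ ℓ ∈ range (Δ + 2), max 0 (-uu nd (φ ℓ) i) ≤ (h : ℤ) := by
    have h1 := hF.us i hi hty
    have h2 : (9 : ℤ) * Δ ≤ 10 * h := by exact_mod_cast hbig
    omega
  have hQ' : 12 * (2 * t + Sp.card) + 40 ≤ Δ + 2 - 2 * t - Sp.card := by omega
  have hK' : 8 * h ≤ (K - 4) * (Δ + 2 - 2 * t - Sp.card) :=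
    Dmb_num M Δ K h _ Sp.card t r hcV hK hQ hSc rfl
  rcases hF.ns i hi hty with hns | hns
  · obtain ⟨oA, oB, q1, q2, q3, q4, q5, q6, q7, q8, q9⟩ := nmB (Δ + 2) (2 * t) h K
      (fun ℓ => uu nd (φ ℓ) i) Sp Zs (by omega) hSp hZ hu hs hp hQ' hK' (by omega)
    refine ⟨oA, oB, q1, q5, q7, q8, fun w hw => q3 _ (hSpm w hw), q4, ?_, ?_, q6, q9⟩
    · intro w hw _
      by_cases hws : w ∈ sf i
      · exact hns w hws
      · exact (hF.nn i hi w hw hws).1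
    · intro w hw hpos
      by_cases hws : w ∈ sf i
      · have h1 := q2 _ (hZsm w hw hws)
        omega
      · exact (hF.nn i hi w hw hws).2 hty
  · have hu' : ∀ ℓ < Δ + 2, |(-uu nd (φ ℓ) i)| ≤ 3 := fun ℓ hℓ => by
      rw [abs_neg]
      exact hu ℓ hℓ
    have hs' : ∑ ℓ ∈ range (Δ + 2), (-uu nd (φ ℓ) i) = 0 := by
      rw [Finset.sum_neg_distrib, hs, neg_zero]
    have hp' : ∑ ℓ ∈ range (Δ + 2), max 0 (-(-uu nd (φ ℓ) i)) ≤ (h : ℤ) := by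
      have h1 : ∑ ℓ ∈ range (Δ + 2), max 0 (-(-uu nd (φ ℓ) i)) =
          ∑ ℓ ∈ range (Δ + 2), max 0 (-uu nd (φ ℓ) i) + ∑ ℓ ∈ range (Δ + 2), uu nd (φ ℓ) i := by
        rw [← Finset.sum_add_distrib]
        refine Finset.sum_congr rfl fun ℓ _ => ?_
        omega
      rw [h1, hs, add_zero]
      exact hp
    obtain ⟨oA, oB, q1, q2, q3, q4, q5, q6, q7, q8, q9⟩ := nmB (Δ + 2) (2 * t) h K
      (fun ℓ => -uu nd (φ ℓ) i) Sp Zs (by omega) hSp hZ hu' hs' hp' hQ' hK' (by omega)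
    refine ⟨oB, oA, fun ℓ => (q1 ℓ).symm, fun ℓ => (q5 ℓ).symm, q8, q7,
      fun w hw => (q3 _ (hSpm w hw)).symm, fun ℓ hℓ => (q4 ℓ hℓ).symm, ?_, ?_, ?_, ?_⟩
    · intro w hw hpos
      by_cases hws : w ∈ sf i
      · have h1 := q2 _ (hZsm w hw hws)
        omega
      · exact (hF.nn i hi w hw hws).1
    · intro w hw _
      by_cases hws : w ∈ sf i
      · exact hns w hws
      · exact (hF.nn i hi w hw hws).2 hty
    · intro ℓ hℓ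
      have h1 := q6 ℓ hℓ
      omega
    · have h1 : ∑ ℓ ∈ range (Δ + 2), max 0 ((oA ℓ : ℤ) - oB ℓ - uu nd (φ ℓ) i) =
          ∑ ℓ ∈ range (Δ + 2), max 0 ((oB ℓ : ℤ) - oA ℓ - -uu nd (φ ℓ) i) -
            (∑ ℓ ∈ range (Δ + 2), (oB ℓ : ℤ) - ∑ ℓ ∈ range (Δ + 2), (oA ℓ : ℤ) +
              ∑ ℓ ∈ range (Δ + 2), uu nd (φ ℓ) i) := by
        rw [← Finset.sum_sub_distrib, ← Finset.sum_add_distrib, ← Finset.sum_sub_distrib]
        refine Finset.sum_congr rfl fun ℓ _ => ?_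
        omega
      have h2 : ∑ ℓ ∈ range (Δ + 2), (oB ℓ : ℤ) = h := by exact_mod_cast q8
      have h3 : ∑ ℓ ∈ range (Δ + 2), (oA ℓ : ℤ) = h := by exact_mod_cast q7
      rw [h1, h2, h3, hs]
      have h4 : (h : ℤ) - h + 0 = 0 := by ring
      rw [h4, sub_zero]
      exact q9

end Pool.Agent.H46.GA
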