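import Mathlib

/-!
NME: choice of `N` labels out of `0, ..., L - 1`, not `z`, such that few parities are odd afterwards.

Proof.  Case 1: `N ≤ #(O \ {z})`: take `Λ ⊆ O \ {z}` with `#Λ = N`: `Λ \ O = ∅` and `#(O \ Λ) = #O - N ≤ L - N ≤ N`.
Case 2: `#(O \ {z}) < N`: `#(range L \ {z}) = L - 1 ≥ N` (`z < L`), so there is `Λ` with `O \ {z} ⊆ Λ ⊆ range L \ {z}` and `#Λ = N` (`Finset.exists_subsuperset_card_eq`). If `z ∉ O` then `O ⊆ Λ` and `#(Λ \ O) = N - #O ≤ N`. If `z ∈ O` then `O \ Λ = {z}`,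
`Λ \ O = Λ \ (O \ {z})` has `N - (#O - 1)` elements; the sum is `N + 2 - #O ≤ N` since `#O` is even and not `0`.
-/

set_option autoImplicit false

namespace Pool.Agent.H46.GA

open Finset Classical

theorem nmE (L N z : ℕ) (O : Finset ℕ) (hO : O ⊆ range L) (hO2 : Even O.card)
    (hN1 : N + 1 ≤ L) (hN2 : L ≤ 2 * N) (hz : z < L) :
    ∃ Λ : Finset ℕ, Λ ⊆ range L ∧ z ∉ Λ ∧ Λ.card = N ∧ ((O \ Λ) ∪ (Λ \ O)).card ≤ N := by
  have hOc : O.card ≤ L := by
    have := Finset.card_le_card hO
    simpa using this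
  by_cases h : N ≤ (O \ {z}).card
  · obtain ⟨Λ, hΛ, hc⟩ := Finset.exists_subset_card_eq h
    have hΛO : Λ ⊆ O := hΛ.trans Finset.sdiff_subset
    refine ⟨Λ, hΛO.trans hO, ?_, hc, ?_⟩
    · intro hzΛ
      have := hΛ hzΛ
      simp at this
    · have h1 : Λ \ O = ∅ := Finset.sdiff_eq_empty_iff_subset.mpr hΛO
      rw [h1, Finset.union_empty, Finset.card_sdiff_of_subset hΛO]
      omega
  · push Not at h
    have hsub : O \ {z} ⊆ range L \ {z} := Finset.sdiff_subset_sdiff hO (Finset.Subset.refl _)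
    have hcard : (range L \ {z}).card = L - 1 := by
      rw [Finset.card_sdiff_of_subset (by simpa using hz)]
      simp
    obtain ⟨Λ, h1, h2, h3⟩ := Finset.exists_subsuperset_card_eq hsub (le_of_lt h)
      (by rw [hcard]; omega : N ≤ (range L \ {z}).card)
    have hzΛ : z ∉ Λ := by
      intro hzΛ
      have := h2 hzΛ
      simp at this
    refine ⟨Λ, h2.trans Finset.sdiff_subset, hzΛ, h3, ?_⟩
    by_cases hzO : z ∈ O
    · have e1 : O \ Λ ⊆ {z} := by
        intro x hx
        rw [Finset.mem_sdiff] at hx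
        by_contra hxz
        exact hx.2 (h1 (Finset.mem_sdiff.mpr ⟨hx.1, hxz⟩))
      have e2 : Λ \ O ⊆ Λ \ (O \ {z}) := Finset.sdiff_subset_sdiff (Finset.Subset.refl _) Finset.sdiff_subset
      have c1 : (O \ Λ).card ≤ 1 := by
        have := Finset.card_le_card e1
        simpa using this
      have c3 : (O \ {z}).card = O.card - 1 := by
        rw [Finset.card_sdiff_of_subset (by simpa using hzO)]
        simp
      have c2 : (Λ \ O).card ≤ N - (O.card - 1) := by
        have h5 := Finset.card_le_card e2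
        rw [Finset.card_sdiff_of_subset h1, h3, c3] at h5
        exact h5
      have c4 : 1 ≤ O.card := Finset.card_pos.mpr ⟨z, hzO⟩
      obtain ⟨k, hk⟩ := hO2
      have := Finset.card_union_le (O \ Λ) (Λ \ O)
      omega
    · have e0 : O \ {z} = O := by
        rw [Finset.sdiff_singleton_eq_erase, Finset.erase_eq_of_notMem hzO]
      rw [e0] at h1 h
      have e1 : O \ Λ = ∅ := Finset.sdiff_eq_empty_iff_subset.mpr h1
      rw [e1, Finset.empty_union, Finset.card_sdiff_of_subset h1]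
      omega

end Pool.Agent.H46.GA
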