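import Mathlib
import Pool.Agent.H46.GA.Nme
import Pool.Agent.H46.GA.Defs

/-!
DME: the numbers of colours in one expanding part. Use the STATEMENT of `nmE` (`GA/Nme.lean`).

Proof.  `C := pt nd (2 i)`, `N := #C` (even, `hF.even`), `L := Δ + 2`.
 Case A: `C ⊆ W`, `Δ + 2 ≤ N`: `b := 0`; `#(C \ W) = 0`; the number of odd labels is at most `L ≤ N`.
 Otherwise (second alternative of `hW.alt`) `8 #{v ∈ W : nd v = 2 i} ≤ z`, `Λ` with `#Λ = N - (Δ + 1)`, `lam v ∈ Λ` for `v ∈ W`, `nd v = 2 i`, and `wn = 2` on `Λ`, `wn = 0` outside `Λ`. So `#{v ∈ W : nd v = 2 i} = 2 #Λ` (sum of `wn` over `Λ`).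
 Case B: `N ≤ Δ + 1`: `Λ = ∅`, no vertex of `W` is in `C`. `O := {ℓ < L : ¬ Even (N + cv nd (φ ℓ) (2 i))}`; `#O` is even, since `∑_{ℓ < L} (N + cv ..) = L N + ∑ cv` is even (`hF.sE`, `N` even) (`Finset.even_sum_iff_even_card_odd`-like lemma, or by induction; the parity of a sum is the parity of the number of its odd terms). `nmE L N (zi i) O` (`N + 1 ≤ L`; `L ≤ 2 N` by
   `9 Δ ≤ 10 N`, `5 ≤ Δ`) gives `Λ'`; `b ℓ := if ℓ ∈ Λ' then 1 else 0`. `wn = 0`, and for `ℓ < L` the number `N + cv + (b ℓ + 0)` is odd iff exactly one of `ℓ ∈ O`, `ℓ ∈ Λ'` holds, i.e. `ℓ ∈ (O \ Λ') ∪ (Λ' \ O)`.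
 Case C: `Δ + 2 ≤ N`: `b ℓ := if ℓ < L ∧ ℓ ∉ Λ ∧ ℓ ≠ zi i then 1 else 0`; `∑ b = L - #Λ - 1` (`zi i < L`, `zi i ∉ Λ ⊆ range L`), `#(C \ W) = N - 2 #Λ`, equal since `#Λ = N - (Δ + 1)` (and `16 #Λ ≤ z ≤ Δ`, so `#Λ ≤ Δ`). The number of odd labels is at most `L ≤ N`.
 In all cases `b (zi i) = 0` and `b (lam v) = 0` for `v ∈ W`, `nd v = 2 i`, and `8 #{v ∈ W : nd v = 2 i} ≤ z` if `C` is not contained in `W` (in case A the hypothesis of this claim is false).
-/

set_option autoImplicit false

namespace Pool.Agent.H46.GA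

open Finset Classical
open Pool.Agent.H71.DN Pool.Agent.H71.DX Pool.Agent.H71.DR Pool.Agent.H71.HL Pool.Agent.H71.DC
open Pool.Agent.H71.TD

theorem dme {V : Type} [Fintype V] (G : SimpleGraph V) (Δ k : ℕ) (ty : ℕ → Prop)
    (nd qt : V → ℕ) (sf : ℕ → Finset V) (t : ℕ) (φ : ℕ → V → V) (c0 : V → ℕ) (d D r z e : ℕ)
    (hF : Fx G Δ k ty nd qt sf t φ c0 d D r z e) (zi : ℕ → ℕ) (s : ℕ) (W : Finset V)
    (lam : V → ℕ) (hW : WOut G Δ k ty nd t φ c0 zi s z W lam) (hz : z ≤ Δ) (h5 : 5 ≤ Δ)
    (i : ℕ) (hi : i < k) (hty : ty i) (hzi : zi i < Δ + 2) :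
    ∃ b : ℕ → ℕ, (∀ ℓ, b ℓ ≤ 1) ∧
      ∑ ℓ ∈ range (Δ + 2), b ℓ = ((pt nd (2 * i)).filter fun v => v ∉ W).card ∧
      b (zi i) = 0 ∧ (∀ v ∈ W, nd v = 2 * i → b (lam v) = 0) ∧
      ((∃ v, nd v = 2 * i ∧ v ∉ W) → 8 * (W.filter fun v => nd v = 2 * i).card ≤ z) ∧
      ((range (Δ + 2)).filter fun ℓ => ¬ Even ((pt nd (2 * i)).card + cv nd (φ ℓ) (2 * i) +
        (b ℓ + wn nd W lam (2 * i) ℓ))).card ≤ (pt nd (2 * i)).card := by
  set C := pt nd (2 * i) with hC
  have hmC : ∀ v, v ∈ C ↔ nd v = 2 * i := by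
    intro v
    rw [hC]
    simp [pt]
  set Wi := W.filter fun v => nd v = 2 * i with hWi
  have hCin : (C.filter fun v => v ∈ W) = Wi := by
    ext v
    rw [Finset.mem_filter, hmC, hWi, Finset.mem_filter]
    exact and_comm
  have hsplit : Wi.card + (C.filter fun v => v ∉ W).card = C.card := by
    rw [← hCin]
    exact Finset.card_filter_add_card_filter_not (s := C) (fun v => v ∈ W)
  have hevN : Even C.card := hF.even i hi hty
  have hbig : 9 * Δ ≤ 10 * C.card := hF.big i hi
  rcases hW.alt i hi hty with ⟨hCW, hN⟩ | ⟨h8, Λ, hΛ, hzΛ, hΛc, hlam, hw2⟩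
  · refine ⟨fun _ => 0, fun _ => Nat.zero_le _, ?_, rfl, fun _ _ _ => rfl, ?_, ?_⟩
    · rw [Finset.sum_const_zero]
      symm
      rw [Finset.card_eq_zero, Finset.filter_eq_empty_iff]
      intro v hv hvW
      exact hvW (hCW hv)
    · rintro ⟨v, hv, hvW⟩
      exact absurd (hCW ((hmC v).2 hv)) hvW
    · refine (Finset.card_filter_le _ _).trans ?_
      rw [Finset.card_range]
      exact hN
  · by_cases hN : C.card ≤ Δ + 1
    · have hΛ0 : Λ = ∅ := by
        rw [← Finset.card_eq_zero, hΛc]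
        exact Nat.sub_eq_zero_of_le hN
      have hno : ∀ v ∈ W, nd v ≠ 2 * i := by
        intro v hv hnd
        have := hlam v hv hnd
        rw [hΛ0] at this
        exact absurd this (Finset.notMem_empty _)
      have hWi0 : Wi = ∅ := by
        rw [hWi, Finset.filter_eq_empty_iff]
        exact fun v hv => hno v hv
      have hwn : ∀ ℓ, wn nd W lam (2 * i) ℓ = 0 := by
        intro ℓ
        rw [wn, Finset.card_eq_zero, Finset.filter_eq_empty_iff]
        intro v hv h
        exact hno v hv h.1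
      set O := (range (Δ + 2)).filter fun ℓ => ¬ Even (C.card + cv nd (φ ℓ) (2 * i)) with hO
      have hO2 : Even O.card := by
        have h1 : Even (∑ ℓ ∈ range (Δ + 2), (C.card + cv nd (φ ℓ) (2 * i))) := by
          rw [Finset.sum_add_distrib, Finset.sum_const, smul_eq_mul]
          exact (hevN.mul_left _).add (hF.sE i hi hty)
        rw [Finset.even_sum_iff_even_card_odd] at h1
        have h2 : O = (range (Δ + 2)).filter
            fun ℓ => Odd (C.card + cv nd (φ ℓ) (2 * i)) := by
          rw [hO]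
          apply Finset.filter_congr
          intro ℓ _
          exact Nat.not_even_iff_odd
        rw [h2]
        exact h1
      obtain ⟨M, hM1, hM2, hM3, hM4⟩ := nmE (Δ + 2) C.card (zi i) O
        (Finset.filter_subset _ _) hO2 (by omega) (by omega) hzi
      refine ⟨fun ℓ => if ℓ ∈ M then 1 else 0, ?_, ?_, ?_, ?_, ?_, ?_⟩
      · intro ℓ
        dsimp only
        split_ifs <;> omega
      · rw [Finset.sum_boole]
        have h1 : ((range (Δ + 2)).filter fun ℓ => ℓ ∈ M) = M := by
          ext ℓ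
          rw [Finset.mem_filter]
          exact ⟨fun h => h.2, fun h => ⟨hM1 h, h⟩⟩
        rw [h1, hM3]
        rw [hWi0, Finset.card_empty, zero_add] at hsplit
        rw [hsplit]
        rfl
      · exact if_neg hM2
      · intro v hv hnd
        exact absurd hnd (hno v hv)
      · intro _
        exact h8
      · refine (Finset.card_le_card ?_).trans hM4
        intro ℓ hℓ
        rw [Finset.mem_filter] at hℓ
        obtain ⟨hℓ1, hℓ2⟩ := hℓ
        rw [hwn, add_zero] at hℓ2
        rw [Finset.mem_union, Finset.mem_sdiff, Finset.mem_sdiff]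
        by_cases hℓM : ℓ ∈ M
        · right
          refine ⟨hℓM, ?_⟩
          intro hℓO
          rw [hO, Finset.mem_filter] at hℓO
          apply hℓ2
          dsimp only
          rw [if_pos hℓM]
          exact (Nat.not_even_iff_odd.1 hℓO.2).add_odd odd_one
        · left
          refine ⟨?_, hℓM⟩
          rw [hO, Finset.mem_filter]
          refine ⟨hℓ1, ?_⟩
          intro hev
          apply hℓ2
          dsimp only
          rw [if_neg hℓM, add_zero]
          exact hev
    · have hN' : Δ + 2 ≤ C.card := by omega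
      have hWic : Wi.card = 2 * Λ.card := by
        have h1 : Wi.card = ∑ ℓ ∈ Λ, (Wi.filter fun v => lam v = ℓ).card := by
          apply Finset.card_eq_sum_card_fiberwise
          intro v hv
          have hv' : v ∈ W ∧ nd v = 2 * i := by
            have h2 : v ∈ Wi := hv
            rw [hWi, Finset.mem_filter] at h2
            exact h2
          exact hlam v hv'.1 hv'.2
        rw [h1]
        have h3 : ∀ ℓ ∈ Λ, (Wi.filter fun v => lam v = ℓ).card = 2 := by
          intro ℓ hℓ
          rw [← hw2 ℓ hℓ, wn, hWi, Finset.filter_filter]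
        rw [Finset.sum_congr rfl h3, Finset.sum_const, smul_eq_mul, mul_comm]
      set M := ((range (Δ + 2)) \ Λ).erase (zi i) with hM
      have hMc : M.card + Λ.card + 1 = Δ + 2 := by
        have hz1 : zi i ∈ (range (Δ + 2)) \ Λ :=
          Finset.mem_sdiff.2 ⟨Finset.mem_range.2 hzi, hzΛ⟩
        have h1 : M.card + 1 = ((range (Δ + 2)) \ Λ).card := Finset.card_erase_add_one hz1
        have h2 : ((range (Δ + 2)) \ Λ).card + Λ.card = (range (Δ + 2)).card :=
          Finset.card_sdiff_add_card_eq_card hΛ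
        rw [Finset.card_range] at h2
        omega
      refine ⟨fun ℓ => if ℓ ∈ M then 1 else 0, ?_, ?_, ?_, ?_, ?_, ?_⟩
      · intro ℓ
        dsimp only
        split_ifs <;> omega
      · rw [Finset.sum_boole]
        have h1 : ((range (Δ + 2)).filter fun ℓ => ℓ ∈ M) = M := by
          ext ℓ
          rw [Finset.mem_filter]
          refine ⟨fun h => h.2, fun h => ⟨?_, h⟩⟩
          rw [hM, Finset.mem_erase, Finset.mem_sdiff] at h
          exact h.2.1
        rw [h1, Nat.cast_id]
        have h8' : 8 * Wi.card ≤ z := h8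
        have hΛc' : Λ.card = C.card - (Δ + 1) := hΛc
        have hgoal : M.card = (C.filter fun v => v ∉ W).card := by omega
        exact hgoal
      · apply if_neg
        rw [hM]
        exact Finset.notMem_erase _ _
      · intro v hv hnd
        apply if_neg
        rw [hM, Finset.mem_erase, Finset.mem_sdiff]
        intro h
        exact h.2.2 (hlam v hv hnd)
      · intro _
        exact h8
      · refine (Finset.card_filter_le _ _).trans ?_
        rw [Finset.card_range]
        exact hN'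

end Pool.Agent.H46.GA
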