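import Mathlib
import Pool.Agent.H46.GA.Dme
import Pool.Agent.H46.GA.Dmb

/-!
DMD: the numbers of colours in all pieces. Use the STATEMENTS of `dme` (`GA/Dme.lean`) and `dmb` (`GA/Dmb.lean`).

Proof.  Choose `b i` for `i < k`, `ty i`, by `dme`, and `bA i, bB i` for `i < k`, `¬ ty i`, by `dmb`. `a j ℓ := 0` for `2 k ≤ j`; for `j < 2 k`, `i := j / 2`: if `ty i`: `b i ℓ` for `j = 2 i`, `0` for `j = 2 i + 1`; if `¬ ty i`: `bA i ℓ` for `j = 2 i`, `bB i ℓ` for `j = 2 i + 1`.
 For `j < 2 k` write `j = 2 i` or `j = 2 i + 1` with `i = j / 2 < k`. For `¬ ty i` no vertex of `W` is in the pieces `2 i`, `2 i + 1` (`hW.sub`). For `ty i` the piece `2 i + 1` is empty (`hF.odd`).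
 * `sum, le, e1, e2, b1, s3, t1, t2` are immediate (`1 ≤ 3`; sums over `range t`, `Ico t (2 t)`, of numbers `≤ 3`; the set `{ℓ : t ≤ ℓ < 2 t}` has `t` elements). `e2`: from `dme`. `wl`: `8 # ≤ z ≤ Δ` for `j = 2 i`, `ty i`, otherwise the filter is empty (or there is no `v` with `nd v = j`).
 * `cd`: `w ∈ pt nd (2 k)`, `0 < a j (c0 w)`. `¬ ty i`: from `dmb` (`v ∉ W` is automatic), `z ≤ 2 z`. `ty i`: `j = 2 i`, `c0 w ≠ zi i` as `b i (zi i) = 0`, so `w ∉ sf i` by `hzi2`, so `z ≤ #{v ∈ C : ¬ Adj w v}` by `hF.nn`. There is `v ∈ C`, `v ∉ W` (otherwise `∑_{ℓ < Δ + 2} b i ℓ = 0`, but `c0 w < Δ + 2`, `0 < b i (c0 w)`), so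
   `8 #{v ∈ W : nd v = 2 i} ≤ z` and `#{v ∈ C : v ∉ W, ¬ Adj w v} ≥ z - z / 8 ≥ z / 2`.
 * The last two claims are those of `dme` and `dmb` (with `t` the second also for `ℓ < 2 t`).
-/

set_option autoImplicit false

namespace Pool.Agent.H46.GA

open Finset Classical
open Pool.Agent.H71.DN Pool.Agent.H71.DX Pool.Agent.H71.DR Pool.Agent.H71.HL Pool.Agent.H71.DC
open Pool.Agent.H71.TD

theorem dmd {V : Type} [Fintype V] (G : SimpleGraph V) (Δ k : ℕ) (ty : ℕ → Prop)
    (nd qt : V → ℕ) (sf : ℕ → Finset V) (t : ℕ) (φ : ℕ → V → V) (c0 : V → ℕ) (d D r z e : ℕ)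
    (hF : Fx G Δ k ty nd qt sf t φ c0 d D r z e) (zi : ℕ → ℕ) (s : ℕ) (W : Finset V)
    (lam : V → ℕ) (hW : WOut G Δ k ty nd t φ c0 zi s z W lam) (M K : ℕ)
    (hM : Fintype.card V ≤ M * Δ) (hK : 16 * M + 4 ≤ K) (hQ : 13 * (2 * t + r) + 40 ≤ Δ)
    (hz : z ≤ Δ) (hzi : ∀ i < k, zi i < Δ + 2)
    (hzi2 : ∀ i < k, ty i → ∀ w ∈ pt nd (2 * k), w ∈ sf i → c0 w = zi i) :
    ∃ a : ℕ → ℕ → ℕ, Dem G Δ k ty nd t c0 z K W lam a ∧
      (∀ i < k, ty i → ((range (Δ + 2)).filter fun ℓ => ¬ Even ((pt nd (2 * i)).card +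
        cv nd (φ ℓ) (2 * i) + (a (2 * i) ℓ + wn nd W lam (2 * i) ℓ))).card ≤
          (pt nd (2 * i)).card) ∧
      (∀ i < k, ¬ ty i → ∀ ℓ < 2 * t,
        (a (2 * i + 1) ℓ : ℤ) - a (2 * i) ℓ - uu nd (φ ℓ) i = 0) ∧
      ∀ i < k, ¬ ty i → ∑ ℓ ∈ range (Δ + 2),
        max 0 ((a (2 * i + 1) ℓ : ℤ) - a (2 * i) ℓ - uu nd (φ ℓ) i) ≤
          ((pt nd (2 * i)).card : ℤ) := by
  have h5 : 5 ≤ Δ := by omega
  -- the numbers in the expanding parts
  have hE : ∀ i, ∃ b : ℕ → ℕ, i < k → ty i → ((∀ ℓ, b ℓ ≤ 1) ∧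
      ∑ ℓ ∈ range (Δ + 2), b ℓ = ((pt nd (2 * i)).filter fun v => v ∉ W).card ∧
      b (zi i) = 0 ∧ (∀ v ∈ W, nd v = 2 * i → b (lam v) = 0) ∧
      ((∃ v, nd v = 2 * i ∧ v ∉ W) → 8 * (W.filter fun v => nd v = 2 * i).card ≤ z) ∧
      ((range (Δ + 2)).filter fun ℓ => ¬ Even ((pt nd (2 * i)).card + cv nd (φ ℓ) (2 * i) +
        (b ℓ + wn nd W lam (2 * i) ℓ))).card ≤ (pt nd (2 * i)).card) := by
    intro i
    by_cases hi : i < k
    · by_cases ht : ty i
      · obtain ⟨b, hb⟩ := dme G Δ k ty nd qt sf t φ c0 d D r z e hF zi s W lam hW hz h5 i hi ht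
          (hzi i hi)
        exact ⟨b, fun _ _ => hb⟩
      · exact ⟨fun _ => 0, fun _ h => absurd h ht⟩
    · exact ⟨fun _ => 0, fun h => absurd h hi⟩
  choose b hb using hE
  -- the numbers in the nearly bipartite parts
  have hB : ∀ i, ∃ bA bB : ℕ → ℕ, i < k → ¬ ty i → ((∀ ℓ, bA ℓ = 0 ∨ bB ℓ = 0) ∧
      (∀ ℓ, bA ℓ ≤ K ∧ bB ℓ ≤ K) ∧
      ∑ ℓ ∈ range (Δ + 2), bA ℓ = (pt nd (2 * i)).card ∧
      ∑ ℓ ∈ range (Δ + 2), bB ℓ = (pt nd (2 * i + 1)).card ∧
      (∀ w ∈ pt nd (2 * k), bA (c0 w) ≤ 3 ∧ bB (c0 w) ≤ 3) ∧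
      (∀ ℓ < 2 * t, bA ℓ ≤ 3 ∧ bB ℓ ≤ 3) ∧
      (∀ w ∈ pt nd (2 * k), 0 < bA (c0 w) →
        z ≤ ((pt nd (2 * i)).filter fun v => ¬ G.Adj w v).card) ∧
      (∀ w ∈ pt nd (2 * k), 0 < bB (c0 w) →
        z ≤ ((pt nd (2 * i + 1)).filter fun v => ¬ G.Adj w v).card) ∧
      (∀ ℓ < 2 * t, (bB ℓ : ℤ) - bA ℓ - uu nd (φ ℓ) i = 0) ∧
      ∑ ℓ ∈ range (Δ + 2), max 0 ((bB ℓ : ℤ) - bA ℓ - uu nd (φ ℓ) i) ≤
        ((pt nd (2 * i)).card : ℤ)) := by
    intro i
    by_cases hi : i < k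
    · by_cases ht : ty i
      · exact ⟨fun _ => 0, fun _ => 0, fun _ h => absurd ht h⟩
      · obtain ⟨bA, bB, hb⟩ := dmb G Δ k ty nd qt sf t φ c0 d D r z e hF M K hM hK hQ i hi ht
        exact ⟨bA, bB, fun _ _ => hb⟩
    · exact ⟨fun _ => 0, fun _ => 0, fun h => absurd h hi⟩
  choose bA bB hB using hB
  -- the numbers
  obtain ⟨a, hae, hao, haA, haB, hout⟩ : ∃ a : ℕ → ℕ → ℕ,
      (∀ i < k, ty i → ∀ ℓ, a (2 * i) ℓ = b i ℓ) ∧
      (∀ i < k, ty i → ∀ ℓ, a (2 * i + 1) ℓ = 0) ∧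
      (∀ i < k, ¬ ty i → ∀ ℓ, a (2 * i) ℓ = bA i ℓ) ∧
      (∀ i < k, ¬ ty i → ∀ ℓ, a (2 * i + 1) ℓ = bB i ℓ) ∧
      (∀ j, 2 * k ≤ j → ∀ ℓ, a j ℓ = 0) := by
    refine ⟨fun j ℓ => if j < 2 * k then (if ty (j / 2) then
      (if j % 2 = 0 then b (j / 2) ℓ else 0) else
      (if j % 2 = 0 then bA (j / 2) ℓ else bB (j / 2) ℓ)) else 0, ?_, ?_, ?_, ?_, ?_⟩
    · intro i hi ht ℓ
      have e1 : 2 * i < 2 * k := by omega
      have e2 : 2 * i / 2 = i := by omega
      have e3 : 2 * i % 2 = 0 := by omega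
      simp only [if_pos e1, e2, if_pos ht, if_pos e3]
    · intro i hi ht ℓ
      have e1 : 2 * i + 1 < 2 * k := by omega
      have e2 : (2 * i + 1) / 2 = i := by omega
      have e3 : ¬ (2 * i + 1) % 2 = 0 := by omega
      simp only [if_pos e1, e2, if_pos ht, if_neg e3]
    · intro i hi ht ℓ
      have e1 : 2 * i < 2 * k := by omega
      have e2 : 2 * i / 2 = i := by omega
      have e3 : 2 * i % 2 = 0 := by omega
      simp only [if_pos e1, e2, if_neg ht, if_pos e3]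
    · intro i hi ht ℓ
      have e1 : 2 * i + 1 < 2 * k := by omega
      have e2 : (2 * i + 1) / 2 = i := by omega
      have e3 : ¬ (2 * i + 1) % 2 = 0 := by omega
      simp only [if_pos e1, e2, if_neg ht, if_neg e3]
    · intro j hj ℓ
      have e1 : ¬ j < 2 * k := by omega
      simp only [if_neg e1]
  have hcase : ∀ P : ℕ → Prop, (∀ i < k, P (2 * i)) → (∀ i < k, P (2 * i + 1)) →
      ∀ j < 2 * k, P j := by
    intro P h1 h2 j hj
    rcases Nat.mod_two_eq_zero_or_one j with h3 | h3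
    · have e1 : 2 * (j / 2) = j := by omega
      have e2 := h1 (j / 2) (by omega)
      rw [e1] at e2
      exact e2
    · have e1 : 2 * (j / 2) + 1 = j := by omega
      have e2 := h2 (j / 2) (by omega)
      rw [e1] at e2
      exact e2
  -- no vertex of `W` is in a nearly bipartite part
  have hWn : ∀ i < k, ¬ ty i → ∀ v, (nd v = 2 * i ∨ nd v = 2 * i + 1) → v ∉ W := by
    intro i hi ht v hv hw
    have e1 := (hW.sub v hw).2
    have e2 : nd v / 2 = i := by omega
    rw [e2] at e1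
    exact ht e1
  have hodd : ∀ i < k, ty i → ∀ v, nd v ≠ 2 * i + 1 := by
    intro i hi ht v hv
    have e1 : v ∈ pt nd (2 * i + 1) := by
      unfold pt
      rw [Finset.mem_filter]
      exact ⟨Finset.mem_univ v, hv⟩
    rw [hF.odd i hi ht] at e1
    exact absurd e1 (Finset.notMem_empty v)
  have hmp : ∀ j v, v ∈ pt nd j ↔ nd v = j := by
    intro j v
    unfold pt
    rw [Finset.mem_filter]
    exact ⟨fun h => h.2, fun h => ⟨Finset.mem_univ v, h⟩⟩
  have h3 : ∀ j < 2 * k, ∀ ℓ < 2 * t, a j ℓ ≤ 3 := by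
    apply hcase
    · intro i hi ℓ hℓ
      by_cases ht : ty i
      · rw [hae i hi ht]
        have := (hb i hi ht).1 ℓ
        omega
      · rw [haA i hi ht]
        exact ((hB i hi ht).2.2.2.2.2.1 ℓ hℓ).1
    · intro i hi ℓ hℓ
      by_cases ht : ty i
      · rw [hao i hi ht]
        omega
      · rw [haB i hi ht]
        exact ((hB i hi ht).2.2.2.2.2.1 ℓ hℓ).2
  refine ⟨a, ⟨?_, ?_, ?_, ?_, ?_, ?_, ?_, ?_, ?_, ?_⟩, ?_, ?_, ?_⟩
  · -- sum
    apply hcase
    · intro i hi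
      by_cases ht : ty i
      · simp only [hae i hi ht]
        exact (hb i hi ht).2.1
      · simp only [haA i hi ht]
        rw [(hB i hi ht).2.2.1, Finset.filter_true_of_mem]
        intro v hv
        exact hWn i hi ht v (Or.inl ((hmp _ v).1 hv))
    · intro i hi
      by_cases ht : ty i
      · simp only [hao i hi ht]
        rw [hF.odd i hi ht, Finset.filter_empty, Finset.card_empty, Finset.sum_const_zero]
      · simp only [haB i hi ht]
        rw [(hB i hi ht).2.2.2.1, Finset.filter_true_of_mem]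
        intro v hv
        exact hWn i hi ht v (Or.inr ((hmp _ v).1 hv))
  · -- le
    intro j ℓ
    by_cases hj : j < 2 * k
    · revert ℓ
      revert j
      intro j hj
      revert hj
      revert j
      apply hcase
      · intro i hi ℓ
        by_cases ht : ty i
        · rw [hae i hi ht]
          have := (hb i hi ht).1 ℓ
          omega
        · rw [haA i hi ht]
          exact ((hB i hi ht).2.1 ℓ).1
      · intro i hi ℓ
        by_cases ht : ty i
        · rw [hao i hi ht]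
          omega
        · rw [haB i hi ht]
          exact ((hB i hi ht).2.1 ℓ).2
    · rw [hout j (by omega)]
      omega
  · -- e1
    intro i hi ht ℓ
    rw [hae i hi ht]
    exact (hb i hi ht).1 ℓ
  · -- e2
    intro i hi ht v hv hn
    rw [hae i hi ht]
    exact (hb i hi ht).2.2.2.1 v hv hn
  · -- b1
    intro i hi ht ℓ
    rw [haA i hi ht, haB i hi ht]
    exact (hB i hi ht).1 ℓ
  · -- wl
    apply hcase
    · intro i hi hv
      by_cases ht : ty i
      · exact ((hb i hi ht).2.2.2.2.1 hv).trans hz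
      · rw [Finset.filter_false_of_mem]
        · rw [Finset.card_empty]
          omega
        · intro v hv2 hn
          exact hWn i hi ht v (Or.inl hn) hv2
    · intro i hi hv
      by_cases ht : ty i
      · obtain ⟨v, hv1, _⟩ := hv
        exact absurd hv1 (hodd i hi ht v)
      · rw [Finset.filter_false_of_mem]
        · rw [Finset.card_empty]
          omega
        · intro v hv2 hn
          exact hWn i hi ht v (Or.inr hn) hv2
  · -- cd
    intro w hw
    apply hcase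
    · intro i hi h0
      by_cases ht : ty i
      · rw [hae i hi ht] at h0
        obtain ⟨b1, b2, b3, b4, b5, b6⟩ := hb i hi ht
        have hwn : w ∉ sf i := by
          intro h1
          rw [hzi2 i hi ht w hw h1, b3] at h0
          omega
        have hnn := (hF.nn i hi w hw hwn).1
        have hex : ∃ v, nd v = 2 * i ∧ v ∉ W := by
          by_contra hcon
          push Not at hcon
          have e1 : ((pt nd (2 * i)).filter fun v => v ∉ W).card = 0 := by
            rw [Finset.card_eq_zero, Finset.filter_eq_empty_iff]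
            intro v hv hvw
            exact hvw (hcon v ((hmp _ v).1 hv))
          rw [e1] at b2
          have e2 := (Finset.sum_eq_zero_iff.1 b2) (c0 w)
            (Finset.mem_range.2 (hF.c1 w hw).2.1)
          omega
        have h8 := b5 hex
        have hsub : ((pt nd (2 * i)).filter fun v => ¬ G.Adj w v) ⊆
            ((pt nd (2 * i)).filter fun v => v ∉ W ∧ ¬ G.Adj w v) ∪
              (W.filter fun v => nd v = 2 * i) := by
          intro v hv
          rw [Finset.mem_filter] at hv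
          rw [Finset.mem_union, Finset.mem_filter, Finset.mem_filter]
          by_cases hvw : v ∈ W
          · exact Or.inr ⟨hvw, (hmp _ v).1 hv.1⟩
          · exact Or.inl ⟨hv.1, hvw, hv.2⟩
        have hc := (Finset.card_le_card hsub).trans (Finset.card_union_le _ _)
        omega
      · rw [haA i hi ht] at h0
        have e1 := (hB i hi ht).2.2.2.2.2.2.1 w hw h0
        have e2 : ((pt nd (2 * i)).filter fun v => ¬ G.Adj w v) ⊆
            ((pt nd (2 * i)).filter fun v => v ∉ W ∧ ¬ G.Adj w v) := by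
          intro v hv
          rw [Finset.mem_filter] at hv ⊢
          exact ⟨hv.1, hWn i hi ht v (Or.inl ((hmp _ v).1 hv.1)), hv.2⟩
        have e3 := Finset.card_le_card e2
        omega
    · intro i hi h0
      by_cases ht : ty i
      · rw [hao i hi ht] at h0
        omega
      · rw [haB i hi ht] at h0
        have e1 := (hB i hi ht).2.2.2.2.2.2.2.1 w hw h0
        have e2 : ((pt nd (2 * i + 1)).filter fun v => ¬ G.Adj w v) ⊆
            ((pt nd (2 * i + 1)).filter fun v => v ∉ W ∧ ¬ G.Adj w v) := by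
          intro v hv
          rw [Finset.mem_filter] at hv ⊢
          exact ⟨hv.1, hWn i hi ht v (Or.inr ((hmp _ v).1 hv.1)), hv.2⟩
        have e3 := Finset.card_le_card e2
        omega
  · -- s3
    intro w hw
    apply hcase
    · intro i hi
      by_cases ht : ty i
      · rw [hae i hi ht]
        have := (hb i hi ht).1 (c0 w)
        omega
      · rw [haA i hi ht]
        exact ((hB i hi ht).2.2.2.2.1 w hw).1
    · intro i hi
      by_cases ht : ty i
      · rw [hao i hi ht]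
        omega
      · rw [haB i hi ht]
        exact ((hB i hi ht).2.2.2.2.1 w hw).2
  · -- t1
    intro j hj
    have e1 : ∑ ℓ ∈ range t, a j ℓ ≤ ∑ ℓ ∈ range t, 3 := by
      apply Finset.sum_le_sum
      intro ℓ hℓ
      rw [Finset.mem_range] at hℓ
      exact h3 j hj ℓ (by omega)
    rw [Finset.sum_const, Finset.card_range, smul_eq_mul] at e1
    omega
  · -- t2
    intro j hj
    have e1 : ∑ ℓ ∈ Ico t (2 * t), a j ℓ ≤ ∑ ℓ ∈ Ico t (2 * t), 3 := by
      apply Finset.sum_le_sum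
      intro ℓ hℓ
      rw [Finset.mem_Ico] at hℓ
      exact h3 j hj ℓ hℓ.2
    rw [Finset.sum_const, Nat.card_Ico, smul_eq_mul] at e1
    omega
  · intro i hi ht
    simp only [hae i hi ht]
    exact (hb i hi ht).2.2.2.2.2
  · intro i hi ht ℓ hℓ
    rw [haA i hi ht, haB i hi ht]
    exact (hB i hi ht).2.2.2.2.2.2.2.2.1 ℓ hℓ
  · intro i hi ht
    simp only [haA i hi ht, haB i hi ht]
    exact (hB i hi ht).2.2.2.2.2.2.2.2.2

end Pool.Agent.H46.GA
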