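import Mathlib
import Pool.Agent.H46.GA.Grd
import Pool.Agent.H46.GA.Defs

/-!
STA: the vertices with special labels. Use the STATEMENT of `grd` (`GA/Grd.lean`).

Proof.  If `V` is empty everything is trivial (`T := ∅`, `lb := id`). Slots: `σ := V × ℕ × ℕ`, `S := {(w, j, m) : w ∈ pt nd (2 k), j < 2 k, m < 3, m < a j (c0 w)}` (a filter of a product of finsets), `#S ≤ r * (2 k) * 3` (`hF.lo`). `lab (w, j, m) := c0 w`. By `hF.c2` the slots with the same label have the same `w`: at most `6 k` of them. Candidates: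
 `Cd (w, j, m) := {v : nd v = j, v ∉ W, ¬ G.Adj w v, φ (c0 w) v = v, dg (Fg G k ty nd) v ≤ e}`. For a slot in `S` we have `0 < a j (c0 w)`, so `2 #{v : nd v = j, v ∉ W, ¬ G.Adj w v} ≥ z` (`hA.cd`), at most `D` vertices `v` with `nd v < 2 k` have `φ (c0 w) v ≠ v` (`hF.sm`, `c0 w < Δ + 2` by `hF.c1`), at most `e` have `dg F v > e` (`hF.hi`): `2 #(Cd) ≥ z - 2 D - 2 e`.
 `grd` with `F := Fg G k ty nd`, `K0 := 6 k`, `d0 := e`: `#S + 6 k e < #(Cd s)` by `hn`. It gives `ch`. `T := S.image ch`, `lb v := (s v).1` where `s v ∈ S` with `ch (s v) = v` for `v ∈ T` (unique by injectivity; `lb v := v` otherwise).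
 * `#T ≤ #S`. For `w`, `j`: the slots `(w, j, m) ∈ S` are the `m < a j (c0 w)` (`hA.s3`: `a j (c0 w) ≤ 3`), `ch` is injective on `S`, and `{v ∈ T : nd v = j, lb v = w}` is the image of these slots (`nd (ch s) = s.2.1`).
 * last claim: `u, v ∈ T` with slots `(w, j, m)`, `(w, j', m')`, `G.Adj u v`. By `grd` they are not adjacent in `Fg G k ty nd`, so they are adjacent in `Hg G k ty nd`: `i := nd u / 2 = nd v / 2 < k`. If `ty i` then `j = j' = 2 i` (`hF.odd`), and `a (2 i) (c0 w) ≤ 1` (`hA.e1`) implies `m = m' = 0`, so `u = v`, a contradiction.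
   If `¬ ty i` then `nd u ≠ nd v`, so `{j, j'} = {2 i, 2 i + 1}` and both `a (2 i) (c0 w)`, `a (2 i + 1) (c0 w)` are positive, against `hA.b1`.
-/

set_option autoImplicit false

namespace Pool.Agent.H46.GA

open Finset Classical
open Pool.Agent.H71.DN Pool.Agent.H71.DX Pool.Agent.H71.DR Pool.Agent.H71.HL Pool.Agent.H71.DC
open Pool.Agent.H71.TD

theorem sta {V : Type} [Fintype V] (G : SimpleGraph V) (Δ k : ℕ) (ty : ℕ → Prop)
    (nd qt : V → ℕ) (sf : ℕ → Finset V) (t : ℕ) (φ : ℕ → V → V) (c0 : V → ℕ) (d D r z e : ℕ)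
    (hF : Fx G Δ k ty nd qt sf t φ c0 d D r z e) (K : ℕ) (W : Finset V) (lam : V → ℕ)
    (a : ℕ → ℕ → ℕ) (hA : Dem G Δ k ty nd t c0 z K W lam a)
    (hn : 2 * (D + e + 6 * k * r + 6 * k * e) < z) :
    ∃ (T : Finset V) (lb : V → V), (∀ v ∈ T, nd v < 2 * k ∧ v ∉ W) ∧ T.card ≤ 6 * k * r ∧
      (∀ v ∈ T, lb v ∈ pt nd (2 * k) ∧ ¬ G.Adj (lb v) v ∧ φ (c0 (lb v)) v = v) ∧
      (∀ w ∈ pt nd (2 * k), ∀ j < 2 * k,
        (T.filter fun v => nd v = j ∧ lb v = w).card = a j (c0 w)) ∧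
      ∀ u ∈ T, ∀ v ∈ T, lb u = lb v → ¬ G.Adj u v := by
  rcases isEmpty_or_nonempty V with hE | hV
  · exact ⟨∅, id, by simp, by simp, by simp, fun w => isEmptyElim w, by simp⟩
  obtain ⟨S, hS⟩ : ∃ S : Finset (V × ℕ × ℕ), S = ((pt nd (2 * k)) ×ˢ (range (2 * k)) ×ˢ
    (range 3)).filter fun s => s.2.2 < a s.2.1 (c0 s.1) := ⟨_, rfl⟩
  have mS : ∀ s, s ∈ S ↔ (s.1 ∈ pt nd (2 * k) ∧ s.2.1 < 2 * k ∧ s.2.2 < 3) ∧
      s.2.2 < a s.2.1 (c0 s.1) := by
    intro s
    rw [hS, mem_filter, mem_product, mem_product, mem_range, mem_range]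
  have cS : S.card ≤ 6 * k * r := by
    rw [hS]
    refine (card_filter_le _ _).trans ?_
    rw [card_product, card_product, card_range, card_range]
    have h1 := Nat.mul_le_mul_right (2 * k * 3) hF.lo
    refine h1.trans (le_of_eq ?_)
    ring
  obtain ⟨Cd, hCd⟩ : ∃ Cd : V × ℕ × ℕ → Finset V, ∀ s, Cd s = univ.filter fun v =>
    nd v = s.2.1 ∧ v ∉ W ∧ ¬ G.Adj s.1 v ∧ φ (c0 s.1) v = v ∧ dg (Fg G k ty nd) v ≤ e :=
    ⟨_, fun _ => rfl⟩
  have mC : ∀ s v, v ∈ Cd s ↔ nd v = s.2.1 ∧ v ∉ W ∧ ¬ G.Adj s.1 v ∧ φ (c0 s.1) v = v ∧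
      dg (Fg G k ty nd) v ≤ e := by
    intro s v
    rw [hCd, mem_filter]
    exact ⟨fun h => h.2, fun h => ⟨mem_univ _, h⟩⟩
  obtain ⟨ch, k1, k2, k3⟩ := grd (Fg G k ty nd) S (fun s => c0 s.1) Cd (6 * k) e
    (by
      intro s hs
      have h1 : (S.filter fun s' => c0 s'.1 = c0 s.1) ⊆ {s.1} ×ˢ (range (2 * k)) ×ˢ (range 3) := by
        intro s' hs'
        rw [mem_filter, mS] at hs'
        rw [mem_product, mem_product, mem_singleton, mem_range, mem_range]
        exact ⟨hF.c2 _ hs'.1.1.1 _ ((mS s).1 hs).1.1 hs'.2, hs'.1.1.2⟩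
      refine (card_le_card h1).trans ?_
      rw [card_product, card_product, card_range, card_range, card_singleton]
      omega)
    (fun s _ v hv => ((mC s v).1 hv).2.2.2.2)
    (by
      intro s hs
      obtain ⟨⟨h1, h2, h3⟩, h4⟩ := (mS s).1 hs
      have h5 := hA.cd s.1 h1 s.2.1 h2 (by omega)
      have h6 : ((pt nd s.2.1).filter fun v => v ∉ W ∧ ¬ G.Adj s.1 v) ⊆ Cd s ∪
          (univ.filter fun v => nd v < 2 * k ∧ φ (c0 s.1) v ≠ v) ∪
          (univ.filter fun v => nd v < 2 * k ∧ e < dg (Fg G k ty nd) v) := by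
        intro v hv
        rw [mem_filter] at hv
        have h7 : nd v = s.2.1 := (mem_filter.1 hv.1).2
        rw [mem_union, mem_union, mC, mem_filter, mem_filter]
        by_cases h8 : φ (c0 s.1) v = v
        · by_cases h9 : dg (Fg G k ty nd) v ≤ e
          · exact Or.inl (Or.inl ⟨h7, hv.2.1, hv.2.2, h8, h9⟩)
          · exact Or.inr ⟨mem_univ _, by omega, by omega⟩
        · exact Or.inl (Or.inr ⟨mem_univ _, by omega, h8⟩)
      have h7 := card_le_card h6
      have h8 := card_union_le (Cd s ∪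
          (univ.filter fun v => nd v < 2 * k ∧ φ (c0 s.1) v ≠ v))
          (univ.filter fun v => nd v < 2 * k ∧ e < dg (Fg G k ty nd) v)
      have h9 := card_union_le (Cd s) (univ.filter fun v => nd v < 2 * k ∧ φ (c0 s.1) v ≠ v)
      have h10 := hF.sm (c0 s.1) (hF.c1 s.1 h1).2.1
      have h11 := hF.hi
      omega) hV
  have hlb : ∀ v, ∃ w : V, ∀ s ∈ S, ch s = v → s.1 = w := by
    intro v
    by_cases h : ∃ s ∈ S, ch s = v
    · obtain ⟨s, hs, he⟩ := h
      exact ⟨s.1, fun s' hs' he' => by rw [k2 s' hs' s hs (he'.trans he.symm)]⟩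
    · exact ⟨v, fun s hs he => absurd ⟨s, hs, he⟩ h⟩
  choose lb hlb using hlb
  have lb1 : ∀ s ∈ S, lb (ch s) = s.1 := fun s hs => (hlb (ch s) s hs rfl).symm
  refine ⟨S.image ch, lb, ?_, card_image_le.trans cS, ?_, ?_, ?_⟩
  · intro v hv
    obtain ⟨s, hs, rfl⟩ := mem_image.1 hv
    have h1 := (mC s _).1 (k1 s hs)
    exact ⟨by rw [h1.1]; exact ((mS s).1 hs).1.2.1, h1.2.1⟩
  · intro v hv
    obtain ⟨s, hs, rfl⟩ := mem_image.1 hv
    have h1 := (mC s _).1 (k1 s hs)
    rw [lb1 s hs]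
    exact ⟨((mS s).1 hs).1.1, h1.2.2.1, h1.2.2.2.1⟩
  · intro w hw j hj
    have h1 : (range (a j (c0 w))).card = ((S.image ch).filter fun v => nd v = j ∧ lb v = w).card := by
      have h2 : ∀ m, m < a j (c0 w) → (w, j, m) ∈ S := by
        intro m hm
        have h3 := hA.s3 w hw j hj
        exact (mS _).2 ⟨⟨hw, hj, by dsimp only; omega⟩, hm⟩
      refine card_bij (fun m _ => ch (w, j, m)) ?_ ?_ ?_
      · intro m hm
        have h4 := h2 m (mem_range.1 hm)
        rw [mem_filter]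
        exact ⟨mem_image_of_mem _ h4, ((mC _ _).1 (k1 _ h4)).1, lb1 _ h4⟩
      · intro m hm m' hm' h
        have h4 := k2 _ (h2 m (mem_range.1 hm)) _ (h2 m' (mem_range.1 hm')) h
        rw [Prod.mk.injEq, Prod.mk.injEq] at h4
        exact h4.2.2
      · intro v hv
        rw [mem_filter] at hv
        obtain ⟨s, hs, rfl⟩ := mem_image.1 hv.1
        have h4 := ((mC s _).1 (k1 s hs)).1
        rw [lb1 s hs] at hv
        have h5 := ((mS s).1 hs).2
        obtain ⟨s1, s2, s3⟩ := s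
        dsimp only at h4 h5 hv
        have h6 : s2 = j := h4.symm.trans hv.2.1
        have h7 : s1 = w := hv.2.2
        subst h6 h7
        exact ⟨s3, mem_range.2 h5, rfl⟩
    rw [← h1, card_range]
  · intro u hu v hv huv hG
    obtain ⟨s, hs, rfl⟩ := mem_image.1 hu
    obtain ⟨s', hs', rfl⟩ := mem_image.1 hv
    rw [lb1 s hs, lb1 s' hs'] at huv
    have h1 := k3 s hs s' hs' (by rw [huv])
    have h2 : (Hg G k ty nd).Adj (ch s) (ch s') := by
      by_contra h3
      exact h1 ⟨hG, h3⟩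
    have h3 := ((mC s _).1 (k1 s hs)).1
    have h4 := ((mC s' _).1 (k1 s' hs')).1
    have g1 := (mS s).1 hs
    have g2 := (mS s').1 hs'
    rw [← huv] at g2
    obtain ⟨-, h5, h6, h7, h8⟩ := h2
    rw [h3] at h5 h7 h8
    rw [h4] at h6 h7 h8
    have hne : s.2.1 = s'.2.1 → s.2.2 = s'.2.2 → False := by
      intro h9 h10
      have h11 : s = s' := Prod.ext huv (Prod.ext h9 h10)
      rw [h11] at hG
      exact G.irrefl hG
    have hik : s.2.1 / 2 < k := by omega
    by_cases hty : ty (s.2.1 / 2)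
    · have hodd : ∀ (x : V), nd x < 2 * k → nd x / 2 = s.2.1 / 2 → nd x = 2 * (s.2.1 / 2) := by
        intro x hx1 hx2
        by_contra h9
        have h10 : nd x = 2 * (s.2.1 / 2) + 1 := by omega
        have h11 : x ∈ pt nd (2 * (s.2.1 / 2) + 1) := mem_filter.2 ⟨mem_univ _, h10⟩
        rw [hF.odd _ hik hty] at h11
        exact notMem_empty _ h11
      have h9 := hodd (ch s) (by omega) (by rw [h3])
      have h10 := hodd (ch s') (by omega) (by rw [h4, h7])
      rw [h3] at h9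
      rw [h4] at h10
      have h11 := hA.e1 _ hik hty (c0 s.1)
      rw [← h9] at h11
      have g3 := g2.2
      rw [h10, ← h9] at g3
      exact hne (by rw [h10, ← h9]) (by omega)
    · have hne2 := h8.resolve_left hty
      have h9 := hA.b1 _ hik hty (c0 s.1)
      have g3 := g1.2
      have g4 := g2.2
      rcases Nat.mod_two_eq_zero_or_one s.2.1 with h10 | h10
      · have e1 : s.2.1 = 2 * (s.2.1 / 2) := by omega
        have e2 : s'.2.1 = 2 * (s.2.1 / 2) + 1 := by omega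
        rw [← e2, ← e1] at h9
        omega
      · have e1 : s.2.1 = 2 * (s.2.1 / 2) + 1 := by omega
        have e2 : s'.2.1 = 2 * (s.2.1 / 2) := by omega
        rw [← e1, ← e2] at h9
        omega

end Pool.Agent.H46.GA
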