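import Mathlib
import Pool.Agent.H2.NE.Cls

/-!
CL2: classes of prescribed sizes with two blocks `[0, t)`, `[t, 2 t)` of labels: vertices with `x` do not get labels of the first block, vertices without `x` do not get labels of the second one. Use the STATEMENT of `cls`
(`Pool/Agent/H2/NE/Cls.lean`, theorem `Pool.Agent.H2.NE.cls`).

Proof.  For every `i` there is `b i : ℕ → ℕ` with `b i ℓ ≤ a i ℓ`, `b i ℓ = 0` for `ℓ < t`, `b i ℓ = a i ℓ` for `t ≤ ℓ < 2 t` and `∑ ℓ ∈ range N, b i ℓ = m` where `m := #{v : pool v = i ∧ x v}`: the smallest possible sum is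
`∑ ℓ ∈ Ico t (2 t), a i ℓ ≤ m` (`hX`), the largest possible sum is `∑ ℓ ∈ range N, a i ℓ - ∑ ℓ ∈ range t, a i ℓ = #{pool v = i} - ∑ ℓ ∈ range t, a i ℓ ≥ m` (`hsum`, `hY`, `2 t ≤ N`), and all values between are possible (general lemma: for `lo ≤ hi` pointwise
and `∑ lo ≤ m ≤ ∑ hi` over a finite set there is `b` with `lo ≤ b ≤ hi` and `∑ b = m`; induction on `m - ∑ lo`, or on the finite set).
Apply `cls` with `ι × Bool`, `pool' v := (pool v, decide (x v))`, `s (i, true) ℓ := b i ℓ`, `s (i, false) ℓ := a i ℓ - b i ℓ` for `ℓ < N` (`0` for `N ≤ ℓ`), `S, d, f, g`: `Fintype.card (ι × Bool) = 2 * Fintype.card ι`. `hsum` for `false`: `∑ (a - b) = #{pool = i} - m = #{pool = i ∧ ¬ x}`.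
The number of `v` with `pool v = i`, `c v = ℓ` is `b i ℓ + (a i ℓ - b i ℓ)`. If `x v` and `c v = ℓ < t` then `s (pool v, true) ℓ = b = 0` but `v` is counted, a contradiction; similarly for `¬ x v`, `t ≤ ℓ < 2 t`.
-/

set_option autoImplicit false

namespace Pool.Agent.H46.GA

open Finset Classical
open Pool.Agent.H71.DN

private theorem cl2_card {V : Type} [Fintype V] {p q : V → Prop} {i1 : DecidablePred p}
    {i2 : DecidablePred q} (h : ∀ v, p v ↔ q v) :
    (@Finset.filter V p i1 univ).card = (@Finset.filter V q i2 univ).card := by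
  apply congrArg Finset.card
  ext v
  rw [Finset.mem_filter, Finset.mem_filter, h v]

private theorem cl2_mid (s : Finset ℕ) (lo hi : ℕ → ℕ) (h : ∀ x, lo x ≤ hi x) :
    ∀ m, ∑ x ∈ s, lo x ≤ m → m ≤ ∑ x ∈ s, hi x →
      ∃ b : ℕ → ℕ, (∀ x, lo x ≤ b x ∧ b x ≤ hi x) ∧ ∑ x ∈ s, b x = m := by
  induction s using Finset.induction_on with
  | empty =>
    intro m h1 h2
    refine ⟨lo, fun x => ⟨le_rfl, h x⟩, ?_⟩
    rw [sum_empty] at h2 ⊢
    omega
  | insert y s hy ih =>
    intro m h1 h2
    rw [sum_insert hy] at h1 h2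
    have h3 : ∑ x ∈ s, lo x ≤ ∑ x ∈ s, hi x := Finset.sum_le_sum fun x _ => h x
    have h4 := h y
    obtain ⟨k, hk1, hk2, hk3, hk4⟩ : ∃ k, lo y ≤ k ∧ k ≤ hi y ∧ ∑ x ∈ s, lo x + k ≤ m ∧
        m ≤ ∑ x ∈ s, hi x + k := by
      by_cases hc : hi y ≤ m - ∑ x ∈ s, lo x
      · exact ⟨hi y, h4, le_rfl, by omega, by omega⟩
      · exact ⟨m - ∑ x ∈ s, lo x, by omega, by omega, by omega, by omega⟩
    obtain ⟨b, hb1, hb2⟩ := ih (m - k) (by omega) (by omega)
    refine ⟨fun x => if x = y then k else b x, ?_, ?_⟩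
    · intro x
      change lo x ≤ (if x = y then k else b x) ∧ (if x = y then k else b x) ≤ hi x
      by_cases hx : x = y
      · subst hx
        rw [if_pos rfl]
        exact ⟨hk1, hk2⟩
      · rw [if_neg hx]
        exact hb1 x
    · rw [sum_insert hy, if_pos rfl]
      have h5 : ∑ x ∈ s, (if x = y then k else b x) = ∑ x ∈ s, b x := by
        apply Finset.sum_congr rfl
        intro x hx
        rw [if_neg]
        rintro rfl
        exact hy hx
      rw [h5, hb2]
      omega

theorem cl2 {V ι : Type} [Fintype V] [Fintype ι] (G : SimpleGraph V) (N t : ℕ) (ht : 2 * t ≤ N)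
    (pool : V → ι) (x : V → Prop) (forb : ℕ → Finset V) (a : ι → ℕ → ℕ) (S d f g : ℕ)
    (ha : ∀ i ℓ, a i ℓ ≤ S)
    (hsum : ∀ i, ∑ ℓ ∈ range N, a i ℓ = (univ.filter fun v => pool v = i).card)
    (hX : ∀ i, ∑ ℓ ∈ Ico t (2 * t), a i ℓ ≤ (univ.filter fun v => pool v = i ∧ x v).card)
    (hY : ∀ i, ∑ ℓ ∈ range t, a i ℓ ≤ (univ.filter fun v => pool v = i ∧ ¬ x v).card)
    (hd : ∀ v, dg G v ≤ d) (hf : ∀ v, ((range N).filter fun ℓ => v ∈ forb ℓ).card ≤ f)
    (hg : ∀ ℓ < N, (forb ℓ).card ≤ g)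
    (hbig : ∀ v, S * (f + d) + g + 2 * Fintype.card ι * S * d <
      (univ.filter fun u => pool u = pool v ∧ (x u ↔ x v)).card) :
    ∃ c : V → ℕ, (∀ v, c v < N) ∧ (∀ v, v ∉ forb (c v)) ∧ (∀ u v, G.Adj u v → c u ≠ c v) ∧
      (∀ i, ∀ ℓ < N, (univ.filter fun v => pool v = i ∧ c v = ℓ).card = a i ℓ) ∧
      (∀ v, x v → t ≤ c v) ∧ ∀ v, ¬ x v → c v < t ∨ 2 * t ≤ c v := by
  -- the intermediate functions
  have hsplit : ∀ i, (univ.filter fun v => pool v = i).card =
      (univ.filter fun v => pool v = i ∧ x v).card +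
      (univ.filter fun v => pool v = i ∧ ¬ x v).card := by
    intro i
    rw [← Finset.card_filter_add_card_filter_not (s := univ.filter fun v => pool v = i) x,
      filter_filter, filter_filter]
  have hb : ∀ i, ∃ b : ℕ → ℕ, (∀ ℓ, (if t ≤ ℓ ∧ ℓ < 2 * t then a i ℓ else 0) ≤ b ℓ ∧
      b ℓ ≤ (if ℓ < t then 0 else a i ℓ)) ∧
      ∑ ℓ ∈ range N, b ℓ = (univ.filter fun v => pool v = i ∧ x v).card := by
    intro i
    apply cl2_mid
    · intro ℓ
      by_cases h1 : ℓ < t
      · rw [if_neg (by omega)]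
        exact Nat.zero_le _
      · rw [if_neg h1]
        by_cases h2 : t ≤ ℓ ∧ ℓ < 2 * t
        · rw [if_pos h2]
        · rw [if_neg h2]
          exact Nat.zero_le _
    · rw [← Finset.sum_filter]
      have e : (range N).filter (fun ℓ => t ≤ ℓ ∧ ℓ < 2 * t) = Ico t (2 * t) := by
        ext ℓ
        rw [mem_filter, mem_range, mem_Ico]
        omega
      rw [e]
      exact hX i
    · have h1 : ∑ ℓ ∈ range N, (if ℓ < t then 0 else a i ℓ) + ∑ ℓ ∈ range t, a i ℓ =
          ∑ ℓ ∈ range N, a i ℓ := by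
        have e : range t = (range N).filter fun ℓ => ℓ < t := by
          ext ℓ
          rw [mem_filter, mem_range, mem_range]
          omega
        rw [e, Finset.sum_filter, ← Finset.sum_add_distrib]
        apply Finset.sum_congr rfl
        intro ℓ _
        by_cases h2 : ℓ < t
        · rw [if_pos h2, if_pos h2, zero_add]
        · rw [if_neg h2, if_neg h2, add_zero]
      have h2 := hsum i
      have h3 := hsplit i
      have h4 := hY i
      omega
  choose b hb1 hb2 using hb
  have hba : ∀ i ℓ, b i ℓ ≤ a i ℓ := by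
    intro i ℓ
    refine (hb1 i ℓ).2.trans ?_
    by_cases h : ℓ < t
    · rw [if_pos h]
      exact Nat.zero_le _
    · rw [if_neg h]
  -- the pools with the block
  obtain ⟨c, hc1, hc2, hc3, hc4⟩ := Pool.Agent.H2.NE.cls G N (fun v => (pool v, decide (x v))) forb
    (fun p ℓ => if p.2 = true then b p.1 ℓ else a p.1 ℓ - b p.1 ℓ) S d f g
    (by
      rintro ⟨i, p⟩ ℓ
      have h1 := hba i ℓ
      have h2 := ha i ℓ
      cases p
      · change (if false = true then b i ℓ else a i ℓ - b i ℓ) ≤ S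
        rw [if_neg (by decide)]
        omega
      · change (if true = true then b i ℓ else a i ℓ - b i ℓ) ≤ S
        rw [if_pos rfl]
        omega)
    (by
      rintro ⟨i, p⟩
      cases p
      · change ∑ ℓ ∈ range N, (if false = true then b i ℓ else a i ℓ - b i ℓ) = _
        have h1 : ∑ ℓ ∈ range N, (if false = true then b i ℓ else a i ℓ - b i ℓ) +
            ∑ ℓ ∈ range N, b i ℓ = ∑ ℓ ∈ range N, a i ℓ := by
          rw [← Finset.sum_add_distrib]
          apply Finset.sum_congr rfl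
          intro ℓ _
          rw [if_neg (by decide)]
          exact Nat.sub_add_cancel (hba i ℓ)
        have h3 := hb2 i
        have h4 := hsum i
        have h5 := hsplit i
        refine Eq.trans (b := (univ.filter fun v => pool v = i ∧ ¬ x v).card) (by omega) ?_
        exact cl2_card fun v => by rw [Prod.mk.injEq, decide_eq_false_iff_not]
      · change ∑ ℓ ∈ range N, (if true = true then b i ℓ else a i ℓ - b i ℓ) = _
        refine Eq.trans (b := (univ.filter fun v => pool v = i ∧ x v).card) ?_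
          (cl2_card fun v => by rw [Prod.mk.injEq, decide_eq_true_iff])
        rw [← hb2 i]
        apply Finset.sum_congr rfl
        intro ℓ _
        rw [if_pos rfl])
    hd hf hg
    (by
      intro v
      rw [Fintype.card_prod, Fintype.card_bool, Nat.mul_comm (Fintype.card ι) 2]
      refine (hbig v).trans_eq ?_
      exact cl2_card fun u => by rw [Prod.mk.injEq, decide_eq_decide])
  have hcT : ∀ i, ∀ ℓ < N, (univ.filter fun v => (pool v = i ∧ c v = ℓ) ∧ x v).card = b i ℓ := by
    intro i ℓ hℓ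
    have h1 := hc4 (i, true) ℓ hℓ
    change _ = (if true = true then b i ℓ else a i ℓ - b i ℓ) at h1
    rw [if_pos rfl] at h1
    rw [← h1]
    refine cl2_card fun v => ?_
    rw [Prod.mk.injEq, decide_eq_true_iff]
    exact and_right_comm
  have hcF : ∀ i, ∀ ℓ < N, (univ.filter fun v => (pool v = i ∧ c v = ℓ) ∧ ¬ x v).card =
      a i ℓ - b i ℓ := by
    intro i ℓ hℓ
    have h1 := hc4 (i, false) ℓ hℓ
    change _ = (if false = true then b i ℓ else a i ℓ - b i ℓ) at h1
    rw [if_neg (by decide)] at h1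
    rw [← h1]
    refine cl2_card fun v => ?_
    rw [Prod.mk.injEq, decide_eq_false_iff_not]
    exact and_right_comm
  refine ⟨c, hc1, hc2, hc3, ?_, ?_, ?_⟩
  · intro i ℓ hℓ
    rw [← Finset.card_filter_add_card_filter_not
      (s := univ.filter fun v => pool v = i ∧ c v = ℓ) x, filter_filter, filter_filter,
      hcT i ℓ hℓ, hcF i ℓ hℓ]
    exact Nat.add_sub_cancel' (hba i ℓ)
  · intro v hv
    by_contra hlt
    have h1 := hcT (pool v) (c v) (hc1 v)
    have h2 := (hb1 (pool v) (c v)).2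
    rw [if_pos (by omega)] at h2
    have h3 : 0 < (univ.filter fun u => (pool u = pool v ∧ c u = c v) ∧ x u).card := by
      apply Finset.card_pos.mpr
      exact ⟨v, mem_filter.mpr ⟨mem_univ _, ⟨rfl, rfl⟩, hv⟩⟩
    omega
  · intro v hv
    by_contra hlt
    have h1 := hcF (pool v) (c v) (hc1 v)
    have h2 := (hb1 (pool v) (c v)).1
    rw [if_pos (by omega)] at h2
    have h3 : 0 < (univ.filter fun u => (pool u = pool v ∧ c u = c v) ∧ ¬ x u).card := by
      apply Finset.card_pos.mpr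
      exact ⟨v, mem_filter.mpr ⟨mem_univ _, ⟨rfl, rfl⟩, hv⟩⟩
    omega

end Pool.Agent.H46.GA
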