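import Mathlib
import Pool.Agent.H46.GA.Cl2
import Pool.Agent.H46.GA.Defs

/-!
STB: the labels of the remaining vertices. Use the STATEMENT of `cl2` (`GA/Cl2.lean`).

Proof.  `F := Fg G k ty nd`, `L := Δ + 2`. A label `ℓ` is special if `ℓ = c0 w` for some `w ∈ pt nd (2 k)`; special labels are `≥ 2 t` and `< L` (`hF.c1`). `U := {v // nd v < 2 k ∧ v ∉ W ∧ v ∉ T}`. Apply `cl2` to the type `U`, `ι := Fin (2 k)`, the graph `F.comap (↑)`, `N := L`, `t`, `pool v := ⟨nd v, _⟩`, `x v := qt v < 2`,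
 `a' j ℓ := if ℓ is special then 0 else a j ℓ`, `S := K`, `d`, `f := 2 d`, `g := D + 2 k s d`, and `forb ℓ := {v : ℓ is not special and (φ ℓ v ≠ v or there is u ∈ W with F.Adj u v and lam u = ℓ)}`.
 * `ha`: `hA.le`. `hd`: `hF.dF`. `hf`: the labels `ℓ < L` with `φ ℓ v ≠ v` are `dg F v ≤ d` many (`hF.cnt`), and those with a neighbour in `W` at most `dg F v ≤ d`. `hg`: at most `D` vertices by `hF.sm`, and the vertices of `W` with `lam u = ℓ` are at most `2 k s` (`∑_{j < 2 k} wn nd W lam j ℓ`, `hW.sz`, `hW.sub`), each with at most `d` neighbours.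
 * `hsum`: `∑_{ℓ < L} a j ℓ = #{v ∈ pt nd j : v ∉ W}` (`hA.sum`), and `∑ a j ℓ` over the special labels is `∑_{w ∈ pt nd (2 k)} a j (c0 w)` (`c0` is injective on `pt nd (2 k)`, `hF.c2`) `= ∑_w #{v ∈ T : nd v = j, lb v = w} = #{v ∈ T : nd v = j}` (`hT3`), and `T ⊆ {v : v ∉ W}`.
 * `hX` (for the pool `j`): if the pool is empty then all `a' j ℓ`, `ℓ < L`, are `0` by `hsum` (`2 t ≤ L`). Otherwise there is `v` with `nd v = j`, `v ∉ W`; by `hF.half` `Δ ≤ 4 #{u : nd u = j, qt u < 2}`, at most `Δ / 8` of these `u` are in `W` (`hA.wl`) and at most `6 k r` in `T`; so `8 #{pool = j, x} ≥ Δ - 48 k r ≥ 24 t` (`hn2`), and the sum is `≤ 3 t` by `hA.t2`. `hY`: the same with `hA.t1`.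
 * `hbig`: as for `hX`, `8 #{u ∈ U : pool u = pool v, x u ↔ x v} ≥ Δ - 48 k r > 8 (3 K d + D + 2 k s d + 4 k K d)`; and `S (f + d) + g + 2 (2 k) S d = 3 K d + D + 2 k s d + 4 k K d`.
 `c1 v :=` the label of `v ∈ U`, `0` otherwise. Since the numbers at special labels are `0`, the labels are not special; so `v ∉ forb (c v)` gives `φ (c1 v) v = v` and that no `F`-neighbour `u ∈ W` has `lam u = c1 v`. Numbers: `a' j ℓ = a j ℓ` for labels that are not special.
 * `u ∈ W`, `G.Adj u v`, `v ∈ U`. If `F.Adj u v`: done. Otherwise they are adjacent in `Hg`: `i := nd u / 2 = nd v / 2`, `ty i` (`hW.sub`), so `nd u = nd v = 2 i` (`hF.odd`), `a (2 i) (lam u) = 0` (`hA.e2`), `lam u` is not special (`hW.sp`) and `< L`, so no vertex of `U` with `nd = 2 i` has the label `lam u`.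
 * `u, v ∈ U`, `G.Adj u v`. If `F.Adj u v`: from `cl2`. Otherwise adjacent in `Hg`, `i := nd u / 2 = nd v / 2 < k`. If `ty i`: `nd u = nd v = 2 i`, at most one vertex of this pool has a given label (`hA.e1`). If `¬ ty i`: `{nd u, nd v} = {2 i, 2 i + 1}`, by `hA.b1` one of the two numbers of vertices with the label is `0`.
-/

set_option autoImplicit false

namespace Pool.Agent.H46.GA

open Finset Classical
open Pool.Agent.H71.DN Pool.Agent.H71.DX Pool.Agent.H71.DR Pool.Agent.H71.HL Pool.Agent.H71.DC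
open Pool.Agent.H71.TD

/-- The number of points with `p`. -/
private noncomputable def stb_c {V : Type} [Fintype V] (p : V → Prop) : ℕ :=
  (@Finset.filter V p (fun _ => Classical.propDecidable _) univ).card

private theorem stb_mf {V : Type} {p : V → Prop} {i : DecidablePred p} {s : Finset V} {a : V} :
    a ∈ @Finset.filter V p i s ↔ a ∈ s ∧ p a := @Finset.mem_filter V p i s a

private theorem stb_0 {V : Type} [Fintype V] {p : V → Prop} (h : ∀ v, ¬ p v) : stb_c p = 0 := by
  unfold stb_c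
  rw [Finset.card_eq_zero]
  apply Finset.eq_empty_of_forall_notMem
  intro v hv
  exact h v (stb_mf.1 hv).2

private theorem stb_pos {V : Type} [Fintype V] {p : V → Prop} (v : V) (h : p v) :
    0 < stb_c p := by
  unfold stb_c
  exact Finset.card_pos.2 ⟨v, stb_mf.2 ⟨mem_univ _, h⟩⟩

private theorem stb_one {V : Type} [Fintype V] {p : V → Prop} (h : stb_c p ≤ 1) {u v : V}
    (hu : p u) (hv : p v) : u = v := by
  unfold stb_c at h
  exact Finset.card_le_one.1 h u (stb_mf.2 ⟨mem_univ _, hu⟩) v (stb_mf.2 ⟨mem_univ _, hv⟩)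

private theorem stb_e {V : Type} [Fintype V] {p q : V → Prop} {i1 : DecidablePred p}
    (h : ∀ v, p v ↔ q v) : (@Finset.filter V p i1 univ).card = stb_c q := by
  unfold stb_c
  apply congrArg Finset.card
  ext v
  rw [Finset.mem_filter, Finset.mem_filter, h v]

private theorem stb_tr {V : Type} [Fintype V] {P : V → Prop} {i0 : Fintype {v // P v}}
    {q : {v // P v} → Prop} {r : V → Prop} {i1 : DecidablePred q}
    (h1 : ∀ v : {v // P v}, q v ↔ r v.1) (h2 : ∀ v, r v → P v) :
    (@Finset.filter _ q i1 univ).card = stb_c r := by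
  unfold stb_c
  rw [← Finset.card_map (Function.Embedding.subtype P)]
  apply congrArg Finset.card
  ext v
  rw [mem_map, mem_filter]
  constructor
  · rintro ⟨w, hw, rfl⟩
    rw [mem_filter] at hw
    exact ⟨mem_univ _, (h1 w).1 hw.2⟩
  · rintro ⟨_, hv⟩
    exact ⟨⟨v, h2 v hv⟩, by rw [mem_filter]; exact ⟨mem_univ _, (h1 _).2 hv⟩, rfl⟩

private theorem stb_le {V : Type} [Fintype V] {p q : V → Prop}
    (h : ∀ v, p v → q v) : stb_c p ≤ stb_c q := by
  unfold stb_c
  apply Finset.card_le_card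
  intro v hv
  rw [Finset.mem_filter] at hv ⊢
  exact ⟨hv.1, h v hv.2⟩

private theorem stb_sub {V : Type} [Fintype V] {p : V → Prop} {A : Finset V}
    (h : ∀ v, p v → v ∈ A) : stb_c p ≤ A.card := by
  unfold stb_c
  apply Finset.card_le_card
  intro v hv
  rw [Finset.mem_filter] at hv
  exact h v hv.2

theorem stb {V : Type} [Fintype V] (G : SimpleGraph V) (Δ k : ℕ) (ty : ℕ → Prop)
    (nd qt : V → ℕ) (sf : ℕ → Finset V) (t : ℕ) (φ : ℕ → V → V) (c0 : V → ℕ) (d D r z e : ℕ)
    (hF : Fx G Δ k ty nd qt sf t φ c0 d D r z e) (zi : ℕ → ℕ) (s K : ℕ) (W : Finset V)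
    (lam : V → ℕ) (hW : WOut G Δ k ty nd t φ c0 zi s z W lam)
    (a : ℕ → ℕ → ℕ) (hA : Dem G Δ k ty nd t c0 z K W lam a)
    (hn1 : 8 * (3 * K * d + D + 2 * k * s * d + 4 * k * K * d + 6 * k * r) < Δ)
    (hn2 : 8 * (3 * t + 6 * k * r) ≤ Δ)
    (T : Finset V) (lb : V → V) (hT1 : ∀ v ∈ T, nd v < 2 * k ∧ v ∉ W)
    (hT2 : T.card ≤ 6 * k * r)
    (hT3 : ∀ v ∈ T, lb v ∈ pt nd (2 * k))
    (hT4 : ∀ w ∈ pt nd (2 * k), ∀ j < 2 * k,
      (T.filter fun v => nd v = j ∧ lb v = w).card = a j (c0 w)) :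
    ∃ c1 : V → ℕ,
      (∀ v, nd v < 2 * k → v ∉ W → v ∉ T → c1 v < Δ + 2 ∧
        (∀ w ∈ pt nd (2 * k), c1 v ≠ c0 w) ∧ φ (c1 v) v = v ∧
        (∀ u ∈ W, G.Adj u v → lam u ≠ c1 v) ∧ (qt v < 2 → t ≤ c1 v) ∧
        (¬ qt v < 2 → c1 v < t ∨ 2 * t ≤ c1 v)) ∧
      (∀ u v, nd u < 2 * k → u ∉ W → u ∉ T → nd v < 2 * k → v ∉ W → v ∉ T → G.Adj u v →
        c1 u ≠ c1 v) ∧
      ∀ j < 2 * k, ∀ ℓ < Δ + 2, (∀ w ∈ pt nd (2 * k), ℓ ≠ c0 w) →
        (univ.filter fun v => nd v = j ∧ v ∉ W ∧ v ∉ T ∧ c1 v = ℓ).card = a j ℓ := by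
  set F := Fg G k ty nd with hFdef
  set P : V → Prop := fun v => nd v < 2 * k ∧ v ∉ W ∧ v ∉ T with hP
  set sp : ℕ → Prop := fun ℓ => ∃ w ∈ pt nd (2 * k), ℓ = c0 w with hsp
  have ht : 2 * t ≤ Δ + 2 := by omega
  -- the sizes of the pools
  have hTW : ∀ v ∈ T, v ∉ W := fun v hv => (hT1 v hv).2
  have hsumT : ∀ j < 2 * k, ∑ w ∈ pt nd (2 * k), a j (c0 w) =
      (T.filter fun v => nd v = j).card := by
    intro j hj
    have h1 : (T.filter fun v => nd v = j).card =
        ∑ w ∈ pt nd (2 * k), ((T.filter fun v => nd v = j).filter fun v => lb v = w).card := by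
      apply Finset.card_eq_sum_card_fiberwise
      intro v hv
      have hv' := Finset.mem_coe.1 hv
      rw [mem_filter] at hv'
      exact Finset.mem_coe.2 (hT3 v hv'.1)
    rw [h1]
    apply Finset.sum_congr rfl
    intro w hw
    rw [← hT4 w hw j hj, filter_filter]
  have hsumS : ∀ j < 2 * k, ∑ ℓ ∈ range (Δ + 2), (if sp ℓ then a j ℓ else 0) =
      (T.filter fun v => nd v = j).card := by
    intro j hj
    rw [← hsumT j hj, ← Finset.sum_filter]
    have h1 : (range (Δ + 2)).filter sp = (pt nd (2 * k)).image c0 := by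
      ext ℓ
      rw [mem_filter, mem_image, mem_range]
      constructor
      · rintro ⟨_, w, hw, rfl⟩
        exact ⟨w, hw, rfl⟩
      · rintro ⟨w, hw, rfl⟩
        exact ⟨(hF.c1 w hw).2.1, w, hw, rfl⟩
    rw [h1, Finset.sum_image]
    intro w hw w' hw' h
    exact hF.c2 w (Finset.mem_coe.1 hw) w' (Finset.mem_coe.1 hw') h
  have hsumN : ∀ j < 2 * k, ∑ ℓ ∈ range (Δ + 2), (if sp ℓ then 0 else a j ℓ) =
      stb_c fun v => nd v = j ∧ v ∉ W ∧ v ∉ T := by
    intro j hj
    have h1 : ∑ ℓ ∈ range (Δ + 2), (if sp ℓ then 0 else a j ℓ) +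
        ∑ ℓ ∈ range (Δ + 2), (if sp ℓ then a j ℓ else 0) = ∑ ℓ ∈ range (Δ + 2), a j ℓ := by
      rw [← Finset.sum_add_distrib]
      apply Finset.sum_congr rfl
      intro ℓ _
      by_cases h : sp ℓ
      · rw [if_pos h, if_pos h, zero_add]
      · rw [if_neg h, if_neg h, add_zero]
    have h2 : ((pt nd j).filter fun v => v ∉ W).card =
        (stb_c fun v => nd v = j ∧ v ∉ W ∧ v ∉ T) +
        (T.filter fun v => nd v = j).card := by
      rw [← stb_e (p := fun v => nd v = j ∧ v ∉ W ∧ v ∉ T)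
        (i1 := fun _ => Classical.propDecidable _) (fun v => Iff.rfl)]
      rw [← Finset.card_filter_add_card_filter_not (s := (pt nd j).filter fun v => v ∉ W)
        (fun v => v ∉ T)]
      have h3 : ((pt nd j).filter fun v => v ∉ W).filter (fun v => v ∉ T) =
          @Finset.filter V (fun v => nd v = j ∧ v ∉ W ∧ v ∉ T)
            (fun _ => Classical.propDecidable _) univ := by
        ext v
        simp only [pt, mem_filter, mem_univ, true_and]
        tauto
      have h4 : ((pt nd j).filter fun v => v ∉ W).filter (fun v => ¬ v ∉ T) =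
          T.filter fun v => nd v = j := by
        ext v
        simp only [pt, mem_filter, mem_univ, true_and, not_not]
        constructor
        · rintro ⟨⟨h5, _⟩, h6⟩
          exact ⟨h6, h5⟩
        · rintro ⟨h5, h6⟩
          exact ⟨⟨h6, hTW v h5⟩, h5⟩
      rw [h3, h4]
    rw [hA.sum j hj, h2, hsumS j hj] at h1
    exact Nat.add_right_cancel h1
  -- large pools
  have hlarge : ∀ v0, nd v0 < 2 * k → v0 ∉ W → ∀ y : V → Prop,
      (Δ ≤ 4 * stb_c fun u => nd u = nd v0 ∧ y u) →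
      Δ ≤ 8 * (stb_c fun u => nd u = nd v0 ∧ u ∉ W ∧ u ∉ T ∧ y u) + 48 * k * r := by
    intro v0 hv0 hvW y hy
    have h1 := hA.wl (nd v0) hv0 ⟨v0, rfl, hvW⟩
    have h2 : (stb_c fun u => nd u = nd v0 ∧ y u) ≤
        (stb_c fun u => nd u = nd v0 ∧ u ∉ W ∧ u ∉ T ∧ y u) +
        (W.filter fun v => nd v = nd v0).card + T.card := by
      have h3 : (stb_c fun u => nd u = nd v0 ∧ y u) ≤
          (((@Finset.filter V (fun u => nd u = nd v0 ∧ u ∉ W ∧ u ∉ T ∧ y u)
            (fun _ => Classical.propDecidable _) univ) ∪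
          (W.filter fun v => nd v = nd v0)) ∪ T).card := by
        apply stb_sub
        intro u hu
        rw [mem_union, mem_union, stb_mf, stb_mf]
        by_cases hT : u ∈ T
        · exact Or.inr hT
        · left
          by_cases hW' : u ∈ W
          · exact Or.inr ⟨hW', hu.1⟩
          · exact Or.inl ⟨mem_univ _, hu.1, hW', hT, hu.2⟩
      calc _ ≤ _ := h3
        _ ≤ _ := Finset.card_union_le _ _
        _ ≤ _ := Nat.add_le_add_right (Finset.card_union_le _ _) _
    have h4 : 48 * k * r = 8 * (6 * k * r) := by ring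
    omega
  have hhalf : ∀ v0, nd v0 < 2 * k → v0 ∉ W →
      Δ ≤ 8 * (stb_c fun u => nd u = nd v0 ∧ u ∉ W ∧ u ∉ T ∧ qt u < 2) +
        48 * k * r ∧
      Δ ≤ 8 * (stb_c fun u => nd u = nd v0 ∧ u ∉ W ∧ u ∉ T ∧ ¬ qt u < 2) +
        48 * k * r := by
    intro v0 h1 h2
    have h3 := hF.half v0 h1
    rw [stb_e (q := fun u => nd u = nd v0 ∧ qt u < 2) (fun _ => Iff.rfl),
      stb_e (q := fun u => nd u = nd v0 ∧ ¬ qt u < 2) (fun _ => Iff.rfl)] at h3
    exact ⟨hlarge v0 h1 h2 (fun u => qt u < 2) h3.1,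
      hlarge v0 h1 h2 (fun u => ¬ qt u < 2) h3.2⟩
  have hkr : 48 * k * r = 8 * (6 * k * r) := by ring
  have hPi : ∀ v : {v // P v}, nd v.1 < 2 * k := fun v => v.2.1
  obtain ⟨c, hc1, hc2, hc3, hc4, hc5, hc6⟩ := cl2 (V := {v // P v}) (ι := Fin (2 * k))
    (F.comap (fun v => v.1)) (Δ + 2) t ht (fun v => ⟨nd v.1, hPi v⟩) (fun v => qt v.1 < 2)
    (fun ℓ => univ.filter fun v : {v // P v} => ¬ sp ℓ ∧
      (φ ℓ v.1 ≠ v.1 ∨ ∃ u ∈ W, F.Adj u v.1 ∧ lam u = ℓ))
    (fun j ℓ => if sp ℓ then 0 else a j ℓ) K d (2 * d) (D + 2 * k * s * d)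
    (by
      intro i ℓ
      by_cases h : sp ℓ
      · simp only [if_pos h]
        exact Nat.zero_le _
      · simp only [if_neg h]
        exact hA.le _ _)
    (by
      intro i
      rw [hsumN i i.2]
      refine (stb_tr (P := P) ?_ ?_).symm
      · intro v
        rw [Fin.ext_iff]
        exact ⟨fun h => ⟨h, v.2.2⟩, fun h => h.1⟩
      · intro v hv
        exact ⟨by rw [hv.1]; exact i.2, hv.2⟩)
    (by
      intro i
      refine le_trans ?_ (le_of_eq (stb_tr (P := P)
        (r := fun u => nd u = i ∧ u ∉ W ∧ u ∉ T ∧ qt u < 2) ?_ ?_).symm)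
      rotate_left
      · intro v
        rw [Fin.ext_iff]
        exact ⟨fun h => ⟨h.1, v.2.2.1, v.2.2.2, h.2⟩, fun h => ⟨h.1, h.2.2.2⟩⟩
      · intro v hv
        exact ⟨by rw [hv.1]; exact i.2, hv.2.1, hv.2.2.1⟩
      by_cases hex : ∃ v, nd v = i ∧ v ∉ W
      · obtain ⟨v, hv1, hv2⟩ := hex
        have h1 := (hhalf v (by rw [hv1]; exact i.2) hv2).1
        rw [hv1] at h1
        have h2 := hA.t2 i i.2
        have h3 : ∑ ℓ ∈ Ico t (2 * t), (if sp ℓ then 0 else a i ℓ) ≤
            ∑ ℓ ∈ Ico t (2 * t), a i ℓ := by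
          apply Finset.sum_le_sum
          intro ℓ _
          by_cases h : sp ℓ
          · rw [if_pos h]
            exact Nat.zero_le _
          · rw [if_neg h]
        omega
      · have h0 : ∑ ℓ ∈ range (Δ + 2), (if sp ℓ then 0 else a i ℓ) = 0 := by
          rw [hsumN i i.2]
          exact stb_0 fun v hv => hex ⟨v, hv.1, hv.2.1⟩
        have h1 : ∑ ℓ ∈ Ico t (2 * t), (if sp ℓ then 0 else a i ℓ) = 0 := by
          apply Nat.eq_zero_of_le_zero
          refine le_trans (Finset.sum_le_sum_of_subset ?_) h0.le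
          intro ℓ hℓ
          rw [mem_Ico] at hℓ
          rw [mem_range]
          omega
        rw [h1]
        exact Nat.zero_le _)
    (by
      intro i
      refine le_trans ?_ (le_of_eq (stb_tr (P := P)
        (r := fun u => nd u = i ∧ u ∉ W ∧ u ∉ T ∧ ¬ qt u < 2) ?_ ?_).symm)
      rotate_left
      · intro v
        rw [Fin.ext_iff]
        exact ⟨fun h => ⟨h.1, v.2.2.1, v.2.2.2, h.2⟩, fun h => ⟨h.1, h.2.2.2⟩⟩
      · intro v hv
        exact ⟨by rw [hv.1]; exact i.2, hv.2.1, hv.2.2.1⟩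
      by_cases hex : ∃ v, nd v = i ∧ v ∉ W
      · obtain ⟨v, hv1, hv2⟩ := hex
        have h1 := (hhalf v (by rw [hv1]; exact i.2) hv2).2
        rw [hv1] at h1
        have h2 := hA.t1 i i.2
        have h3 : ∑ ℓ ∈ range t, (if sp ℓ then 0 else a i ℓ) ≤
            ∑ ℓ ∈ range t, a i ℓ := by
          apply Finset.sum_le_sum
          intro ℓ _
          by_cases h : sp ℓ
          · rw [if_pos h]
            exact Nat.zero_le _
          · rw [if_neg h]
        omega
      · have h0 : ∑ ℓ ∈ range (Δ + 2), (if sp ℓ then 0 else a i ℓ) = 0 := by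
          rw [hsumN i i.2]
          exact stb_0 fun v hv => hex ⟨v, hv.1, hv.2.1⟩
        have h1 : ∑ ℓ ∈ range t, (if sp ℓ then 0 else a i ℓ) = 0 := by
          apply Nat.eq_zero_of_le_zero
          refine le_trans (Finset.sum_le_sum_of_subset ?_) h0.le
          intro ℓ hℓ
          rw [mem_range] at hℓ ⊢
          omega
        rw [h1]
        exact Nat.zero_le _)
    (by
      intro v
      refine le_trans ?_ (hF.dF v.1 v.2.1)
      unfold dg
      refine le_trans (le_of_eq (stb_tr (P := P) (r := fun u => P u ∧ F.Adj v.1 u)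
        (fun u => ⟨fun h => ⟨u.2, h⟩, fun h => h.2⟩) (fun u h => h.1))) ?_
      refine le_trans (stb_le (q := fun u => F.Adj v.1 u) fun u h => h.2) ?_
      exact le_of_eq (stb_e fun _ => Iff.rfl).symm)
    (by
      intro v
      have hd := hF.dF v.1 v.2.1
      have h1 := hF.cnt v.1
      rw [← hFdef] at hd h1
      refine le_trans (Finset.card_le_card (t := ((range (Δ + 2)).filter fun ℓ =>
        φ ℓ v.1 ≠ v.1) ∪ (univ.filter fun u => F.Adj v.1 u).image lam) ?_) ?_
      · intro ℓ hℓ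
        rw [stb_mf, stb_mf] at hℓ
        rw [mem_union, mem_filter, mem_image]
        rcases hℓ.2.2.2 with h | ⟨u, _, h3, h4⟩
        · exact Or.inl ⟨hℓ.1, h⟩
        · exact Or.inr ⟨u, by rw [mem_filter]; exact ⟨mem_univ _, h3.symm⟩, h4⟩
      · have h3 : (univ.filter fun u => F.Adj v.1 u).card = dg F v.1 := rfl
        refine le_trans (Finset.card_union_le _ _) ?_
        have h4 : ((univ.filter fun u => F.Adj v.1 u).image lam).card ≤ dg F v.1 :=
          Finset.card_image_le.trans h3.le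
        have h5 : ((range (Δ + 2)).filter fun ℓ => φ ℓ v.1 ≠ v.1).card ≤ dg F v.1 := h1.le
        omega)
    (by
      intro ℓ hℓ
      have h1 := hF.sm ℓ hℓ
      refine le_trans (le_of_eq (stb_tr (P := P) (r := fun v => P v ∧ (¬ sp ℓ ∧
        (φ ℓ v ≠ v ∨ ∃ u ∈ W, F.Adj u v ∧ lam u = ℓ)))
        (fun u => ⟨fun h => ⟨u.2, h⟩, fun h => h.2⟩) (fun u h => h.1))) ?_
      have h2 : (stb_c fun v => P v ∧ (¬ sp ℓ ∧
          (φ ℓ v ≠ v ∨ ∃ u ∈ W, F.Adj u v ∧ lam u = ℓ))) ≤
          ((univ.filter fun v => nd v < 2 * k ∧ φ ℓ v ≠ v) ∪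
          (W.filter fun u => lam u = ℓ).biUnion
            fun u => univ.filter fun v => F.Adj u v).card := by
        apply stb_sub
        intro v hv
        rw [mem_union, mem_filter, mem_biUnion]
        rcases hv.2.2 with h | ⟨u, h3, h4, h5⟩
        · exact Or.inl ⟨mem_univ _, hv.1.1, h⟩
        · exact Or.inr ⟨u, by rw [mem_filter]; exact ⟨h3, h5⟩, by
            rw [mem_filter]; exact ⟨mem_univ _, h4⟩⟩
      have h3 : (W.filter fun u => lam u = ℓ).card ≤ 2 * k * s := by
        have h4 : (W.filter fun u => lam u = ℓ).card =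
            ∑ j ∈ range (2 * k), ((W.filter fun u => lam u = ℓ).filter fun u => nd u = j).card := by
          apply Finset.card_eq_sum_card_fiberwise
          intro v hv
          have hv' := Finset.mem_coe.1 hv
          rw [mem_filter] at hv'
          exact Finset.mem_coe.2 (mem_range.2 (hW.sub v hv'.1).1)
        rw [h4]
        calc _ ≤ ∑ j ∈ range (2 * k), s := by
              apply Finset.sum_le_sum
              intro j _
              refine le_trans (le_of_eq ?_) (hW.sz j ℓ)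
              unfold wn
              rw [filter_filter]
              apply congrArg Finset.card
              ext u
              simp only [mem_filter]
              tauto
          _ = 2 * k * s := by rw [sum_const, card_range, smul_eq_mul]
      have h6 : ((W.filter fun u => lam u = ℓ).biUnion
          fun u => univ.filter fun v => F.Adj u v).card ≤ (W.filter fun u => lam u = ℓ).card * d := by
        apply Finset.card_biUnion_le_card_mul
        intro u hu
        rw [mem_filter] at hu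
        exact hF.dF u (hW.sub u hu.1).1
      calc _ ≤ _ := h2
        _ ≤ _ := Finset.card_union_le _ _
        _ ≤ D + 2 * k * s * d :=
          Nat.add_le_add h1 (h6.trans (Nat.mul_le_mul_right d h3)))
    (by
      intro v
      have hh := hhalf v.1 v.2.1 v.2.2.1
      have hK : K * (2 * d + d) + (D + 2 * k * s * d) + 2 * Fintype.card (Fin (2 * k)) * K * d =
          3 * K * d + D + 2 * k * s * d + 4 * k * K * d := by
        rw [Fintype.card_fin]
        ring
      rw [hK]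
      by_cases hx : qt v.1 < 2
      · refine lt_of_lt_of_le ?_ (le_of_eq (stb_tr (P := P)
          (r := fun u => nd u = nd v.1 ∧ u ∉ W ∧ u ∉ T ∧ qt u < 2) ?_ ?_).symm)
        · have := hh.1
          omega
        · intro u
          rw [Fin.ext_iff]
          exact ⟨fun h => ⟨h.1, u.2.2.1, u.2.2.2, h.2.2 hx⟩,
            fun h => ⟨h.1, iff_of_true h.2.2.2 hx⟩⟩
        · intro u hu
          exact ⟨by rw [hu.1]; exact v.2.1, hu.2.1, hu.2.2.1⟩
      · refine lt_of_lt_of_le ?_ (le_of_eq (stb_tr (P := P)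
          (r := fun u => nd u = nd v.1 ∧ u ∉ W ∧ u ∉ T ∧ ¬ qt u < 2) ?_ ?_).symm)
        · have := hh.2
          omega
        · intro u
          rw [Fin.ext_iff]
          exact ⟨fun h => ⟨h.1, u.2.2.1, u.2.2.2, fun h' => hx (h.2.1 h')⟩,
            fun h => ⟨h.1, iff_of_false h.2.2.2 hx⟩⟩
        · intro u hu
          exact ⟨by rw [hu.1]; exact v.2.1, hu.2.1, hu.2.2.1⟩)
  -- labels that occur
  set c1 : V → ℕ := fun v => if h : P v then c ⟨v, h⟩ else 0 with hc1def
  have hc1v : ∀ v (h : P v), c1 v = c ⟨v, h⟩ := by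
    intro v h
    rw [hc1def]
    exact dif_pos h
  have hnum : ∀ j < 2 * k, ∀ ℓ < Δ + 2,
      (stb_c fun v => nd v = j ∧ v ∉ W ∧ v ∉ T ∧ c1 v = ℓ) = if sp ℓ then 0 else a j ℓ := by
    intro j hj ℓ hℓ
    refine (stb_tr (P := P) (r := fun v => nd v = j ∧ v ∉ W ∧ v ∉ T ∧ c1 v = ℓ)
      ?_ ?_).symm.trans (hc4 ⟨j, hj⟩ ℓ hℓ)
    · intro v
      rw [Fin.ext_iff, hc1v v.1 v.2]
      exact ⟨fun h => ⟨h.1, v.2.2.1, v.2.2.2, h.2⟩, fun h => ⟨h.1, h.2.2.2⟩⟩
    · intro v hv
      exact ⟨by rw [hv.1]; exact hj, hv.2.1, hv.2.2.1⟩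
  have hocc : ∀ v : {v // P v}, ¬ sp (c v) ∧ 0 < a (nd v.1) (c v) := by
    intro v
    have h1 := hnum (nd v.1) (hPi v) (c v) (hc1 v)
    have h2 : 0 < stb_c fun v' => nd v' = nd v.1 ∧ v' ∉ W ∧ v' ∉ T ∧ c1 v' = c v := by
      exact stb_pos v.1 ⟨rfl, v.2.2.1, v.2.2.2, hc1v v.1 v.2⟩
    rw [h1] at h2
    by_cases h : sp (c v)
    · rw [if_pos h] at h2
      exact absurd h2 (lt_irrefl 0)
    · rw [if_neg h] at h2
      exact ⟨h, h2⟩
  have hfree : ∀ v : {v // P v}, φ (c v) v.1 = v.1 ∧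
      ∀ u ∈ W, F.Adj u v.1 → lam u ≠ c v := by
    intro v
    have h1 := hc2 v
    rw [mem_filter, not_and_or, not_and_or, not_or] at h1
    rcases h1 with h1 | h1 | h1
    · exact absurd (mem_univ _) h1
    · exact absurd (hocc v).1 h1
    · refine ⟨not_not.1 h1.1, fun u hu h2 h3 => h1.2 ⟨u, hu, h2, h3⟩⟩
  have hnotodd : ∀ i < k, ty i → ∀ v, nd v / 2 = i → nd v = 2 * i := by
    intro i hi hty v hv
    have h1 := hF.odd i hi hty
    have h2 : nd v ≠ 2 * i + 1 := by
      intro h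
      have : v ∈ pt nd (2 * i + 1) := by
        unfold pt
        rw [mem_filter]
        exact ⟨mem_univ _, h⟩
      rw [h1] at this
      exact absurd this (Finset.notMem_empty _)
    omega
  refine ⟨c1, ?_, ?_, ?_⟩
  · intro v hv1 hv2 hv3
    have hPv : P v := ⟨hv1, hv2, hv3⟩
    rw [hc1v v hPv]
    refine ⟨hc1 _, ?_, (hfree ⟨v, hPv⟩).1, ?_, hc5 ⟨v, hPv⟩, hc6 ⟨v, hPv⟩⟩
    · intro w hw h
      exact (hocc ⟨v, hPv⟩).1 ⟨w, hw, h⟩
    · intro u hu huv
      by_cases hFuv : F.Adj u v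
      · exact (hfree ⟨v, hPv⟩).2 u hu hFuv
      · have hH : (Hg G k ty nd).Adj u v := by
          by_contra hH
          exact hFuv ⟨huv, hH⟩
        obtain ⟨_, h1, h2, h3, h4⟩ := hH
        intro hl
        have hty := (hW.sub u hu).2
        have hi : nd u / 2 < k := by omega
        have hnu := hnotodd _ hi hty u rfl
        have hnv := hnotodd _ hi hty v h3.symm
        have h5 := hA.e2 _ hi hty u hu hnu
        have h6 := (hocc ⟨v, hPv⟩).2
        simp only at h6
        rw [hnv, ← hl, h5] at h6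
        exact absurd h6 (lt_irrefl 0)
  · intro u v hu1 hu2 hu3 hv1 hv2 hv3 huv
    have hPv : P v := ⟨hv1, hv2, hv3⟩
    have hPu : P u := ⟨hu1, hu2, hu3⟩
    rw [hc1v v hPv, hc1v u hPu]
    by_cases hFuv : F.Adj u v
    · exact hc3 ⟨u, hPu⟩ ⟨v, hPv⟩ hFuv
    · have hH : (Hg G k ty nd).Adj u v := by
        by_contra hH
        exact hFuv ⟨huv, hH⟩
      obtain ⟨_, h1, h2, h3, h4⟩ := hH
      intro hl
      have hi : nd u / 2 < k := by omega
      by_cases hty : ty (nd u / 2)
      · have hnu := hnotodd _ hi hty u rfl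
        have hnv := hnotodd _ hi hty v h3.symm
        have h5 := hA.e1 _ hi hty (c ⟨u, hPu⟩)
        rw [← hnu] at h5
        have h6 := hnum (nd u) h1 (c ⟨u, hPu⟩) (hc1 _)
        rw [if_neg (hocc ⟨u, hPu⟩).1] at h6
        rw [← h6] at h5
        have h7 := stb_one h5 (u := u) (v := v) ⟨rfl, hu2, hu3, hc1v u hPu⟩
          ⟨by rw [hnu, hnv], hv2, hv3, by rw [hc1v v hPv, hl]⟩
        exact G.irrefl (h7 ▸ huv)
      · have hne : nd u ≠ nd v := by
          rcases h4 with h4 | h4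
          · exact absurd h4 hty
          · exact h4
        have h5 := hA.b1 _ hi hty (c ⟨u, hPu⟩)
        have h6 := (hocc ⟨u, hPu⟩).2
        have h7 := (hocc ⟨v, hPv⟩).2
        simp only at h6 h7
        rw [← hl] at h7
        have h8 : (nd u = 2 * (nd u / 2) ∧ nd v = 2 * (nd u / 2) + 1) ∨
            (nd v = 2 * (nd u / 2) ∧ nd u = 2 * (nd u / 2) + 1) := by omega
        rcases h8 with ⟨h8, h9⟩ | ⟨h8, h9⟩
        · rcases h5 with h5 | h5
          · rw [← h8] at h5
            omega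
          · rw [← h9] at h5
            omega
        · rcases h5 with h5 | h5
          · rw [← h8] at h5
            omega
          · rw [← h9] at h5
            omega
  · intro j hj ℓ hℓ hspℓ
    have hns : ¬ sp ℓ := by
      rintro ⟨w, hw, h⟩
      exact hspℓ w hw h
    have h1 := hnum j hj ℓ hℓ
    rw [if_neg hns] at h1
    rw [← h1]
    exact stb_e fun _ => Iff.rfl

end Pool.Agent.H46.GA
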