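import Mathlib
import Pool.Agent.H46.GA.Sta
import Pool.Agent.H46.GA.Stb

/-!
STG: the colours of all vertices. Use the STATEMENTS of `sta` (`GA/Sta.lean`) and `stb` (`GA/Stb.lean`).

Proof.  `sta` gives `T, lb`, `stb` gives `c1`. `cc v := c0 v` if `v ∈ pt nd (2 k)` (`nd v = 2 k`), `lam v` if `v ∈ W`, `c0 (lb v)` if `v ∈ T`, `c1 v` otherwise (`v ∈ U`: `nd v < 2 k`, `v ∉ W`, `v ∉ T`). `W` and `T` are disjoint subsets of `{nd v < 2 k}`, and `nd v ≤ 2 k` (`hF.le`).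
 * `cc v < Δ + 2`, `φ (cc v) v = v`: `hF.c1`; `hW.rg, hW.fr`; `hF.c1` for `lb v`, `sta`; `stb`. Blocks: `hW.rg` and `hF.c1` give labels `≥ 2 t` for `v ∈ W`, `v ∈ T`; `stb` for `v ∈ U`.
 * proper: let `G.Adj a b` (symmetric). `a, b ∈ pt nd (2 k)`: `hF.c2`. `a ∈ pt nd (2 k)`, `b ∈ W`: `hW.sp`. `a ∈ pt nd (2 k)`, `b ∈ T`: `c0 a = c0 (lb b)` implies `a = lb b` (`hF.c2`), not adjacent to `b`. `a ∈ pt nd (2 k)`, `b ∈ U`: `stb`. `a, b ∈ W`: `hW.pr`. `a ∈ W`, `b ∈ T`: `hW.sp`. `a ∈ W`, `b ∈ U`: `stb`.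
   `a, b ∈ T`: `c0 (lb a) = c0 (lb b)` implies `lb a = lb b`, `sta`. `a ∈ T`, `b ∈ U`: `stb` (`c1 b ≠ c0 (lb a)`). `a, b ∈ U`: `stb`.
 * numbers: `j < 2 k`, `ℓ < Δ + 2`. The vertices `v` with `nd v = j`, `cc v = ℓ` are the disjoint union of those in `W` (`wn nd W lam j ℓ`), in `T` and in `U`. If `ℓ = c0 w` for a `w ∈ pt nd (2 k)`: those in `T` are `{v ∈ T : nd v = j, lb v = w}` (`c0` injective), `a j ℓ` many, none in `U`. Otherwise none in `T` and `a j ℓ` in `U`.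
-/

set_option autoImplicit false

namespace Pool.Agent.H46.GA

open Finset Classical
open Pool.Agent.H71.DN Pool.Agent.H71.DX Pool.Agent.H71.DR Pool.Agent.H71.HL Pool.Agent.H71.DC
open Pool.Agent.H71.TD

theorem stg {V : Type} [Fintype V] (G : SimpleGraph V) (Δ k : ℕ) (ty : ℕ → Prop)
    (nd qt : V → ℕ) (sf : ℕ → Finset V) (t : ℕ) (φ : ℕ → V → V) (c0 : V → ℕ) (d D r z e : ℕ)
    (hF : Fx G Δ k ty nd qt sf t φ c0 d D r z e) (zi : ℕ → ℕ) (s K : ℕ) (W : Finset V)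
    (lam : V → ℕ) (hW : WOut G Δ k ty nd t φ c0 zi s z W lam)
    (a : ℕ → ℕ → ℕ) (hA : Dem G Δ k ty nd t c0 z K W lam a)
    (hn : 2 * (D + e + 6 * k * r + 6 * k * e) < z)
    (hn1 : 8 * (3 * K * d + D + 2 * k * s * d + 4 * k * K * d + 6 * k * r) < Δ)
    (hn2 : 8 * (3 * t + 6 * k * r) ≤ Δ) :
    ∃ cc : V → ℕ, (∀ v, cc v < Δ + 2) ∧ (∀ v, φ (cc v) v = v) ∧
      (∀ a b, G.Adj a b → cc a ≠ cc b) ∧ (∀ v, nd v < 2 * k → qt v < 2 → t ≤ cc v) ∧
      (∀ v, nd v < 2 * k → 2 ≤ qt v → cc v < t ∨ 2 * t ≤ cc v) ∧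
      ∀ j < 2 * k, ∀ ℓ < Δ + 2, ow nd cc j ℓ = a j ℓ + wn nd W lam j ℓ := by
  obtain ⟨T, lb, hT1, hT2, hT3, hT4, hT5⟩ :=
    sta G Δ k ty nd qt sf t φ c0 d D r z e hF K W lam a hA hn
  obtain ⟨c1, hc1, hc2, hc3⟩ := stb G Δ k ty nd qt sf t φ c0 d D r z e hF zi s K W lam hW a hA
    hn1 hn2 T lb hT1 hT2 (fun v hv => (hT3 v hv).1) hT4
  have hpt : ∀ j v, v ∈ pt nd j ↔ nd v = j := by
    intro j v
    simp only [pt, mem_filter, mem_univ, true_and]
  obtain ⟨cc, hcc⟩ : ∃ cc : V → ℕ, cc = fun v => if nd v = 2 * k then c0 v else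
      if v ∈ W then lam v else if v ∈ T then c0 (lb v) else c1 v := ⟨_, rfl⟩
  have e1 : ∀ v, nd v = 2 * k → cc v = c0 v := by
    intro v hv
    rw [hcc]
    exact if_pos hv
  have e2 : ∀ v ∈ W, cc v = lam v := by
    intro v hv
    have h1 : nd v ≠ 2 * k := ne_of_lt (hW.sub v hv).1
    simp only [hcc, if_neg h1, if_pos hv]
  have e3 : ∀ v ∈ T, cc v = c0 (lb v) := by
    intro v hv
    have h1 : nd v ≠ 2 * k := ne_of_lt (hT1 v hv).1
    simp only [hcc, if_neg h1, if_neg (hT1 v hv).2, if_pos hv]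
  have e4 : ∀ v, nd v < 2 * k → v ∉ W → v ∉ T → cc v = c1 v := by
    intro v h1 h2 h3
    have h1' : nd v ≠ 2 * k := ne_of_lt h1
    simp only [hcc, if_neg h1', if_neg h2, if_neg h3]
  have hcs : ∀ v, nd v = 2 * k ∨ v ∈ W ∨ v ∈ T ∨ (nd v < 2 * k ∧ v ∉ W ∧ v ∉ T) := by
    intro v
    by_cases h1 : nd v = 2 * k
    · exact Or.inl h1
    · have h1' : nd v < 2 * k := lt_of_le_of_ne (hF.le v) h1
      by_cases h2 : v ∈ W
      · exact Or.inr (Or.inl h2)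
      · by_cases h3 : v ∈ T
        · exact Or.inr (Or.inr (Or.inl h3))
        · exact Or.inr (Or.inr (Or.inr ⟨h1', h2, h3⟩))
  have hk1 : ∀ v, nd v = 2 * k → 2 * t ≤ c0 v ∧ c0 v < Δ + 2 ∧ φ (c0 v) v = v :=
    fun v hv => hF.c1 v ((hpt _ v).2 hv)
  have hkT : ∀ v ∈ T, nd (lb v) = 2 * k := fun v hv => (hpt _ _).1 (hT3 v hv).1
  have p11 : ∀ a b, G.Adj a b → nd a = 2 * k → nd b = 2 * k → cc a ≠ cc b := by
    intro a b hab ha hb h
    rw [e1 a ha, e1 b hb] at h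
    exact hab.ne (hF.c2 a ((hpt _ a).2 ha) b ((hpt _ b).2 hb) h)
  have p12 : ∀ a b, G.Adj a b → nd a = 2 * k → b ∈ W → cc a ≠ cc b := by
    intro a b hab ha hb h
    rw [e1 a ha, e2 b hb] at h
    exact hW.sp b hb a ((hpt _ a).2 ha) h.symm
  have p13 : ∀ a b, G.Adj a b → nd a = 2 * k → b ∈ T → cc a ≠ cc b := by
    intro a b hab ha hb h
    rw [e1 a ha, e3 b hb] at h
    have := hF.c2 a ((hpt _ a).2 ha) (lb b) (hT3 b hb).1 h
    rw [this] at hab
    exact (hT3 b hb).2.1 hab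
  have p14 : ∀ a b, G.Adj a b → nd a = 2 * k → (nd b < 2 * k ∧ b ∉ W ∧ b ∉ T) →
      cc a ≠ cc b := by
    intro a b hab ha hb h
    rw [e1 a ha, e4 b hb.1 hb.2.1 hb.2.2] at h
    exact (hc1 b hb.1 hb.2.1 hb.2.2).2.1 a ((hpt _ a).2 ha) h.symm
  have p22 : ∀ a b, G.Adj a b → a ∈ W → b ∈ W → cc a ≠ cc b := by
    intro a b hab ha hb h
    rw [e2 a ha, e2 b hb] at h
    exact hW.pr a ha b hb hab h
  have p23 : ∀ a b, G.Adj a b → a ∈ W → b ∈ T → cc a ≠ cc b := by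
    intro a b hab ha hb h
    rw [e2 a ha, e3 b hb] at h
    exact hW.sp a ha (lb b) (hT3 b hb).1 h
  have p24 : ∀ a b, G.Adj a b → a ∈ W → (nd b < 2 * k ∧ b ∉ W ∧ b ∉ T) → cc a ≠ cc b := by
    intro a b hab ha hb h
    rw [e2 a ha, e4 b hb.1 hb.2.1 hb.2.2] at h
    exact (hc1 b hb.1 hb.2.1 hb.2.2).2.2.2.1 a ha hab h
  have p33 : ∀ a b, G.Adj a b → a ∈ T → b ∈ T → cc a ≠ cc b := by
    intro a b hab ha hb h
    rw [e3 a ha, e3 b hb] at h
    exact hT5 a ha b hb (hF.c2 (lb a) (hT3 a ha).1 (lb b) (hT3 b hb).1 h) hab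
  have p34 : ∀ a b, G.Adj a b → a ∈ T → (nd b < 2 * k ∧ b ∉ W ∧ b ∉ T) → cc a ≠ cc b := by
    intro a b hab ha hb h
    rw [e3 a ha, e4 b hb.1 hb.2.1 hb.2.2] at h
    exact (hc1 b hb.1 hb.2.1 hb.2.2).2.1 (lb a) (hT3 a ha).1 h.symm
  have p44 : ∀ a b, G.Adj a b → (nd a < 2 * k ∧ a ∉ W ∧ a ∉ T) →
      (nd b < 2 * k ∧ b ∉ W ∧ b ∉ T) → cc a ≠ cc b := by
    intro a b hab ha hb h
    rw [e4 a ha.1 ha.2.1 ha.2.2, e4 b hb.1 hb.2.1 hb.2.2] at h
    exact hc2 a b ha.1 ha.2.1 ha.2.2 hb.1 hb.2.1 hb.2.2 hab h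
  refine ⟨cc, ?_, ?_, ?_, ?_, ?_, ?_⟩
  · intro v
    rcases hcs v with h | h | h | h
    · rw [e1 v h]
      exact (hk1 v h).2.1
    · rw [e2 v h]
      exact (hW.rg v h).2
    · rw [e3 v h]
      exact (hk1 _ (hkT v h)).2.1
    · rw [e4 v h.1 h.2.1 h.2.2]
      exact (hc1 v h.1 h.2.1 h.2.2).1
  · intro v
    rcases hcs v with h | h | h | h
    · rw [e1 v h]
      exact (hk1 v h).2.2
    · rw [e2 v h]
      exact hW.fr v h
    · rw [e3 v h]
      exact (hT3 v h).2.2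
    · rw [e4 v h.1 h.2.1 h.2.2]
      exact (hc1 v h.1 h.2.1 h.2.2).2.2.1
  · intro a b hab
    rcases hcs a with ha | ha | ha | ha <;> rcases hcs b with hb | hb | hb | hb
    · exact p11 a b hab ha hb
    · exact p12 a b hab ha hb
    · exact p13 a b hab ha hb
    · exact p14 a b hab ha hb
    · exact (p12 b a hab.symm hb ha).symm
    · exact p22 a b hab ha hb
    · exact p23 a b hab ha hb
    · exact p24 a b hab ha hb
    · exact (p13 b a hab.symm hb ha).symm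
    · exact (p23 b a hab.symm hb ha).symm
    · exact p33 a b hab ha hb
    · exact p34 a b hab ha hb
    · exact (p14 b a hab.symm hb ha).symm
    · exact (p24 b a hab.symm hb ha).symm
    · exact (p34 b a hab.symm hb ha).symm
    · exact p44 a b hab ha hb
  · intro v hv hq
    rcases hcs v with h | h | h | h
    · omega
    · rw [e2 v h]
      have := (hW.rg v h).1
      omega
    · rw [e3 v h]
      have := (hk1 _ (hkT v h)).1
      omega
    · rw [e4 v h.1 h.2.1 h.2.2]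
      exact (hc1 v h.1 h.2.1 h.2.2).2.2.2.2.1 hq
  · intro v hv hq
    rcases hcs v with h | h | h | h
    · omega
    · rw [e2 v h]
      exact Or.inr (hW.rg v h).1
    · rw [e3 v h]
      exact Or.inr (hk1 _ (hkT v h)).1
    · rw [e4 v h.1 h.2.1 h.2.2]
      exact (hc1 v h.1 h.2.1 h.2.2).2.2.2.2.2 (by omega)
  · intro j hj ℓ hℓ
    have hset : (pt nd j).filter (fun v => cc v = ℓ) =
        (W.filter fun v => nd v = j ∧ lam v = ℓ) ∪
        ((T.filter fun v => nd v = j ∧ c0 (lb v) = ℓ) ∪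
          (univ.filter fun v => nd v = j ∧ v ∉ W ∧ v ∉ T ∧ c1 v = ℓ)) := by
      ext v
      simp only [mem_union, mem_filter, mem_univ, true_and, hpt]
      constructor
      · rintro ⟨h1, h2⟩
        rcases hcs v with h | h | h | h
        · omega
        · rw [e2 v h] at h2
          exact Or.inl ⟨h, h1, h2⟩
        · rw [e3 v h] at h2
          exact Or.inr (Or.inl ⟨h, h1, h2⟩)
        · rw [e4 v h.1 h.2.1 h.2.2] at h2
          exact Or.inr (Or.inr ⟨h1, h.2.1, h.2.2, h2⟩)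
      · rintro (⟨h, h1, h2⟩ | ⟨h, h1, h2⟩ | ⟨h1, h3, h4, h2⟩)
        · exact ⟨h1, by rw [e2 v h]; exact h2⟩
        · exact ⟨h1, by rw [e3 v h]; exact h2⟩
        · exact ⟨h1, by rw [e4 v (by omega) h3 h4]; exact h2⟩
    have hd1 : Disjoint (W.filter fun v => nd v = j ∧ lam v = ℓ)
        ((T.filter fun v => nd v = j ∧ c0 (lb v) = ℓ) ∪
          (univ.filter fun v => nd v = j ∧ v ∉ W ∧ v ∉ T ∧ c1 v = ℓ)) := by
      rw [disjoint_left]
      intro v h1 h2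
      simp only [mem_union, mem_filter, mem_univ, true_and] at h1 h2
      rcases h2 with h2 | h2
      · exact (hT1 v h2.1).2 h1.1
      · exact h2.2.1 h1.1
    have hd2 : Disjoint (T.filter fun v => nd v = j ∧ c0 (lb v) = ℓ)
        (univ.filter fun v => nd v = j ∧ v ∉ W ∧ v ∉ T ∧ c1 v = ℓ) := by
      rw [disjoint_left]
      intro v h1 h2
      simp only [mem_filter, mem_univ, true_and] at h1 h2
      exact h2.2.2.1 h1.1
    have hmain : (T.filter fun v => nd v = j ∧ c0 (lb v) = ℓ).card +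
        (univ.filter fun v => nd v = j ∧ v ∉ W ∧ v ∉ T ∧ c1 v = ℓ).card = a j ℓ := by
      by_cases hsp : ∃ w ∈ pt nd (2 * k), ℓ = c0 w
      · obtain ⟨w, hw, rfl⟩ := hsp
        have h1 : (univ.filter fun v => nd v = j ∧ v ∉ W ∧ v ∉ T ∧ c1 v = c0 w) = ∅ := by
          rw [filter_eq_empty_iff]
          rintro v - ⟨h1, h2, h3, h4⟩
          exact (hc1 v (by omega) h2 h3).2.1 w hw h4
        have h2 : (T.filter fun v => nd v = j ∧ c0 (lb v) = c0 w) =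
            T.filter fun v => nd v = j ∧ lb v = w := by
          ext v
          simp only [mem_filter]
          constructor
          · rintro ⟨h1, h2, h3⟩
            exact ⟨h1, h2, hF.c2 _ (hT3 v h1).1 w hw h3⟩
          · rintro ⟨h1, h2, h3⟩
            exact ⟨h1, h2, by rw [h3]⟩
        rw [h1, h2, hT4 w hw j hj, card_empty, add_zero]
      · have hsp' : ∀ w ∈ pt nd (2 * k), ℓ ≠ c0 w := fun w hw h => hsp ⟨w, hw, h⟩
        have h1 : (T.filter fun v => nd v = j ∧ c0 (lb v) = ℓ) = ∅ := by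
          rw [filter_eq_empty_iff]
          rintro v hv ⟨h1, h2⟩
          exact hsp' _ (hT3 v hv).1 h2.symm
        rw [h1, card_empty, zero_add]
        exact hc3 j hj ℓ hℓ hsp'
    have h1 : ow nd cc j ℓ = ((pt nd j).filter fun v => cc v = ℓ).card := rfl
    have h2 : wn nd W lam j ℓ = (W.filter fun v => nd v = j ∧ lam v = ℓ).card := rfl
    rw [h1, h2, hset, card_union_of_disjoint hd1, card_union_of_disjoint hd2, hmain]
    omega

end Pool.Agent.H46.GA
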