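import Mathlib
import Pool.Agent.H46.GA.Mxp

/-!
WSA: the classes chosen in one expanding part. Use the STATEMENT of `prs` (`GA/Mxp.lean`).

Proof.  `C := pt nd (2 i)`, `N := #C`.
 * If `z < 16 (N - (Δ + 1))`: `hgr` gives `m, γ`; `Wi := C`; first alternative (`Δ + 2 ≤ N`); `m + 2 s d + 2 t + r ≤ Δ` by `hq`.
 * Otherwise, `p := N - (Δ + 1)`, `16 p ≤ z`. If `p = 0`: `Wi := ∅`, `m := 0`, `γ := 0`. If `0 < p`: `N = Δ + 1 + p`, for `v ∈ C` the number of `u ∈ C`, `u ≠ v`, not adjacent to `v`, is `p + dg (Fg G k ty nd) v` (`hF.cod`), between `p` and `p + d` (`hF.dF`). `4 p + 2 d < N` by `hz`. `prs` gives `W, γ`; `Wi := W`, `m := p`. `Grp G W p s γ` by `2 ≤ s`.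
   `#W = 2 p` (sum of the classes `j < p`, every `v ∈ W` has `γ v < p`), so `8 #W ≤ z`. `p + 2 s d + 2 t + r ≤ Δ` by `hz` (`p ≤ z`).
-/

set_option autoImplicit false

namespace Pool.Agent.H46.GA

open Finset Classical
open Pool.Agent.H71.DN Pool.Agent.H71.DX Pool.Agent.H71.DR Pool.Agent.H71.HL Pool.Agent.H71.DC
open Pool.Agent.H71.TD

theorem wsa {V : Type} [Fintype V] (G : SimpleGraph V) (Δ k : ℕ) (ty : ℕ → Prop)
    (nd qt : V → ℕ) (sf : ℕ → Finset V) (t : ℕ) (φ : ℕ → V → V) (c0 : V → ℕ) (d D r z e : ℕ)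
    (hF : Fx G Δ k ty nd qt sf t φ c0 d D r z e) (s q : ℕ) (hs : 2 ≤ s)
    (hq : 2 * s * d + 2 * t + r ≤ q) (hz : z + 2 * d + 2 * s * d + 2 * t + r ≤ Δ)
    (hgr : ∀ i < k, ty i → z < 16 * ((pt nd (2 * i)).card - (Δ + 1)) →
      ∃ (m : ℕ) (γ : V → ℕ), Grp G (pt nd (2 * i)) m s γ ∧ m + q ≤ Δ)
    (i : ℕ) (hi : i < k) (hty : ty i) :
    ∃ (Wi : Finset V) (m : ℕ) (γ : V → ℕ), Wi ⊆ pt nd (2 * i) ∧ Grp G Wi m s γ ∧
      m + 2 * s * d + 2 * t + r ≤ Δ ∧
      ((Wi = pt nd (2 * i) ∧ Δ + 2 ≤ (pt nd (2 * i)).card) ∨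
        (8 * Wi.card ≤ z ∧ m = (pt nd (2 * i)).card - (Δ + 1) ∧
          ∀ j < m, (Wi.filter fun v => γ v = j).card = 2)) := by
  obtain ⟨C, hC⟩ : ∃ C, C = pt nd (2 * i) := ⟨_, rfl⟩
  by_cases hcase : z < 16 * ((pt nd (2 * i)).card - (Δ + 1))
  · obtain ⟨m, γ, hG, hm⟩ := hgr i hi hty hcase
    exact ⟨pt nd (2 * i), m, γ, Finset.Subset.refl _, hG, by omega, Or.inl ⟨rfl, by omega⟩⟩
  · rw [not_lt] at hcase
    have hcod := hF.cod i hi hty
    have hnd : ∀ v ∈ pt nd (2 * i), nd v < 2 * k := by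
      intro v hv
      unfold pt at hv
      rw [mem_filter] at hv
      omega
    rw [← hC] at hcase hcod hnd ⊢
    obtain ⟨p, hp⟩ : ∃ p, p = C.card - (Δ + 1) := ⟨_, rfl⟩
    rw [← hp] at hcase
    rcases Nat.eq_zero_or_pos p with hp0 | hp0
    · refine ⟨∅, 0, fun _ => 0, Finset.empty_subset _, ⟨?_, ?_, ?_⟩, by omega, Or.inr ⟨?_, ?_, ?_⟩⟩
      · intro v hv
        exact absurd hv (Finset.notMem_empty v)
      · intro v hv
        exact absurd hv (Finset.notMem_empty v)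
      · intro j
        rw [Finset.filter_empty, Finset.card_empty]
        exact Nat.zero_le _
      · rw [Finset.card_empty, Nat.mul_zero]
        exact Nat.zero_le _
      · omega
      · intro j hj
        exact absurd hj (Nat.not_lt_zero j)
    · have hN : C.card = Δ + 1 + p := by omega
      have h1 : ∀ v ∈ C, p ≤ (C.filter fun u => u ≠ v ∧ ¬ G.Adj v u).card := by
        intro v hv
        have h := hcod v hv
        omega
      have h2 : ∀ v ∈ C, (C.filter fun u => u ≠ v ∧ ¬ G.Adj v u).card ≤ p + d := by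
        intro v hv
        have h := hcod v hv
        have h3 := hF.dF v (hnd v hv)
        omega
      obtain ⟨W, γ, hW, hG, hj⟩ := prs G C p d h1 h2 (by omega)
      have hWc : W.card = 2 * p := by
        have h3 : W.card = ∑ j ∈ range p, (W.filter fun v => γ v = j).card :=
          Finset.card_eq_sum_card_fiberwise fun v hv => by
            rw [Finset.mem_coe, mem_range]
            exact hG.lt v hv
        rw [h3, Finset.sum_congr rfl fun j hj' => hj j (mem_range.1 hj'), Finset.sum_const,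
          card_range, smul_eq_mul, Nat.mul_comm]
      refine ⟨W, p, γ, hW, ⟨hG.lt, hG.pr, fun j => (hG.sz j).trans hs⟩, by omega,
        Or.inr ⟨by omega, hp, hj⟩⟩

end Pool.Agent.H46.GA
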