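import Mathlib
import Pool.Agent.H46.GA.Wsa
import Pool.Agent.H46.GA.Grl

/-!
WST: the labels of the classes of size at least two in the expanding parts. Use the STATEMENTS of `wsa` (`GA/Wsa.lean`) and `grl` (`GA/Grl.lean`).

Proof.  Choose `Wi i, m i, γ i` by `wsa` for all `i < k` with `ty i` (`choose`, or a function defined by `if h : i < k ∧ ty i`), and `Wi i := ∅` for the other `i`. `W := {v : nd v < 2 k, ty (nd v / 2), v ∈ Wi (nd v / 2)}`; `v ∈ W` implies `nd v = 2 (nd v / 2)` (as `Wi i ⊆ pt nd (2 i)`), and for `i < k`, `ty i`: `{v ∈ W : nd v = 2 i} = Wi i`.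
 Apply `grl` with `F := Fg G k ty nd`, `prt v := nd v / 2`, the class function `v ↦ γ (nd v / 2) v`, `s`, `d`, `f := d`, `m`, `Rs i := ((Ico (2 t) (Δ + 2)) \ (pt nd (2 k)).image c0) \ {zi i}`, `bad v := {ℓ < Δ + 2 : φ ℓ v ≠ v}` (`#(bad v) = dg F v ≤ d` by `hF.cnt, hF.dF`). `hsz`: `Grp.sz`.
 `hR`: `#(Rs i) ≥ Δ + 2 - 2 t - r - 1` (`hF.lo`, `card_image_le`), `m i + s (d + d) ≤ #(Rs i)` by `m i + 2 s d + 2 t + r ≤ Δ`.
 The labels `lam`:
 * `sub, rg, sp` clear. `fr`: `lam v ∉ bad v`, `lam v < Δ + 2`. `pr`: `a, b ∈ W` adjacent in `G`. If `nd a / 2 = nd b / 2`: `lam a = lam b` would imply that they are in the same class, against `Grp.pr`. Otherwise `a b` is not an edge of `Hg G k ty nd`, so an edge of `F`, and the last claim of `grl` applies.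
 * `sz`: if `{v ∈ W : nd v = j, lam v = ℓ}` is not empty, say `a` is in it, then all its elements `v` have `nd v / 2 = nd a / 2`, `lam v = lam a`, so they are in the class of `a`, which has at most `s` elements.
 * `alt`, part `i`: first alternative of `wsa`: `pt nd (2 i) = Wi i ⊆ W`. Second alternative: `{v ∈ W : nd v = 2 i} = Wi i`, `Λ := (Wi i).image lam ⊆ Rs i`. The classes of `Wi i` are the `{v ∈ Wi i : γ i v = j}`, `j < m i`, of size `2`, `lam` is constant on them and different on different classes: so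
   `#Λ = m i = N - (Δ + 1)` and `wn nd W lam (2 i) ℓ = 2` for `ℓ ∈ Λ` (for `ℓ = lam a`, `a ∈ Wi i`, the set `{v ∈ W : nd v = 2 i, lam v = lam a}` is the class of `a`).
-/

set_option autoImplicit false

namespace Pool.Agent.H46.GA

open Finset Classical
open Pool.Agent.H71.DN Pool.Agent.H71.DX Pool.Agent.H71.DR Pool.Agent.H71.HL Pool.Agent.H71.DC
open Pool.Agent.H71.TD

theorem wst {V : Type} [Fintype V] (G : SimpleGraph V) (Δ k : ℕ) (ty : ℕ → Prop)
    (nd qt : V → ℕ) (sf : ℕ → Finset V) (t : ℕ) (φ : ℕ → V → V) (c0 : V → ℕ) (d D r z e : ℕ)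
    (hF : Fx G Δ k ty nd qt sf t φ c0 d D r z e) (s q : ℕ) (hs : 2 ≤ s)
    (hq : 2 * s * d + 2 * t + r ≤ q) (hz : z + 2 * d + 2 * s * d + 2 * t + r ≤ Δ)
    (hgr : ∀ i < k, ty i → z < 16 * ((pt nd (2 * i)).card - (Δ + 1)) →
      ∃ (m : ℕ) (γ : V → ℕ), Grp G (pt nd (2 * i)) m s γ ∧ m + q ≤ Δ) (zi : ℕ → ℕ) :
    ∃ (W : Finset V) (lam : V → ℕ), WOut G Δ k ty nd t φ c0 zi s z W lam := by
  have hex : ∀ i, ∃ (Wi : Finset V) (m : ℕ) (γ : V → ℕ), (¬ (i < k ∧ ty i) → Wi = ∅) ∧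
      (i < k → ty i → Wi ⊆ pt nd (2 * i) ∧ Grp G Wi m s γ ∧
        m + 2 * s * d + 2 * t + r ≤ Δ ∧
        ((Wi = pt nd (2 * i) ∧ Δ + 2 ≤ (pt nd (2 * i)).card) ∨
          (8 * Wi.card ≤ z ∧ m = (pt nd (2 * i)).card - (Δ + 1) ∧
            ∀ j < m, (Wi.filter fun v => γ v = j).card = 2))) := by
    intro i
    by_cases h : i < k ∧ ty i
    · obtain ⟨Wi, m, γ, h1⟩ := wsa G Δ k ty nd qt sf t φ c0 d D r z e hF s q hs hq hz hgr i h.1 h.2
      exact ⟨Wi, m, γ, fun h2 => absurd h h2, fun _ _ => h1⟩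
    · exact ⟨∅, 0, fun _ => 0, fun _ => rfl, fun h1 h2 => absurd ⟨h1, h2⟩ h⟩
  choose Wi m γ hW0 hW using hex
  obtain ⟨W, hWdef⟩ : ∃ W : Finset V, W = univ.filter fun v => v ∈ Wi (nd v / 2) := ⟨_, rfl⟩
  have hWm : ∀ v ∈ W, nd v / 2 < k ∧ ty (nd v / 2) ∧ nd v = 2 * (nd v / 2) ∧
      v ∈ Wi (nd v / 2) := by
    intro v hv
    rw [hWdef, mem_filter] at hv
    have h1 : nd v / 2 < k ∧ ty (nd v / 2) := by
      by_contra h2
      rw [hW0 _ h2] at hv
      exact absurd hv.2 (notMem_empty _)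
    have h2 := (hW _ h1.1 h1.2).1 hv.2
    unfold pt at h2
    rw [mem_filter] at h2
    exact ⟨h1.1, h1.2, h2.2, hv.2⟩
  have hWi : ∀ i < k, ty i → ∀ v, v ∈ Wi i → nd v = 2 * i ∧ v ∈ W := by
    intro i hi hty v hv
    have h2 := (hW i hi hty).1 hv
    unfold pt at h2
    rw [mem_filter] at h2
    refine ⟨h2.2, ?_⟩
    rw [hWdef, mem_filter]
    refine ⟨mem_univ _, ?_⟩
    have h3 : nd v / 2 = i := by
      have := h2.2
      omega
    rw [h3]
    exact hv
  obtain ⟨prt, hprt⟩ : ∃ prt : V → ℕ, prt = fun v => nd v / 2 := ⟨_, rfl⟩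
  obtain ⟨γ', hγ'⟩ : ∃ γ' : V → ℕ, γ' = fun v => γ (nd v / 2) v := ⟨_, rfl⟩
  obtain ⟨Rs, hRs⟩ : ∃ Rs : ℕ → Finset ℕ, Rs = fun i =>
    ((Ico (2 * t) (Δ + 2)) \ (pt nd (2 * k)).image c0) \ {zi i} := ⟨_, rfl⟩
  obtain ⟨bad, hbad⟩ : ∃ bad : V → Finset ℕ, bad = fun v =>
    (range (Δ + 2)).filter fun ℓ => φ ℓ v ≠ v := ⟨_, rfl⟩
  have hp : ∀ v, prt v = nd v / 2 := fun v => by rw [hprt]
  have hg : ∀ v, γ' v = γ (nd v / 2) v := fun v => by rw [hγ']
  have hsz : ∀ a ∈ W, (W.filter fun b => prt b = prt a ∧ γ' b = γ' a).card ≤ s := by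
    intro a ha
    obtain ⟨h1, h2, h3, h4⟩ := hWm a ha
    refine (card_le_card ?_).trans ((hW _ h1 h2).2.1.sz (γ (nd a / 2) a))
    intro b hb
    rw [mem_filter, hp, hp, hg, hg] at hb
    obtain ⟨h5, h6, h7⟩ := hb
    rw [mem_filter]
    have h8 := (hWm b h5).2.2.2
    rw [h6] at h7 h8
    exact ⟨h8, h7⟩
  obtain ⟨lam, hlam⟩ := grl (Fg G k ty nd) W prt γ' s d d m Rs bad hsz
    (fun a ha => by
      obtain ⟨h1, h2, h3, h4⟩ := hWm a ha
      rw [hp, hg]
      exact (hW _ h1 h2).2.1.lt a h4)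
    (fun v hv => hF.dF v (by have := hWm v hv; omega))
    (fun v hv => by
      rw [hbad]
      show ((range (Δ + 2)).filter fun ℓ => φ ℓ v ≠ v).card ≤ d
      rw [hF.cnt v]
      exact hF.dF v (by have := hWm v hv; omega))
    (fun a ha => by
      obtain ⟨h1, h2, h3, h4⟩ := hWm a ha
      have h5 := (hW _ h1 h2).2.2.1
      rw [hp, hRs]
      show m (nd a / 2) + s * (d + d) ≤
        (((Ico (2 * t) (Δ + 2)) \ (pt nd (2 * k)).image c0) \ {zi (nd a / 2)}).card
      have h6 := le_card_sdiff {zi (nd a / 2)} ((Ico (2 * t) (Δ + 2)) \ (pt nd (2 * k)).image c0)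
      have h7 := le_card_sdiff ((pt nd (2 * k)).image c0) (Ico (2 * t) (Δ + 2))
      have h8 : ((pt nd (2 * k)).image c0).card ≤ r := card_image_le.trans hF.lo
      rw [card_singleton] at h6
      rw [Nat.card_Ico] at h7
      have h9 : s * (d + d) = 2 * s * d := by ring
      omega)
  have hRm : ∀ v ∈ W, 2 * t ≤ lam v ∧ lam v < Δ + 2 ∧ (∀ w ∈ pt nd (2 * k), lam v ≠ c0 w) ∧
      lam v ≠ zi (nd v / 2) := by
    intro v hv
    have h1 := (hlam v hv).1
    rw [hRs, hp] at h1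
    simp only [mem_sdiff, mem_Ico, mem_singleton, mem_image, not_exists, not_and] at h1
    exact ⟨h1.1.1.1, h1.1.1.2, fun w hw h2 => h1.1.2 w hw h2.symm, h1.2⟩
  refine ⟨W, lam, ⟨?_, ?_, ?_, ?_, ?_, ?_, ?_⟩⟩
  · intro v hv
    obtain ⟨h1, h2, h3, h4⟩ := hWm v hv
    exact ⟨by omega, h2⟩
  · intro v hv
    exact ⟨(hRm v hv).1, (hRm v hv).2.1⟩
  · intro v hv w hw
    exact (hRm v hv).2.2.1 w hw
  · intro v hv
    by_contra h
    have h1 := (hlam v hv).2.1
    rw [hbad] at h1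
    exact h1 (mem_filter.2 ⟨mem_range.2 (hRm v hv).2.1, h⟩)
  · intro a ha b hb hab heq
    by_cases h : nd a / 2 = nd b / 2
    · have h1 := ((hlam a ha).2.2.1 b hb (by rw [hp, hp, h])).1 heq
      rw [hg, hg, ← h] at h1
      obtain ⟨h2, h3, h4, h5⟩ := hWm a ha
      have h6 := (hWm b hb).2.2.2
      rw [← h] at h6
      exact (hW _ h2 h3).2.1.pr a h5 b h6 hab h1
    · exact (hlam a ha).2.2.2 b hb ⟨hab, fun h1 => h h1.2.2.2.1⟩ (by rw [hp, hp]; exact h) heq
  · intro j ℓ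
    unfold wn
    rcases (W.filter fun v => nd v = j ∧ lam v = ℓ).eq_empty_or_nonempty with h | ⟨a, ha⟩
    · rw [h, card_empty]
      exact Nat.zero_le _
    · obtain ⟨h1, h2, h3⟩ := mem_filter.1 ha
      refine (card_le_card fun b hb => ?_).trans (hsz a h1)
      obtain ⟨h4, h5, h6⟩ := mem_filter.1 hb
      have h7 : prt b = prt a := by rw [hp, hp, h2, h5]
      rw [mem_filter]
      exact ⟨h4, h7, (((hlam a h1).2.2.1 b h4 h7).1 (h3.trans h6.symm)).symm⟩
  · intro i hi hty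
    obtain ⟨a1, a2, a3, a4⟩ := hW i hi hty
    have hWieq : (W.filter fun v => nd v = 2 * i) = Wi i := by
      ext v
      rw [mem_filter]
      constructor
      · rintro ⟨h1, h2⟩
        have h3 := (hWm v h1).2.2.2
        have h4 : nd v / 2 = i := by omega
        rw [h4] at h3
        exact h3
      · intro h1
        have h2 := hWi i hi hty v h1
        exact ⟨h2.2, h2.1⟩
    have hdiv : ∀ v ∈ Wi i, nd v / 2 = i := by
      intro v hv
      have := (hWi i hi hty v hv).1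
      omega
    have hiff : ∀ a ∈ Wi i, ∀ b ∈ Wi i, (lam a = lam b ↔ γ i a = γ i b) := by
      intro a ha b hb
      have h1 := (hlam a (hWi i hi hty a ha).2).2.2.1 b (hWi i hi hty b hb).2
        (by rw [hp, hp, hdiv a ha, hdiv b hb])
      rw [hg, hg, hdiv a ha, hdiv b hb] at h1
      exact h1
    rcases a4 with ⟨h1, h2⟩ | ⟨h1, h2, h3⟩
    · left
      refine ⟨fun v hv => ?_, h2⟩
      rw [← h1] at hv
      exact (hWi i hi hty v hv).2
    · right
      rw [hWieq]
      refine ⟨h1, (Wi i).image lam, ?_, ?_, ?_, ?_, ?_⟩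
      · intro ℓ hℓ
        obtain ⟨v, hv, rfl⟩ := mem_image.1 hℓ
        exact mem_range.2 (hRm v (hWi i hi hty v hv).2).2.1
      · intro hℓ
        obtain ⟨v, hv, h4⟩ := mem_image.1 hℓ
        have h5 := (hRm v (hWi i hi hty v hv).2).2.2.2
        rw [hdiv v hv] at h5
        exact h5 h4
      · rw [← h2]
        have hrep : ∀ j, ∃ x : ℕ, j < m i → ∃ a ∈ Wi i, γ i a = j ∧ lam a = x := by
          intro j
          by_cases hj : j < m i
          · have h4 : 0 < ((Wi i).filter fun v => γ i v = j).card := by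
              rw [h3 j hj]
              norm_num
            obtain ⟨a, ha⟩ := card_pos.1 h4
            obtain ⟨h5, h6⟩ := mem_filter.1 ha
            exact ⟨lam a, fun _ => ⟨a, h5, h6, rfl⟩⟩
          · exact ⟨0, fun h => absurd h hj⟩
        choose g hgr' using hrep
        have h4 : (Wi i).image lam = (range (m i)).image g := by
          ext ℓ
          rw [mem_image, mem_image]
          constructor
          · rintro ⟨v, hv, h5⟩
            have h6 := a2.lt v hv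
            obtain ⟨a, h7, h8, h9⟩ := hgr' _ h6
            refine ⟨γ i v, mem_range.2 h6, ?_⟩
            rw [← h9, ← h5]
            exact (hiff _ h7 v hv).2 h8
          · rintro ⟨j, hj, h5⟩
            obtain ⟨a, h7, h8, h9⟩ := hgr' j (mem_range.1 hj)
            exact ⟨a, h7, h9.trans h5⟩
        rw [h4, card_image_of_injOn, card_range]
        intro j hj j' hj' h5
        obtain ⟨a, h6, h7, h8⟩ := hgr' j (mem_range.1 (mem_coe.1 hj))
        obtain ⟨a', h9, h10, h11⟩ := hgr' j' (mem_range.1 (mem_coe.1 hj'))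
        have h12 := (hiff a h6 a' h9).1 (h8.trans (h5.trans h11.symm))
        rw [h7, h10] at h12
        exact h12
      · intro v hv h4
        refine mem_image_of_mem lam ?_
        rw [← hWieq, mem_filter]
        exact ⟨hv, h4⟩
      · intro ℓ hℓ
        obtain ⟨a, ha, rfl⟩ := mem_image.1 hℓ
        have h4 : (W.filter fun v => nd v = 2 * i ∧ lam v = lam a) =
            (Wi i).filter fun v => γ i v = γ i a := by
          ext v
          rw [mem_filter, mem_filter]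
          constructor
          · rintro ⟨h5, h6, h7⟩
            have h8 : v ∈ Wi i := by
              rw [← hWieq, mem_filter]
              exact ⟨h5, h6⟩
            exact ⟨h8, (hiff v h8 a ha).1 h7⟩
          · rintro ⟨h5, h6⟩
            have h7 := hWi i hi hty v h5
            exact ⟨h7.2, h7.1, (hiff v h5 a ha).2 h6⟩
        unfold wn
        rw [h4]
        exact h3 _ (a2.lt a ha)

end Pool.Agent.H46.GA
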