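import Mathlib
import Pool.Agent.H46.GA.Wst
import Pool.Agent.H46.GA.Dmd
import Pool.Agent.H46.GA.Stg

/-!
COL: the colours, from `wst` (`GA/Wst.lean`), `dmd` (`GA/Dmd.lean`), `stg` (`GA/Stg.lean`); use only their STATEMENTS.

Proof.  `zi i := c0 w` if there is `w ∈ pt nd (2 k)` with `w ∈ sf i` (choose one), `0` otherwise. `zi i < Δ + 2` (`hF.c1`); for `ty i` the set `sf i` has at most one element (`hF.sf1`), so `c0 w = zi i` for all `w ∈ pt nd (2 k)`, `w ∈ sf i`. `wst` gives `W, lam`, `dmd` (with this `K`) gives `a`, `stg` gives `cc`.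
 `ColOut .. (K + s) φ cc`: `lt, fr, pr, t1, t2` from `stg`. `ct`: `a j ℓ + wn .. ≤ K + s` (`Dem.le`, `WOut.sz`). `ev`: `ow nd cc (2 i) ℓ = a (2 i) ℓ + wn nd W lam (2 i) ℓ` for `ℓ < Δ + 2`, `dmd`. `ba`, `bt`: for `¬ ty i` no vertex of `W` is in the pieces `2 i`, `2 i + 1` (`WOut.sub`), so `ow nd cc (2 i) ℓ = a (2 i) ℓ`, `ow nd cc (2 i + 1) ℓ = a (2 i + 1) ℓ`
 and `gg nd φ cc i ℓ = a (2 i + 1) ℓ - a (2 i) ℓ - uu nd (φ ℓ) i` for `ℓ < Δ + 2` (`2 t ≤ Δ + 2` by `hn2`).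
-/

set_option autoImplicit false

namespace Pool.Agent.H46.GA

open Finset Classical
open Pool.Agent.H71.DN Pool.Agent.H71.DX Pool.Agent.H71.DR Pool.Agent.H71.HL Pool.Agent.H71.DC
open Pool.Agent.H71.TD

theorem col {V : Type} [Fintype V] (G : SimpleGraph V) (Δ k : ℕ) (ty : ℕ → Prop)
    (nd qt : V → ℕ) (sf : ℕ → Finset V) (t : ℕ) (φ : ℕ → V → V) (c0 : V → ℕ) (d D r z e : ℕ)
    (hF : Fx G Δ k ty nd qt sf t φ c0 d D r z e) (s q : ℕ) (hs : 2 ≤ s)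
    (hq : 2 * s * d + 2 * t + r ≤ q) (hz : z + 2 * d + 2 * s * d + 2 * t + r ≤ Δ)
    (hgr : ∀ i < k, ty i → z < 16 * ((pt nd (2 * i)).card - (Δ + 1)) →
      ∃ (m : ℕ) (γ : V → ℕ), Grp G (pt nd (2 * i)) m s γ ∧ m + q ≤ Δ)
    (M K : ℕ) (hM : Fintype.card V ≤ M * Δ) (hK : 16 * M + 4 ≤ K)
    (hQ : 13 * (2 * t + r) + 40 ≤ Δ)
    (hn : 2 * (D + e + 6 * k * r + 6 * k * e) < z)
    (hn1 : 8 * (3 * K * d + D + 2 * k * s * d + 4 * k * K * d + 6 * k * r) < Δ)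
    (hn2 : 8 * (3 * t + 6 * k * r) ≤ Δ) :
    ∃ cc : V → ℕ, ColOut G Δ k ty nd qt t (K + s) φ cc := by
  classical
  have hzD : z ≤ Δ := by omega
  set zi : ℕ → ℕ := fun i =>
    if h : ∃ w, w ∈ pt nd (2 * k) ∧ w ∈ sf i then c0 (Classical.choose h) else 0 with hzidef
  have hzi : ∀ i < k, zi i < Δ + 2 := by
    intro i _
    by_cases h : ∃ w, w ∈ pt nd (2 * k) ∧ w ∈ sf i
    · have h1 : zi i = c0 (Classical.choose h) := by
        rw [hzidef]
        simp only [h, dif_pos]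
      rw [h1]
      exact (hF.c1 _ (Classical.choose_spec h).1).2.1
    · have h1 : zi i = 0 := by
        rw [hzidef]
        simp only [h, dif_neg, not_false_iff]
      rw [h1]
      omega
  have hzi2 : ∀ i < k, ty i → ∀ w ∈ pt nd (2 * k), w ∈ sf i → c0 w = zi i := by
    intro i hi hty w hw hwi
    have h : ∃ w, w ∈ pt nd (2 * k) ∧ w ∈ sf i := ⟨w, hw, hwi⟩
    have h1 : zi i = c0 (Classical.choose h) := by
      rw [hzidef]
      simp only [h, dif_pos]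
    have h2 : w = Classical.choose h :=
      Finset.card_le_one.1 (hF.sf1 i hi hty) w hwi _ (Classical.choose_spec h).2
    rw [h1, ← h2]
  obtain ⟨W, lam, hW⟩ := wst G Δ k ty nd qt sf t φ c0 d D r z e hF s q hs hq hz hgr zi
  obtain ⟨a, hA, hev, hbt, hba⟩ := dmd G Δ k ty nd qt sf t φ c0 d D r z e hF zi s W lam hW M K hM
    hK hQ hzD hzi hzi2
  obtain ⟨cc, h1, h2, h3, h4, h5, h6⟩ := stg G Δ k ty nd qt sf t φ c0 d D r z e hF zi s K W lam hW
    a hA hn hn1 hn2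
  have hw0 : ∀ i < k, ¬ ty i → ∀ ℓ, wn nd W lam (2 * i) ℓ = 0 := by
    intro i _ hty ℓ
    unfold wn
    rw [Finset.card_eq_zero, Finset.filter_eq_empty_iff]
    intro v hv hc
    apply hty
    have h7 := (hW.sub v hv).2
    have h8 : nd v / 2 = i := by
      have := hc.1
      omega
    rw [h8] at h7
    exact h7
  have hw1 : ∀ i < k, ¬ ty i → ∀ ℓ, wn nd W lam (2 * i + 1) ℓ = 0 := by
    intro i _ hty ℓ
    unfold wn
    rw [Finset.card_eq_zero, Finset.filter_eq_empty_iff]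
    intro v hv hc
    apply hty
    have h7 := (hW.sub v hv).2
    have h8 : nd v / 2 = i := by
      have := hc.1
      omega
    rw [h8] at h7
    exact h7
  have hgg : ∀ i < k, ¬ ty i → ∀ ℓ < Δ + 2, gg nd φ cc i ℓ =
      (a (2 * i + 1) ℓ : ℤ) - a (2 * i) ℓ - uu nd (φ ℓ) i := by
    intro i hi hty ℓ hℓ
    unfold gg
    rw [h6 (2 * i + 1) (by omega) ℓ hℓ, h6 (2 * i) (by omega) ℓ hℓ, hw0 i hi hty ℓ,
      hw1 i hi hty ℓ]
    simp only [Nat.add_zero]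
  refine ⟨cc, ?_⟩
  refine ⟨h1, h2, h3, h4, h5, ?_, ?_, ?_, ?_⟩
  · intro j hj ℓ hℓ
    rw [h6 j hj ℓ hℓ]
    exact Nat.add_le_add (hA.le j ℓ) (hW.sz j ℓ)
  · intro i hi hty
    have h7 := hev i hi hty
    have h8 : ((range (Δ + 2)).filter fun ℓ =>
        ¬ Even ((pt nd (2 * i)).card + cv nd (φ ℓ) (2 * i) + ow nd cc (2 * i) ℓ)) =
        ((range (Δ + 2)).filter fun ℓ => ¬ Even ((pt nd (2 * i)).card +
          cv nd (φ ℓ) (2 * i) + (a (2 * i) ℓ + wn nd W lam (2 * i) ℓ))) := by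
      refine Finset.filter_congr ?_
      intro ℓ hℓ
      rw [h6 (2 * i) (by omega) ℓ (Finset.mem_range.1 hℓ)]
    rw [h8]
    exact h7
  · intro i hi hty
    refine le_trans (le_of_eq ?_) (hba i hi hty)
    refine Finset.sum_congr rfl ?_
    intro ℓ hℓ
    rw [hgg i hi hty ℓ (Finset.mem_range.1 hℓ)]
  · intro i hi hty ℓ hℓ
    rw [hgg i hi hty ℓ (by omega)]
    exact hbt i hi hty ℓ hℓ

end Pool.Agent.H46.GA
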