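import Mathlib
import Pool.Agent.H46.GA.Fhf
import Pool.Agent.H46.GA.Fdg

/-!
FCT: the facts `Fx` from `Str`, `Spl`, `FcOut`. Use the STATEMENTS of `fhf` (`GA/Fhf.lean`) and `fdE, fdA, fdB, fdL, fcn, fcl` (`GA/Fdg.lean`).

Proof.  `n := card V`, `F := Fg G k ty nd`.
 * `le, odd, even, bal, sf1, adj, t1, t2, c1, c2, ub, us`: from `Str` (`le, e1, b1, s2`) and `FcOut`. `big`: `Δ ≤ #C + ξ n ≤ #C + d`, `10 d ≤ Δ`. `half`: `fhf`. `cnt`: `fcn`. `dlo`: `fdL`. `lo`: `#pt nd (2 k) ≤ f n ≤ r` (cast to `ℝ`).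
 * `dF`: `v` with `nd v < 2 k`, `i := nd v / 2`. If `ty i` then `nd v = 2 i` (`e1`: the piece `2 i + 1` is empty), `dg F v + dgi G C v = Δ` (`fdE`) and `Δ ≤ dgi G C v + ξ n ≤ dgi G C v + d` (`e2`). If `¬ ty i`: the same with `fdA, b2` (`nd v = 2 i`) and `fdB, b3` (`nd v = 2 i + 1`).
 * `hi`: let `T` be the filter; `#T * (e + 1) ≤ ∑_{v ∈ T} dg F v ≤ f n² ≤ e²` (`sm`), so `#T ≤ e` (otherwise `(e + 1)² ≤ e²`).
 * `cod`: `C = {v} ∪ {u ∈ C : G.Adj v u} ∪ {u ∈ C : u ≠ v, ¬ G.Adj v u}` (disjoint), so `#{..} + 1 + dgi G C v = #C`, and `dg F v + dgi G C v = Δ` (`fdE`).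
 * `nn, ns`: from `s3, s4` and `z ≤ ζ n` (cast). `sm`: `FcOut.sm` and `δ n ≤ D` (cast).
 * `sE`: by `fcl`, `cnt`: `∑ = ∑_{v ∈ C} dg F v`, and `∑_{v ∈ C} (dg F v + dgi G C v) = #C Δ` is even (`e1`), and `∑_{v ∈ C} dgi G C v` is even: it is the number of ordered pairs `(u, v)`, `u, v ∈ C`, adjacent (e.g. `∑ v ∈ C, dgi G C v` is the sum of the degrees of the induced graph, `SimpleGraph.sum_degrees_eq_twice_card_edges`, or use the involution
   `(u, v) ↦ (v, u)` without fixed points: `Finset.card_involution`-like lemma / `Finset.even_card_of_involution`-style; or search `Pool/Agent/H71` for an existing lemma on the parity of `ee G C C`).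
 * `sB`: `uu nd (φ ℓ) i = cv nd (φ ℓ) (2 i) - cv nd (φ ℓ) (2 i + 1)` (by definition), by `fcl`, `cnt` the sum is `∑_{v ∈ A} dg F v - ∑_{v ∈ B} dg F v = (#A Δ - ∑_{v ∈ A} dgi G B v) - (#B Δ - ∑_{v ∈ B} dgi G A v) = 0` as `#A = #B` and both sums count the adjacent pairs in `A × B` (`Finset.sum_comm`).
-/

set_option autoImplicit false

namespace Pool.Agent.H46.GA

open Finset Classical
open Pool.Agent.H71.DN Pool.Agent.H71.DX Pool.Agent.H71.DR Pool.Agent.H71.HL Pool.Agent.H71.DC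
open Pool.Agent.H71.TD

private theorem fct_even_dgi {V : Type} [Fintype V] (G : SimpleGraph V) (C : Finset V) :
    Even (∑ v ∈ C, dgi G C v) := by
  let G' : SimpleGraph V :=
    { Adj := fun a b => G.Adj a b ∧ a ∈ C ∧ b ∈ C
      symm := ⟨fun _ _ h => ⟨h.1.symm, h.2.2, h.2.1⟩⟩
      loopless := ⟨fun _ h => G.irrefl h.1⟩ }
  have h1 : ∑ v ∈ C, dgi G C v = ∑ v, G'.degree v := by
    rw [← Finset.sum_subset (Finset.subset_univ C)]
    · refine Finset.sum_congr rfl fun v hv => ?_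
      unfold dgi
      rw [← SimpleGraph.card_neighborFinset_eq_degree]
      congr 1
      ext u
      rw [Finset.mem_filter, SimpleGraph.mem_neighborFinset]
      constructor
      · rintro ⟨h, h'⟩
        exact ⟨h', hv, h⟩
      · rintro ⟨h, _, h'⟩
        exact ⟨h', h⟩
    · intro v _ hv
      rw [← SimpleGraph.card_neighborFinset_eq_degree, Finset.card_eq_zero]
      apply Finset.eq_empty_of_forall_notMem
      intro u hu
      rw [SimpleGraph.mem_neighborFinset] at hu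
      exact hv hu.2.1
  rw [h1, SimpleGraph.sum_degrees_eq_twice_card_edges]
  exact even_two_mul _

private theorem fct_dc {V : Type} [Fintype V] (G : SimpleGraph V) (A B : Finset V) :
    ∑ v ∈ A, dgi G B v = ∑ v ∈ B, dgi G A v := by
  have h := Finset.sum_card_bipartiteAbove_eq_sum_card_bipartiteBelow (s := A) (t := B) G.Adj
  unfold Finset.bipartiteAbove Finset.bipartiteBelow at h
  unfold dgi
  rw [h]
  refine Finset.sum_congr rfl fun v _ => ?_
  congr 1
  ext u
  rw [Finset.mem_filter, Finset.mem_filter, G.adj_comm]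

theorem fct {V : Type} [Fintype V] (G : SimpleGraph V) (Δ k KE KB t : ℕ) (c x ξ ζ f η f1 δ : ℝ)
    (ty : ℕ → Prop) (nd qt : V → ℕ) (sf : ℕ → Finset V) (φ : ℕ → V → V) (c0 : V → ℕ)
    (d D r z e : ℕ) (hS : Str G Δ c x ξ ζ f k ty nd sf) (hP : Spl G k ty nd qt η KE KB f1)
    (hφ : FcOut G Δ k ty nd qt t δ φ c0) (hη : η ≤ 1 / 100)
    (hd : ξ * Fintype.card V ≤ d) (hD : δ * Fintype.card V ≤ D) (hr : f * Fintype.card V ≤ r)
    (hz : (z : ℝ) ≤ ζ * Fintype.card V) (he : f * (Fintype.card V : ℝ) ^ 2 ≤ (e : ℝ) ^ 2)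
    (hdΔ : 10 * d ≤ Δ) : Fx G Δ k ty nd qt sf t φ c0 d D r z e := by
  have hodd : ∀ i < k, ty i → pt nd (2 * i + 1) = ∅ := fun i hi ht => (hS.e1 i hi ht).1
  have hbal : ∀ i < k, ¬ ty i → (pt nd (2 * i)).card = (pt nd (2 * i + 1)).card :=
    fun i hi ht => hS.b1 i hi ht
  have hbig : ∀ i < k, 9 * Δ ≤ 10 * (pt nd (2 * i)).card := by
    intro i hi
    have h1 : (Δ : ℝ) ≤ (pt nd (2 * i)).card + (d : ℝ) := le_trans (hS.big i hi) (by linarith)
    have h2 : Δ ≤ (pt nd (2 * i)).card + d := by exact_mod_cast h1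
    omega
  have hmem : ∀ v j, v ∈ pt nd j ↔ nd v = j := by
    intro v j
    unfold pt
    rw [Finset.mem_filter]
    exact ⟨fun h => h.2, fun h => ⟨Finset.mem_univ v, h⟩⟩
  have hcnt := fcn G Δ k ty nd qt t δ φ c0 hφ
  have hdF : ∀ v, nd v < 2 * k → dg (Fg G k ty nd) v ≤ d := by
    intro v hv
    have hi : nd v / 2 < k := by omega
    by_cases ht : ty (nd v / 2)
    · have h0 : nd v = 2 * (nd v / 2) := by
        by_contra hne
        have h1 : nd v = 2 * (nd v / 2) + 1 := by omega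
        have h2 : v ∈ pt nd (2 * (nd v / 2) + 1) := (hmem _ _).2 h1
        rw [hodd _ hi ht] at h2
        exact absurd h2 (Finset.notMem_empty _)
      have h3 : v ∈ pt nd (2 * (nd v / 2)) := (hmem _ _).2 h0
      have h4 := fdE G Δ k ty nd hS.reg (nd v / 2) hi ht (hodd _ hi ht) v h3
      have h5 : (Δ : ℝ) ≤ dgi G (pt nd (2 * (nd v / 2))) v + (d : ℝ) :=
        le_trans (hS.e2 _ hi ht v h3) (by linarith)
      have h6 : Δ ≤ dgi G (pt nd (2 * (nd v / 2))) v + d := by exact_mod_cast h5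
      omega
    · rcases (by omega : nd v = 2 * (nd v / 2) ∨ nd v = 2 * (nd v / 2) + 1) with h0 | h0
      · have h3 : v ∈ pt nd (2 * (nd v / 2)) := (hmem _ _).2 h0
        have h4 := fdA G Δ k ty nd hS.reg (nd v / 2) hi ht v h3
        have h5 : (Δ : ℝ) ≤ dgi G (pt nd (2 * (nd v / 2) + 1)) v + (d : ℝ) :=
          le_trans (hS.b2 _ hi ht v h3) (by linarith)
        have h6 : Δ ≤ dgi G (pt nd (2 * (nd v / 2) + 1)) v + d := by exact_mod_cast h5
        omega
      · have h3 : v ∈ pt nd (2 * (nd v / 2) + 1) := (hmem _ _).2 h0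
        have h4 := fdB G Δ k ty nd hS.reg (nd v / 2) hi ht v h3
        have h5 : (Δ : ℝ) ≤ dgi G (pt nd (2 * (nd v / 2))) v + (d : ℝ) :=
          le_trans (hS.b3 _ hi ht v h3) (by linarith)
        have h6 : Δ ≤ dgi G (pt nd (2 * (nd v / 2))) v + d := by exact_mod_cast h5
        omega
  have hhi : (univ.filter fun v => nd v < 2 * k ∧ e < dg (Fg G k ty nd) v).card ≤ e := by
    by_contra hlt
    rw [not_le] at hlt
    have h1 : ∑ v ∈ univ.filter (fun v => nd v < 2 * k), dg (Fg G k ty nd) v ≤ e ^ 2 := by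
      have h2 := le_trans hS.sm he
      exact_mod_cast h2
    have h3 : ∑ v ∈ univ.filter (fun v => nd v < 2 * k ∧ e < dg (Fg G k ty nd) v),
        dg (Fg G k ty nd) v ≤ ∑ v ∈ univ.filter (fun v => nd v < 2 * k), dg (Fg G k ty nd) v := by
      apply Finset.sum_le_sum_of_subset
      intro v hv
      rw [Finset.mem_filter] at hv ⊢
      exact ⟨hv.1, hv.2.1⟩
    have h4 : (univ.filter fun v => nd v < 2 * k ∧ e < dg (Fg G k ty nd) v).card * (e + 1) ≤
        ∑ v ∈ univ.filter (fun v => nd v < 2 * k ∧ e < dg (Fg G k ty nd) v),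
        dg (Fg G k ty nd) v := by
      rw [← smul_eq_mul]
      apply Finset.card_nsmul_le_sum
      intro v hv
      rw [Finset.mem_filter] at hv
      exact hv.2.2
    have h5 : (e + 1) * (e + 1) ≤
        (univ.filter fun v => nd v < 2 * k ∧ e < dg (Fg G k ty nd) v).card * (e + 1) :=
      Nat.mul_le_mul_right _ hlt
    nlinarith
  have hcod : ∀ i < k, ty i → ∀ v ∈ pt nd (2 * i),
      ((pt nd (2 * i)).filter fun u => u ≠ v ∧ ¬ G.Adj v u).card + (Δ + 1) =
      (pt nd (2 * i)).card + dg (Fg G k ty nd) v := by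
    intro i hi ht v hv
    have h1 := fdE G Δ k ty nd hS.reg i hi ht (hodd i hi ht) v hv
    have h2 := Finset.card_filter_add_card_filter_not (s := pt nd (2 * i)) (fun u => G.Adj v u)
    have h3 : (pt nd (2 * i)).filter (fun u => ¬ G.Adj v u) =
        insert v ((pt nd (2 * i)).filter fun u => u ≠ v ∧ ¬ G.Adj v u) := by
      ext u
      rw [Finset.mem_insert, Finset.mem_filter, Finset.mem_filter]
      constructor
      · rintro ⟨h, h'⟩
        by_cases huv : u = v
        · exact Or.inl huv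
        · exact Or.inr ⟨h, huv, h'⟩
      · rintro (h | ⟨h, _, h'⟩)
        · rw [h]
          exact ⟨hv, G.irrefl⟩
        · exact ⟨h, h'⟩
    have h4 : v ∉ ((pt nd (2 * i)).filter fun u => u ≠ v ∧ ¬ G.Adj v u) := by
      intro h
      rw [Finset.mem_filter] at h
      exact h.2.1 rfl
    rw [h3, Finset.card_insert_of_notMem h4] at h2
    unfold dgi at h1
    omega
  have hnn : ∀ i < k, ∀ w ∈ pt nd (2 * k), w ∉ sf i →
      z ≤ ((pt nd (2 * i)).filter fun v => ¬ G.Adj w v).card ∧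
      (¬ ty i → z ≤ ((pt nd (2 * i + 1)).filter fun v => ¬ G.Adj w v).card) := by
    intro i hi w hw hws
    obtain ⟨h1, h2⟩ := hS.s3 i hi w hw hws
    refine ⟨by exact_mod_cast le_trans hz h1, fun ht => by exact_mod_cast le_trans hz (h2 ht)⟩
  have hns : ∀ i < k, ¬ ty i →
      (∀ w ∈ sf i, z ≤ ((pt nd (2 * i)).filter fun v => ¬ G.Adj w v).card) ∨
      (∀ w ∈ sf i, z ≤ ((pt nd (2 * i + 1)).filter fun v => ¬ G.Adj w v).card) := by
    intro i hi ht
    rcases hS.s4 i hi ht with h | h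
    · exact Or.inl fun w hw => by exact_mod_cast le_trans hz (h w hw)
    · exact Or.inr fun w hw => by exact_mod_cast le_trans hz (h w hw)
  have hsE : ∀ i < k, ty i → Even (∑ ℓ ∈ range (Δ + 2), cv nd (φ ℓ) (2 * i)) := by
    intro i hi ht
    rw [fcl, Finset.sum_congr rfl fun v _ => hcnt v]
    have h1 : ∑ v ∈ pt nd (2 * i), (dg (Fg G k ty nd) v + dgi G (pt nd (2 * i)) v) =
        (pt nd (2 * i)).card * Δ := by
      rw [Finset.sum_congr rfl fun v hv =>
        fdE G Δ k ty nd hS.reg i hi ht (hodd i hi ht) v hv, Finset.sum_const, smul_eq_mul]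
    rw [Finset.sum_add_distrib] at h1
    have h2 : Even ((pt nd (2 * i)).card * Δ) := (hS.e1 i hi ht).2.mul_right Δ
    rw [← h1, Nat.even_add] at h2
    exact h2.2 (fct_even_dgi G (pt nd (2 * i)))
  have hsB : ∀ i < k, ¬ ty i → ∑ ℓ ∈ range (Δ + 2), uu nd (φ ℓ) i = 0 := by
    intro i hi ht
    have h0 : ∀ ℓ, uu nd (φ ℓ) i = (cv nd (φ ℓ) (2 * i) : ℤ) - (cv nd (φ ℓ) (2 * i + 1) : ℤ) :=
      fun ℓ => rfl
    rw [Finset.sum_congr rfl fun ℓ _ => h0 ℓ, Finset.sum_sub_distrib, ← Nat.cast_sum,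
      ← Nat.cast_sum, fcl, fcl, Finset.sum_congr rfl fun v _ => hcnt v,
      Finset.sum_congr (s₁ := pt nd (2 * i + 1)) rfl fun v _ => hcnt v]
    have h1 : ∑ v ∈ pt nd (2 * i), (dg (Fg G k ty nd) v + dgi G (pt nd (2 * i + 1)) v) =
        (pt nd (2 * i)).card * Δ := by
      rw [Finset.sum_congr rfl fun v hv =>
        fdA G Δ k ty nd hS.reg i hi ht v hv, Finset.sum_const, smul_eq_mul]
    have h2 : ∑ v ∈ pt nd (2 * i + 1), (dg (Fg G k ty nd) v + dgi G (pt nd (2 * i)) v) =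
        (pt nd (2 * i + 1)).card * Δ := by
      rw [Finset.sum_congr rfl fun v hv =>
        fdB G Δ k ty nd hS.reg i hi ht v hv, Finset.sum_const, smul_eq_mul]
    rw [Finset.sum_add_distrib] at h1 h2
    rw [← hbal i hi ht, ← h1, fct_dc G (pt nd (2 * i)) (pt nd (2 * i + 1))] at h2
    have h3 := Nat.add_right_cancel h2
    rw [h3, sub_self]
  exact
    { le := hS.le
      odd := hodd
      even := fun i hi ht => (hS.e1 i hi ht).2
      bal := hbal
      big := hbig
      half := fhf G Δ k KE KB ty nd qt η f1 hP hη hodd hbal hbig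
      dF := hdF
      hi := hhi
      lo := by exact_mod_cast le_trans hS.lo hr
      cod := hcod
      sf1 := hS.s2
      nn := hnn
      ns := hns
      cnt := hcnt
      adj := hφ.adj
      t1 := hφ.t1
      t2 := hφ.t2
      c1 := hφ.c1
      c2 := hφ.c2
      dlo := fdL G Δ k ty nd hS.reg
      sm := fun ℓ hℓ => by exact_mod_cast le_trans (hφ.sm ℓ hℓ) hD
      ub := hφ.ub
      us := hφ.us
      sE := hsE
      sB := hsB }

end Pool.Agent.H46.GA
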