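import Mathlib
import Pool.Agent.H46.GA.Mxp

/-!
GRX: an expanding part with clearly more than `Δ + 1` vertices has a proper colouring with few classes of bounded size. Use the STATEMENT of `prm` (`GA/Mxp.lean`).

Proof.  Let `C := pt nd (2 i)`, `N := #C`, `p := N - (Δ + 1)`, so `z < 16 p`, `0 < p`, `N = Δ + 1 + p`. If `11 Δ < 10 N` use `hch`. Otherwise `10 N ≤ 11 Δ`. For `v ∈ C` the number of `u ∈ C`, `u ≠ v`, `u` not adjacent to `v`, is `p + dg (Fg G k ty nd) v` (`hF.cod`). So `h1`, `h2` (by `hF.dF`, `nd v = 2 i < 2 k`) of `prm` hold, and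
`h3`: the filter is contained in that of `hF.hi`. `15 e ≤ p` by `240 e ≤ z < 16 p`, `p + d ≤ N` by `d ≤ Δ`. `prm` gives `m`, `γ` with `Grp G C m 2 γ`, so `Grp G C m s γ` (`2 ≤ s`), and `40 m ≤ 31 N`, `400 m ≤ 31 * 11 Δ = 341 Δ`, so `m + q ≤ Δ` by `10 q ≤ Δ`.
-/

set_option autoImplicit false

namespace Pool.Agent.H46.GA

open Finset Classical
open Pool.Agent.H71.DN Pool.Agent.H71.DX Pool.Agent.H71.DR Pool.Agent.H71.HL Pool.Agent.H71.DC
open Pool.Agent.H71.TD

theorem grx {V : Type} [Fintype V] (G : SimpleGraph V) (Δ k : ℕ) (ty : ℕ → Prop)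
    (nd qt : V → ℕ) (sf : ℕ → Finset V) (t : ℕ) (φ : ℕ → V → V) (c0 : V → ℕ) (d D r z e : ℕ)
    (hF : Fx G Δ k ty nd qt sf t φ c0 d D r z e) (s q : ℕ) (hs : 2 ≤ s) (hq : 10 * q ≤ Δ)
    (he : 240 * e ≤ z) (hd : d ≤ Δ)
    (hch : ∀ i < k, ty i → 11 * Δ < 10 * (pt nd (2 * i)).card →
      ∃ (m : ℕ) (γ : V → ℕ), Grp G (pt nd (2 * i)) m s γ ∧ m + q ≤ Δ) :
    ∀ i < k, ty i → z < 16 * ((pt nd (2 * i)).card - (Δ + 1)) →
      ∃ (m : ℕ) (γ : V → ℕ), Grp G (pt nd (2 * i)) m s γ ∧ m + q ≤ Δ := by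
  intro i hi hty hz
  by_cases h11 : 11 * Δ < 10 * (pt nd (2 * i)).card
  · exact hch i hi hty h11
  have hnd : ∀ v ∈ pt nd (2 * i), nd v = 2 * i := by
    intro v hv
    unfold pt at hv
    exact (mem_filter.1 hv).2
  have hcod := hF.cod i hi hty
  obtain ⟨m, γ, hG, hm⟩ := prm G (pt nd (2 * i)) ((pt nd (2 * i)).card - (Δ + 1)) d e
    (by
      intro v hv
      have h1 := hcod v hv
      omega)
    (by
      intro v hv
      have h1 := hcod v hv
      have h2 := hF.dF v (by rw [hnd v hv]; omega)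
      omega)
    (by
      refine le_trans (card_le_card ?_) hF.hi
      intro v hv
      rw [mem_filter] at hv
      rw [mem_filter]
      have h1 := hcod v hv.1
      have h2 := hv.2
      have h3 := hnd v hv.1
      refine ⟨mem_univ _, by omega, by omega⟩)
    (by omega) (by omega) (by omega)
  refine ⟨m, γ, ⟨hG.lt, hG.pr, fun j => (hG.sz j).trans hs⟩, ?_⟩
  omega

end Pool.Agent.H46.GA
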