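import Mathlib
import Pool.Agent.H46.GA.Hnm
import Pool.Agent.H46.GA.Defs

/-!
HLA: the numbers of holes in all pieces. Use the STATEMENTS of `hnE`, `hnB` (`GA/Hnm.lean`).

Proof.  `L := Δ + 2`, `t0 := 2 t`, `K0 := 2 M`. `#pt nd j ≤ card V ≤ M Δ ≤ 2 M (L - 2 t)` as `2 (L - 2 t) ≥ Δ` (`4 t ≤ Δ`). For `j < 2 k`: `∑_{ℓ < L} ow nd cc j ℓ = #pt nd j` (`cc v < L`, `hC.lt`).
 * `i < k`, `ty i`, `N := #pt nd (2 i)` (even): `hnE L (2 t) N (2 M) (fun ℓ => N + cv nd (φ ℓ) (2 i) + ow nd cc (2 i) ℓ)`: `hsum`: `∑ = L N + ∑ cv + N`, even by `hF.sE`, `hF.even`. `hodd`: `hC.ev`. `hK`: `N ≤ 2 M (L - 2 t)`. It gives `q`; `b (2 i) := q` and `b (2 i + 1) := 0` (`pt nd (2 i + 1) = ∅`, `hF.odd`). `2 K0 + 3 = 4 M + 3`.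
 * `i < k`, `¬ ty i`, `h := #pt nd (2 i) = #pt nd (2 i + 1)`: `hnB L (2 t) h (2 M) (K + 3) (gg nd φ cc i)`: `hs`: `∑ gg = h - h - 0` (`hF.sB`). `hp`: `hC.ba`. `h0`: `hC.bt`. `hg`: `|gg| ≤ |ow - ow| + |uu| ≤ K + 3` (`hC.ct`, `hF.ub`). It gives `qA, qB`; `b (2 i) := qA`, `b (2 i + 1) := qB`; `2 M + (K + 3) + 1 ≤ 4 M + K + 4`.
 * `b j := 0` for `2 k ≤ j`. (`choose` the functions, then define `b j ℓ` by cases on `j / 2 < k`, `ty (j / 2)`, `j % 2`.)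
-/

set_option autoImplicit false

namespace Pool.Agent.H46.GA

open Finset Classical
open Pool.Agent.H71.DN Pool.Agent.H71.DX Pool.Agent.H71.DR Pool.Agent.H71.HL Pool.Agent.H71.DC
open Pool.Agent.H71.TD

theorem hla_ow {V : Type} [Fintype V] (nd cc : V → ℕ) (L : ℕ) (hlt : ∀ v, cc v < L) (j : ℕ) :
    ∑ ℓ ∈ range L, ow nd cc j ℓ = (pt nd j).card := by
  symm
  unfold ow
  apply Finset.card_eq_sum_card_fiberwise
  intro v _
  rw [Finset.mem_coe, Finset.mem_range]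
  exact hlt v

theorem hla_one {V : Type} [Fintype V] (G : SimpleGraph V) (Δ k : ℕ) (ty : ℕ → Prop)
    (nd qt : V → ℕ) (sf : ℕ → Finset V) (t : ℕ) (φ : ℕ → V → V) (c0 : V → ℕ) (d D r z e : ℕ)
    (hF : Fx G Δ k ty nd qt sf t φ c0 d D r z e) (K : ℕ) (cc : V → ℕ)
    (hC : ColOut G Δ k ty nd qt t K φ cc) (M : ℕ) (hM : Fintype.card V ≤ M * Δ)
    (ht : 4 * t ≤ Δ) (i : ℕ) :
    ∃ f0 f1 : ℕ → ℕ, (i < k → ∑ ℓ ∈ range (Δ + 2), f0 ℓ = (pt nd (2 * i)).card ∧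
        ∑ ℓ ∈ range (Δ + 2), f1 ℓ = (pt nd (2 * i + 1)).card) ∧
      (∀ ℓ, f0 ℓ ≤ 4 * M + K + 4 ∧ f1 ℓ ≤ 4 * M + K + 4) ∧
      (∀ ℓ < 2 * t, f0 ℓ ≤ 1 ∧ f1 ℓ ≤ 1) ∧
      (i < k → ty i → ∀ ℓ < Δ + 2, Even ((pt nd (2 * i)).card + cv nd (φ ℓ) (2 * i) +
        ow nd cc (2 * i) ℓ + f0 ℓ)) ∧
      (i < k → ¬ ty i → ∀ ℓ < Δ + 2, (f0 ℓ : ℤ) - f1 ℓ = gg nd φ cc i ℓ) := by
  have hK : ∀ j, (pt nd j).card ≤ 2 * M * (Δ + 2 - 2 * t) := by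
    intro j
    have h1 : (pt nd j).card ≤ Fintype.card V := Finset.card_le_univ _
    have h2 : Δ ≤ 2 * (Δ + 2 - 2 * t) := by omega
    have h3 : M * Δ ≤ M * (2 * (Δ + 2 - 2 * t)) := Nat.mul_le_mul_left M h2
    have h4 : M * (2 * (Δ + 2 - 2 * t)) = 2 * M * (Δ + 2 - 2 * t) := by ring
    omega
  by_cases hi : i < k
  · by_cases hty : ty i
    · have hN := hF.even i hi hty
      have how := hla_ow nd cc (Δ + 2) hC.lt (2 * i)
      have hsum : Even (∑ ℓ ∈ range (Δ + 2), ((pt nd (2 * i)).card + cv nd (φ ℓ) (2 * i) +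
          ow nd cc (2 * i) ℓ)) := by
        rw [Finset.sum_add_distrib, Finset.sum_add_distrib, how, Finset.sum_const,
          Finset.card_range, smul_eq_mul]
        exact ((hN.mul_left _).add (hF.sE i hi hty)).add hN
      obtain ⟨q, h1, h2, h3, h4⟩ := hnE (Δ + 2) (2 * t) (pt nd (2 * i)).card (2 * M)
        (fun ℓ => (pt nd (2 * i)).card + cv nd (φ ℓ) (2 * i) + ow nd cc (2 * i) ℓ) hN hsum
        (hC.ev i hi hty) (by omega) (hK _)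
      refine ⟨q, fun _ => 0, ?_, ?_, ?_, ?_, ?_⟩
      · intro _
        refine ⟨h2, ?_⟩
        rw [hF.odd i hi hty]
        exact Finset.sum_const_zero
      · intro ℓ
        have h5 := h4 ℓ
        exact ⟨by omega, Nat.zero_le _⟩
      · intro ℓ hℓ
        exact ⟨h3 ℓ hℓ, Nat.zero_le _⟩
      · intro _ _ ℓ hℓ
        exact h1 ℓ hℓ
      · intro _ h
        exact absurd hty h
    · have hbal := hF.bal i hi hty
      have how0 := hla_ow nd cc (Δ + 2) hC.lt (2 * i)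
      have how1 := hla_ow nd cc (Δ + 2) hC.lt (2 * i + 1)
      have hs : ∑ ℓ ∈ range (Δ + 2), gg nd φ cc i ℓ = 0 := by
        unfold gg
        rw [Finset.sum_sub_distrib, Finset.sum_sub_distrib, hF.sB i hi hty, ← Nat.cast_sum,
          ← Nat.cast_sum, how0, how1, hbal]
        ring
      have hg : ∀ ℓ < Δ + 2, |gg nd φ cc i ℓ| ≤ ((K + 3 : ℕ) : ℤ) := by
        intro ℓ hℓ
        have a0 := hC.ct (2 * i) (by omega) ℓ hℓ
        have a1 := hC.ct (2 * i + 1) (by omega) ℓ hℓ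
        have a2 := abs_le.1 (hF.ub i hi hty ℓ hℓ)
        unfold gg
        rw [abs_le]
        push_cast
        omega
      obtain ⟨qA, qB, h1, h2, h3, h4, h5⟩ := hnB (Δ + 2) (2 * t) (pt nd (2 * i)).card (2 * M)
        (K + 3) (gg nd φ cc i) hs (hC.ba i hi hty) (hC.bt i hi hty) hg (by omega) (hK _)
      refine ⟨qA, qB, ?_, ?_, ?_, ?_, ?_⟩
      · intro _
        exact ⟨h2, by rw [h3, hbal]⟩
      · intro ℓ
        have h6 := h5 ℓ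
        exact ⟨by omega, by omega⟩
      · intro ℓ hℓ
        have h6 := h4 ℓ hℓ
        exact ⟨by omega, by omega⟩
      · intro _ h
        exact absurd h hty
      · intro _ _ ℓ hℓ
        exact h1 ℓ hℓ
  · refine ⟨fun _ => 0, fun _ => 0, fun h => absurd h hi, fun ℓ => ⟨Nat.zero_le _, Nat.zero_le _⟩,
      fun ℓ _ => ⟨Nat.zero_le _, Nat.zero_le _⟩, fun h => absurd h hi, fun h => absurd h hi⟩

theorem hla {V : Type} [Fintype V] (G : SimpleGraph V) (Δ k : ℕ) (ty : ℕ → Prop)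
    (nd qt : V → ℕ) (sf : ℕ → Finset V) (t : ℕ) (φ : ℕ → V → V) (c0 : V → ℕ) (d D r z e : ℕ)
    (hF : Fx G Δ k ty nd qt sf t φ c0 d D r z e) (K : ℕ) (cc : V → ℕ)
    (hC : ColOut G Δ k ty nd qt t K φ cc) (M : ℕ) (hM : Fintype.card V ≤ M * Δ)
    (ht : 4 * t ≤ Δ) :
    ∃ b : ℕ → ℕ → ℕ, (∀ j < 2 * k, ∑ ℓ ∈ range (Δ + 2), b j ℓ = (pt nd j).card) ∧
      (∀ j ℓ, b j ℓ ≤ 4 * M + K + 4) ∧ (∀ j < 2 * k, ∀ ℓ < 2 * t, b j ℓ ≤ 1) ∧
      (∀ i < k, ty i → ∀ ℓ < Δ + 2, Even ((pt nd (2 * i)).card + cv nd (φ ℓ) (2 * i) +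
        ow nd cc (2 * i) ℓ + b (2 * i) ℓ)) ∧
      ∀ i < k, ¬ ty i → ∀ ℓ < Δ + 2, (b (2 * i) ℓ : ℤ) - b (2 * i + 1) ℓ = gg nd φ cc i ℓ := by
  have h0 := hla_one G Δ k ty nd qt sf t φ c0 d D r z e hF K cc hC M hM ht
  choose f0 f1 h1 h2 h3 h4 h5 using h0
  have e0 : ∀ i ℓ, (if 2 * i % 2 = 0 then f0 (2 * i / 2) ℓ else f1 (2 * i / 2) ℓ) = f0 i ℓ := by
    intro i ℓ
    rw [if_pos (by omega), show 2 * i / 2 = i by omega]
  have e1 : ∀ i ℓ, (if (2 * i + 1) % 2 = 0 then f0 ((2 * i + 1) / 2) ℓ else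
      f1 ((2 * i + 1) / 2) ℓ) = f1 i ℓ := by
    intro i ℓ
    rw [if_neg (by omega), show (2 * i + 1) / 2 = i by omega]
  refine ⟨fun j ℓ => if j % 2 = 0 then f0 (j / 2) ℓ else f1 (j / 2) ℓ, ?_, ?_, ?_, ?_, ?_⟩
  · intro j hj
    dsimp only
    by_cases hp : j % 2 = 0
    · have hj2 : 2 * (j / 2) = j := by omega
      simp only [if_pos hp]
      have h6 := (h1 (j / 2) (by omega)).1
      rw [hj2] at h6
      exact h6
    · have hj2 : 2 * (j / 2) + 1 = j := by omega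
      simp only [if_neg hp]
      have h6 := (h1 (j / 2) (by omega)).2
      rw [hj2] at h6
      exact h6
  · intro j ℓ
    dsimp only
    split_ifs
    · exact (h2 _ ℓ).1
    · exact (h2 _ ℓ).2
  · intro j _ ℓ hℓ
    dsimp only
    split_ifs
    · exact (h3 _ ℓ hℓ).1
    · exact (h3 _ ℓ hℓ).2
  · intro i hi hty ℓ hℓ
    dsimp only
    rw [e0]
    exact h4 i hi hty ℓ hℓ
  · intro i hi hty ℓ hℓ
    dsimp only
    rw [e0, e1]
    exact h5 i hi hty ℓ hℓ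

end Pool.Agent.H46.GA
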