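import Mathlib
import Pool.Agent.H46.GA.Hla
import Pool.Agent.H46.GA.Cl2

/-!
HOL: the holes. Use the STATEMENTS of `hla` (`GA/Hla.lean`) and `cl2` (`GA/Cl2.lean`).

Proof.  `L := Δ + 2`. `hla` gives `b`, bounded by `K' := 4 M + K + 4`. `U := {v // nd v < 2 k}`. Apply `cl2` to the type `U`, `ι := Fin (2 k)`, the empty graph `⊥`, `N := L`, `t`, `pool v := ⟨nd v, _⟩`, `x v := qt v < 2`, `a j := b j`, `S := K'`, `d := 0`, `f := d + 1`, `g := D + 2 k K`, `forb ℓ := {v : φ ℓ v ≠ v ∨ cc v = ℓ}`.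
 * `hf`: `dg F v ≤ d` labels with `φ ℓ v ≠ v` (`hF.cnt, hF.dF`), and `cc v`. `hg`: `D` (`hF.sm`) plus `∑_{j < 2 k} ow nd cc j ℓ ≤ 2 k K` (`hC.ct`). `hX`, `hY`: if the pool `j` is empty the sum is `0` (by `hsum`); otherwise `Δ ≤ 4 #{u : nd u = j, qt u < 2}` (`hF.half`) and the sum is at most `t` (`b j ℓ ≤ 1` for `ℓ < 2 t`), `4 t ≤ Δ`. `hbig`: `hF.half` and `hn`.
 This gives the holes `hh v` of the vertices with `nd v < 2 k`: `φ (hh v) v = v`, `hh v ≠ cc v`, the blocks, and `#{v : nd v = j, hh v = ℓ} = b j ℓ`. For `nd v = 2 k` (`hF.le`): exactly two labels `ℓ < L` have `φ ℓ v = v` (`hF.cnt, hF.dlo`), one is `cc v` (`hC.fr, hC.lt`), `hh v :=` the other one.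
 `GaOut`: `lt, fr, pr, t1, t2` clear. For a piece `j < 2 k` and `ℓ < L` the sets `{φ ℓ v ≠ v}`, `{cc v = ℓ}`, `{hh v = ℓ}` in `pt nd j` are disjoint, so `#{v ∈ pt nd j : ¬ (φ ℓ v ≠ v ∨ cc v = ℓ ∨ hh v = ℓ)} + cv nd (φ ℓ) j + ow nd cc j ℓ + b j ℓ = #pt nd j`. `ev`: from the parity claim of `hla` (`x + y` and `x` have the same parity if ... : the number is `N - (cv + ow + b)`,
 and `N + (cv + ow + b)` is even). `ba`: from `b (2 i) ℓ - b (2 i + 1) ℓ = gg = ow (2 i + 1) ℓ - ow (2 i) ℓ - (cv (2 i) - cv (2 i + 1))` (`uu` is by definition the difference of the `cv`) and `hF.bal`. `sm`: the number is at most `D + ∑_{j < 2 k} (ow nd cc j ℓ + b j ℓ) ≤ D + 2 k (K + K')`.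
-/

set_option autoImplicit false

namespace Pool.Agent.H46.GA

open Finset Classical
open Pool.Agent.H71.DN Pool.Agent.H71.DX Pool.Agent.H71.DR Pool.Agent.H71.HL Pool.Agent.H71.DC
open Pool.Agent.H71.TD

private theorem Hol_card {V : Type} [Fintype V] {p q : V → Prop} {i1 : DecidablePred p}
    {i2 : DecidablePred q} (h : ∀ v, p v ↔ q v) :
    (@Finset.filter V p i1 univ).card = (@Finset.filter V q i2 univ).card := by
  apply congrArg Finset.card
  ext v
  rw [Finset.mem_filter, Finset.mem_filter, h v]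

private theorem Hol_cards {α : Type} {s : Finset α} {p q : α → Prop} {i1 : DecidablePred p}
    {i2 : DecidablePred q} (h : ∀ v, p v ↔ q v) :
    (@Finset.filter α p i1 s).card = (@Finset.filter α q i2 s).card := by
  apply congrArg Finset.card
  ext v
  rw [Finset.mem_filter, Finset.mem_filter, h v]

private theorem Hol_sub {V : Type} [Fintype V] {p : V → Prop} {q : {v // p v} → Prop}
    {r : V → Prop} {i1 : DecidablePred q} {i2 : DecidablePred r} {fi : Fintype {v // p v}}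
    (h1 : ∀ u : {v // p v}, q u ↔ r u.1) (h2 : ∀ v, r v → p v) :
    (@Finset.filter {v // p v} q i1 (@Finset.univ _ fi)).card =
      (@Finset.filter V r i2 univ).card := by
  refine card_bij (fun u _ => u.1) ?_ ?_ ?_
  · intro u hu
    rw [mem_filter] at hu ⊢
    exact ⟨mem_univ _, (h1 u).1 hu.2⟩
  · intro u _ u' _ h
    exact Subtype.ext h
  · intro v hv
    rw [mem_filter] at hv
    exact ⟨⟨v, h2 v hv.2⟩, mem_filter.2 ⟨@Finset.mem_univ _ fi _, (h1 ⟨v, h2 v hv.2⟩).2 hv.2⟩, rfl⟩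

private theorem Hol_sum {V : Type} [Fintype V] (nd cc : V → ℕ) (k K ℓ : ℕ)
    (h : ∀ j < 2 * k, ow nd cc j ℓ ≤ K) :
    (univ.filter fun v => nd v < 2 * k ∧ cc v = ℓ).card ≤ 2 * k * K := by
  have h1 : (univ.filter fun v => nd v < 2 * k ∧ cc v = ℓ) ⊆
      (range (2 * k)).biUnion fun j => (pt nd j).filter fun v => cc v = ℓ := by
    intro v hv
    rw [mem_filter] at hv
    rw [mem_biUnion]
    refine ⟨nd v, mem_range.2 hv.2.1, ?_⟩
    rw [mem_filter]
    unfold pt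
    rw [mem_filter]
    exact ⟨⟨mem_univ _, rfl⟩, hv.2.2⟩
  refine (card_le_card h1).trans ?_
  have h2 := card_biUnion_le_card_mul (range (2 * k))
    (fun j => (pt nd j).filter fun v => cc v = ℓ) K (fun j hj => h j (mem_range.1 hj))
  rw [card_range] at h2
  exact h2

/-- the vertices of a piece at the label `ℓ` -/
private theorem Hol_part {V : Type} [Fintype V] (nd : V → ℕ) (φ : ℕ → V → V) (cc hh : V → ℕ)
    (hc : ∀ v, φ (cc v) v = v) (hh1 : ∀ v, φ (hh v) v = v) (hne : ∀ v, cc v ≠ hh v) (j ℓ : ℕ) :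
    ((pt nd j).filter fun v => ¬ (φ ℓ v ≠ v ∨ cc v = ℓ ∨ hh v = ℓ)).card + cv nd (φ ℓ) j +
      ow nd cc j ℓ + ow nd hh j ℓ = (pt nd j).card := by
  unfold cv ow
  rw [card_filter, card_filter, card_filter, card_filter, ← sum_add_distrib, ← sum_add_distrib,
    ← sum_add_distrib, card_eq_sum_ones]
  refine sum_congr rfl fun v _ => ?_
  by_cases h1 : φ ℓ v ≠ v
  · have h2 : cc v ≠ ℓ := fun h => h1 (h ▸ hc v)
    have h3 : hh v ≠ ℓ := fun h => h1 (h ▸ hh1 v)
    rw [if_neg (fun h => h (Or.inl h1)), if_pos h1, if_neg h2, if_neg h3]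
  · by_cases h2 : cc v = ℓ
    · have h3 : hh v ≠ ℓ := fun h => hne v (h2.trans h.symm)
      rw [if_neg (fun h => h (Or.inr (Or.inl h2))), if_neg h1, if_pos h2, if_neg h3]
    · by_cases h3 : hh v = ℓ
      · rw [if_neg (fun h => h (Or.inr (Or.inr h3))), if_neg h1, if_neg h2, if_pos h3]
      · rw [if_pos (by tauto), if_neg h1, if_neg h2, if_neg h3]

theorem hol {V : Type} [Fintype V] (G : SimpleGraph V) (Δ k : ℕ) (ty : ℕ → Prop)
    (nd qt : V → ℕ) (sf : ℕ → Finset V) (t : ℕ) (φ : ℕ → V → V) (c0 : V → ℕ) (d D r z e : ℕ)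
    (hF : Fx G Δ k ty nd qt sf t φ c0 d D r z e) (K : ℕ) (cc : V → ℕ)
    (hC : ColOut G Δ k ty nd qt t K φ cc) (M : ℕ) (hM : Fintype.card V ≤ M * Δ)
    (ht : 4 * t ≤ Δ)
    (hn : 4 * ((4 * M + K + 4) * (d + 1) + D + 2 * k * K) < Δ) (κ : ℝ)
    (hκ : ((D + 2 * k * (4 * M + 2 * K + 4) : ℕ) : ℝ) ≤ κ * Fintype.card V) :
    ∃ hh : V → ℕ, GaOut G Δ k ty nd qt t κ φ cc hh := by
  obtain ⟨b, hb1, hb2, hb3, hb4, hb5⟩ := hla G Δ k ty nd qt sf t φ c0 d D r z e hF K cc hC M hM ht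
  -- sums over the blocks
  have hblk : ∀ j < 2 * k, ∀ (I : Finset ℕ), (∀ ℓ ∈ I, ℓ < 2 * t) → I.card ≤ t →
      ∑ ℓ ∈ I, b j ℓ ≤ t := by
    intro j hj I hI hIc
    calc ∑ ℓ ∈ I, b j ℓ ≤ ∑ _ℓ ∈ I, 1 := sum_le_sum fun ℓ hℓ => hb3 j hj ℓ (hI ℓ hℓ)
      _ = I.card := by rw [card_eq_sum_ones]
      _ ≤ t := hIc
  have hblk0 : ∀ j < 2 * k, ∀ (I : Finset ℕ), (∀ ℓ ∈ I, ℓ < 2 * t) → pt nd j = ∅ →
      ∑ ℓ ∈ I, b j ℓ = 0 := by
    intro j hj I hI hem
    have h1 := hb1 j hj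
    rw [hem, card_empty] at h1
    refine Nat.le_zero.1 (le_trans (sum_le_sum_of_subset fun ℓ hℓ => ?_) h1.le)
    have := hI ℓ hℓ
    exact mem_range.2 (by omega)
  obtain ⟨hh0, g1, g2, g3, g4, g5⟩ : ∃ c : {v : V // nd v < 2 * k} → ℕ,
      (∀ v, c v < Δ + 2) ∧ (∀ v, φ (c v) v.1 = v.1 ∧ cc v.1 ≠ c v) ∧
      (∀ j < 2 * k, ∀ ℓ < Δ + 2,
        (univ.filter fun v : {v : V // nd v < 2 * k} => nd v.1 = j ∧ c v = ℓ).card = b j ℓ) ∧
      (∀ v : {v : V // nd v < 2 * k}, qt v.1 < 2 → t ≤ c v) ∧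
      ∀ v : {v : V // nd v < 2 * k}, ¬ qt v.1 < 2 → c v < t ∨ 2 * t ≤ c v := by
    obtain ⟨G0, hG0⟩ : ∃ G0 : SimpleGraph {v : V // nd v < 2 * k}, ∀ a b, ¬ G0.Adj a b :=
      ⟨⊥, fun _ _ h => h⟩
    obtain ⟨c, c1, c2, _, c4, c5, c6⟩ := cl2 (V := {v : V // nd v < 2 * k}) (ι := Fin (2 * k))
      G0 (Δ + 2) t (by omega)
      (fun v => ⟨nd v.1, v.2⟩) (fun v => qt v.1 < 2)
      (fun ℓ => univ.filter fun v : {v : V // nd v < 2 * k} => φ ℓ v.1 ≠ v.1 ∨ cc v.1 = ℓ)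
      (fun i => b i) (4 * M + K + 4) 0 (d + 1) (D + 2 * k * K)
      (fun i ℓ => hb2 i ℓ)
      (fun i => by
        rw [hb1 i i.2]
        unfold pt
        refine (Hol_sub (fun u => ?_) fun v hv => ?_).symm
        · exact ⟨fun h => congrArg Fin.val h, fun h => Fin.ext h⟩
        · rw [hv]
          exact i.2)
      (fun i => by
        rw [Hol_sub (r := fun v => nd v = i ∧ qt v < 2)
          (fun u => and_congr ⟨fun h => congrArg Fin.val h, fun h => Fin.ext h⟩ Iff.rfl)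
          (fun v hv => by rw [hv.1]; exact i.2)]
        rcases (pt nd i).eq_empty_or_nonempty with h | ⟨v, hv⟩
        · rw [hblk0 i i.2 _ (fun ℓ hℓ => (mem_Ico.1 hℓ).2) h]
          exact Nat.zero_le _
        · unfold pt at hv
          have hv2 := (mem_filter.1 hv).2
          have h1 := (hF.half v (by rw [hv2]; exact i.2)).1
          rw [hv2] at h1
          have h2 := hblk i i.2 (Ico t (2 * t)) (fun ℓ hℓ => (mem_Ico.1 hℓ).2)
            (by rw [Nat.card_Ico]; omega)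
          rw [Hol_card (q := fun v => nd v = i ∧ qt v < 2) (fun v => Iff.rfl)] at h1
          omega)
      (fun i => by
        rw [Hol_sub (r := fun v => nd v = i ∧ ¬ qt v < 2)
          (fun u => and_congr ⟨fun h => congrArg Fin.val h, fun h => Fin.ext h⟩ Iff.rfl)
          (fun v hv => by rw [hv.1]; exact i.2)]
        rcases (pt nd i).eq_empty_or_nonempty with h | ⟨v, hv⟩
        · rw [hblk0 i i.2 _ (fun ℓ hℓ => by have := mem_range.1 hℓ; omega) h]
          exact Nat.zero_le _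
        · unfold pt at hv
          have hv2 := (mem_filter.1 hv).2
          have h1 := (hF.half v (by rw [hv2]; exact i.2)).2
          rw [hv2] at h1
          have h2 := hblk i i.2 (range t) (fun ℓ hℓ => by have := mem_range.1 hℓ; omega)
            (by rw [card_range])
          rw [Hol_card (q := fun v => nd v = i ∧ ¬ qt v < 2) (fun v => Iff.rfl)] at h1
          omega)
      (fun v => by
        unfold dg
        rw [Nat.le_zero, card_eq_zero]
        refine eq_empty_of_forall_notMem fun u hu => ?_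
        exact hG0 _ _ (mem_filter.1 hu).2)
      (fun v => by
        have h1 : ((range (Δ + 2)).filter fun ℓ => φ ℓ v.1 ≠ v.1 ∨ cc v.1 = ℓ) ⊆
            ((range (Δ + 2)).filter fun ℓ => φ ℓ v.1 ≠ v.1) ∪ {cc v.1} := by
          intro ℓ hℓ
          rw [mem_filter] at hℓ
          rw [mem_union, mem_filter, mem_singleton]
          rcases hℓ.2 with h | h
          · exact Or.inl ⟨hℓ.1, h⟩
          · exact Or.inr h.symm
        have h2 : ((range (Δ + 2)).filter fun ℓ => φ ℓ v.1 ≠ v.1 ∨ cc v.1 = ℓ).card ≤ d + 1 := by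
          refine (card_le_card h1).trans ((card_union_le _ _).trans ?_)
          rw [hF.cnt v.1, card_singleton]
          exact Nat.add_le_add_right (hF.dF v.1 v.2) 1
        refine (Hol_cards fun ℓ => ?_).trans_le h2
        exact ⟨fun h => (mem_filter.1 h).2, fun h => mem_filter.2 ⟨mem_univ _, h⟩⟩)
      (fun ℓ hℓ => by
        rw [Hol_sub (r := fun v => nd v < 2 * k ∧ (φ ℓ v ≠ v ∨ cc v = ℓ))
          (fun u => ⟨fun h => ⟨u.2, h⟩, fun h => h.2⟩) (fun v hv => hv.1)]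
        have h1 : (univ.filter fun v => nd v < 2 * k ∧ (φ ℓ v ≠ v ∨ cc v = ℓ)) ⊆
            (univ.filter fun v => nd v < 2 * k ∧ φ ℓ v ≠ v) ∪
            (univ.filter fun v => nd v < 2 * k ∧ cc v = ℓ) := by
          intro v hv
          rw [mem_filter] at hv
          rw [mem_union, mem_filter, mem_filter]
          rcases hv.2.2 with h | h
          · exact Or.inl ⟨mem_univ _, hv.2.1, h⟩
          · exact Or.inr ⟨mem_univ _, hv.2.1, h⟩
        refine (card_le_card h1).trans ((card_union_le _ _).trans ?_)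
        exact Nat.add_le_add (hF.sm ℓ hℓ) (Hol_sum nd cc k K ℓ fun j hj => hC.ct j hj ℓ hℓ))
      (fun v => by
        have h1 := hF.half v.1 v.2
        rw [Hol_sub (r := fun u => nd u = nd v.1 ∧ (qt u < 2 ↔ qt v.1 < 2))
          (fun u => and_congr ⟨fun h => congrArg Fin.val h, fun h => Fin.ext h⟩ Iff.rfl)
          (fun u hu => by rw [hu.1]; exact v.2)]
        have h2 : Δ ≤ 4 * (univ.filter fun u => nd u = nd v.1 ∧ (qt u < 2 ↔ qt v.1 < 2)).card := by
          by_cases h3 : qt v.1 < 2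
          · refine h1.1.trans (Nat.mul_le_mul_left 4 (card_le_card fun u hu => ?_))
            rw [mem_filter] at hu ⊢
            exact ⟨mem_univ _, hu.2.1, iff_of_true hu.2.2 h3⟩
          · refine h1.2.trans (Nat.mul_le_mul_left 4 (card_le_card fun u hu => ?_))
            rw [mem_filter] at hu ⊢
            exact ⟨mem_univ _, hu.2.1, iff_of_false hu.2.2 h3⟩
        simp only [Nat.mul_zero, Nat.add_zero]
        omega)
    refine ⟨c, c1, fun v => ?_, fun j hj ℓ hℓ => ?_, c5, c6⟩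
    · have h1 := c2 v
      rw [mem_filter] at h1
      have h2 : ¬ (φ (c v) v.1 ≠ v.1 ∨ cc v.1 = c v) := fun h => h1 ⟨mem_univ _, h⟩
      rw [not_or, not_not] at h2
      exact h2
    · rw [← c4 ⟨j, hj⟩ ℓ hℓ]
      exact Hol_card fun v => and_congr ⟨fun h => Fin.ext h, fun h => congrArg Fin.val h⟩ Iff.rfl
  -- the exceptional vertices
  have hex : ∀ v, ¬ nd v < 2 * k → ∃ ℓ, ℓ < Δ + 2 ∧ φ ℓ v = v ∧ cc v ≠ ℓ := by
    intro v hv
    have h1 : v ∈ pt nd (2 * k) := by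
      unfold pt
      rw [mem_filter]
      have := hF.le v
      exact ⟨mem_univ _, by omega⟩
    have h2 := hF.cnt v
    rw [hF.dlo v h1] at h2
    have h3 := card_filter_add_card_filter_not (s := range (Δ + 2)) (fun ℓ => φ ℓ v ≠ v)
    rw [h2, card_range] at h3
    by_contra hno
    push Not at hno
    have h4 : ((range (Δ + 2)).filter fun ℓ => ¬ φ ℓ v ≠ v) ⊆ {cc v} := by
      intro ℓ hℓ
      rw [mem_filter, mem_range, not_not] at hℓ
      rw [mem_singleton]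
      exact (hno ℓ hℓ.1 hℓ.2).symm
    have h5 := card_le_card h4
    rw [card_singleton] at h5
    omega
  obtain ⟨hh, k1, k2⟩ : ∃ hh : V → ℕ, (∀ v (h : nd v < 2 * k), hh v = hh0 ⟨v, h⟩) ∧
      ∀ v, ¬ nd v < 2 * k → hh v < Δ + 2 ∧ φ (hh v) v = v ∧ cc v ≠ hh v := by
    refine ⟨fun v => if h : nd v < 2 * k then hh0 ⟨v, h⟩ else (hex v h).choose, ?_, ?_⟩
    · intro v h
      simp only [dif_pos h]
    · intro v h
      simp only [dif_neg h]
      exact (hex v h).choose_spec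
  have m1 : ∀ v, hh v < Δ + 2 ∧ φ (hh v) v = v ∧ cc v ≠ hh v := by
    intro v
    by_cases h : nd v < 2 * k
    · rw [k1 v h]
      exact ⟨g1 _, (g2 ⟨v, h⟩).1, (g2 ⟨v, h⟩).2⟩
    · exact k2 v h
  have m2 : ∀ j < 2 * k, ∀ ℓ < Δ + 2, ow nd hh j ℓ = b j ℓ := by
    intro j hj ℓ hℓ
    rw [← g3 j hj ℓ hℓ]
    unfold ow pt
    rw [filter_filter]
    refine (Hol_sub (fun u => ?_) fun v hv => ?_).symm
    · rw [k1 u.1 u.2]
    · rw [hv.1]
      exact hj
  have hpart := Hol_part nd φ cc hh hC.fr (fun v => (m1 v).2.1) (fun v => (m1 v).2.2)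
  refine ⟨hh, ⟨?_, ?_, ?_, ?_, ?_, ?_, ?_, ?_⟩⟩
  · exact fun v => ⟨hC.lt v, (m1 v).1, (m1 v).2.2⟩
  · exact fun v => ⟨hC.fr v, (m1 v).2.1⟩
  · exact hC.pr
  · intro v hv hq
    refine ⟨hC.t1 v hv hq, ?_⟩
    rw [k1 v hv]
    exact g4 ⟨v, hv⟩ hq
  · intro v hv hq
    refine ⟨hC.t2 v hv hq, ?_⟩
    rw [k1 v hv]
    exact g5 ⟨v, hv⟩ (by
      show ¬ qt v < 2
      omega)
  · intro i hi hty ℓ hℓ
    have h1 := hpart (2 * i) ℓ
    rw [m2 (2 * i) (by omega) ℓ hℓ] at h1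
    have h2 := hb4 i hi hty ℓ hℓ
    obtain ⟨x, hx⟩ := h2
    rw [Nat.even_iff]
    omega
  · intro i hi hty ℓ hℓ
    have h1 := hpart (2 * i) ℓ
    have h2 := hpart (2 * i + 1) ℓ
    rw [m2 (2 * i) (by omega) ℓ hℓ] at h1
    rw [m2 (2 * i + 1) (by omega) ℓ hℓ] at h2
    have h3 := hb5 i hi hty ℓ hℓ
    have h4 := hF.bal i hi hty
    unfold gg uu at h3
    unfold cv at h1 h2
    omega
  · intro ℓ hℓ
    refine le_trans ?_ hκ
    have h1 : (univ.filter fun v => nd v < 2 * k ∧ (φ ℓ v ≠ v ∨ cc v = ℓ ∨ hh v = ℓ)) ⊆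
        ((univ.filter fun v => nd v < 2 * k ∧ φ ℓ v ≠ v) ∪
        (univ.filter fun v => nd v < 2 * k ∧ cc v = ℓ)) ∪
        (univ.filter fun v => nd v < 2 * k ∧ hh v = ℓ) := by
      intro v hv
      rw [mem_filter] at hv
      rw [mem_union, mem_union, mem_filter, mem_filter, mem_filter]
      rcases hv.2.2 with h | h | h
      · exact Or.inl (Or.inl ⟨mem_univ _, hv.2.1, h⟩)
      · exact Or.inl (Or.inr ⟨mem_univ _, hv.2.1, h⟩)
      · exact Or.inr ⟨mem_univ _, hv.2.1, h⟩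
    have h2 := (card_le_card h1).trans ((card_union_le _ _).trans
      (Nat.add_le_add_right (card_union_le _ _) _))
    have h3 := hF.sm ℓ hℓ
    have h4 := Hol_sum nd cc k K ℓ fun j hj => hC.ct j hj ℓ hℓ
    have h5 := Hol_sum nd hh k (4 * M + K + 4) ℓ fun j hj => by
      rw [m2 j hj ℓ hℓ]
      exact hb2 j ℓ
    have h6 : 2 * k * (4 * M + 2 * K + 4) = 2 * k * K + 2 * k * (4 * M + K + 4) := by ring
    have h7 : (univ.filter fun v => nd v < 2 * k ∧ (φ ℓ v ≠ v ∨ cc v = ℓ ∨ hh v = ℓ)).card ≤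
        D + 2 * k * (4 * M + 2 * K + 4) := by omega
    exact_mod_cast h7

end Pool.Agent.H46.GA
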